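import Pool.Agent.Lib.H66Q.Defs

set_option autoImplicit false
set_option linter.unusedVariables false
set_option linter.unusedSectionVars false

open scoped Pointwise

namespace Pool.Agent.H66Q

/-- In a finite monoid every element has an idempotent power. (Two powers `a^i = a^(i+k)`, `k ≥ 1`, agree by finiteness; then `a^n = a^(n+k)` for all `n ≥ i`, so for `n = k * (i + 1)`: `a^n = a^(n + k l)` for all `l`, in particular
`a^(2n) = a^n`.) -/
theorem exists_idem {M : Type} [Monoid M] [Finite M] (a : M) : ∃ n : ℕ, 1 ≤ n ∧ a ^ n * a ^ n = a ^ n := by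
  have hni : ¬ Function.Injective (fun n : ℕ => a ^ n) := not_injective_infinite_finite _
  rw [Function.Injective] at hni
  push Not at hni
  obtain ⟨i, j, hij, hne⟩ := hni
  wlog hlt : i < j generalizing i j with H
  · exact H j i hij.symm hne.symm (by omega)
  obtain ⟨k, rfl⟩ : ∃ k, j = i + k := ⟨j - i, by omega⟩
  have hk : 1 ≤ k := by omega
  have h1 : ∀ n, i ≤ n → a ^ (n + k) = a ^ n := by
    intro n hn
    obtain ⟨m, rfl⟩ : ∃ m, n = i + m := ⟨n - i, by omega⟩
    calc a ^ (i + m + k) = a ^ (i + k) * a ^ m := by rw [← pow_add]; congr 1; omega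
      _ = a ^ i * a ^ m := by rw [← hij]
      _ = a ^ (i + m) := (pow_add a i m).symm
  have h2 : ∀ l n, i ≤ n → a ^ (n + k * l) = a ^ n := by
    intro l
    induction l with
    | zero => intro n _; rw [mul_zero, add_zero]
    | succ l ih =>
      intro n hn
      have e : n + k * (l + 1) = (n + k * l) + k := by ring
      rw [e, h1 _ (le_trans hn (Nat.le_add_right _ _)), ih n hn]
  refine ⟨k * (i + 1), Nat.mul_pos hk (Nat.succ_pos i), ?_⟩
  rw [← pow_add]
  apply h2
  nlinarith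

/-- Integer inverse modulo `p^K`. (`Nat.exists_mul_emod_eq_one_of_coprime` or Bezout; cast to `E`, `(p^K : E) = 0`.) -/
theorem exists_inv {p : ℕ} {E : Type} [Ring E] (K : ℕ) (hK : (p : E) ^ K = 0) (n : ℕ) (hn : Nat.Coprime p n) :
    ∃ c : ℤ, ((c * n : ℤ) : E) = 1 := by
  have hc : Nat.gcd (p ^ K) n = 1 := Nat.Coprime.pow_left K hn
  have h2 : (1 : ℤ) = (p ^ K : ℕ) * Nat.gcdA (p ^ K) n + n * Nat.gcdB (p ^ K) n := by
    rw [← Nat.gcd_eq_gcd_ab, hc]
    rfl
  refine ⟨Nat.gcdB (p ^ K) n, ?_⟩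
  have h3 : (Nat.gcdB (p ^ K) n * n : ℤ) = 1 - (p ^ K : ℕ) * Nat.gcdA (p ^ K) n := by
    rw [h2]
    ring
  rw [h3]
  push_cast
  rw [hK, zero_mul, sub_zero]

end Pool.Agent.H66Q
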