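import Pool.Agent.Lib.H66Q.C4
import Pool.Agent.Lib.H66Q.I1

set_option autoImplicit false
set_option linter.unusedVariables false
set_option linter.unusedSectionVars false

open scoped Pointwise

namespace Pool.Agent.H66Q

section A2aux

variable {p : ℕ} [Fact p.Prime] {E : Type} [Ring E] {P : Type} [Group P] [Fintype P]

private theorem a2_tau (S : Sys p E P) {h : E} (h1 : ∀ g : P, S.act g h = h) (h2 : S.t h = h) (x : P) :
    S.tau x h = h := by
  change (S.t * S.act x) h = h
  rw [RingAut.mul_apply, h1, h2]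

private theorem a2_one [Finite E] (S : Sys p E P) (hP : IsPGroup p P) (x : P) (hx : orderOf x = p) :
    ∃ e : E, (∀ g : P, S.act g e = e) ∧ S.t e = e ∧ (∃ w : E, e = nrm p S.t w) ∧
      ∃ w : E, 1 - e = nrm p (S.tau x) w := by
  obtain ⟨a, ha1, ha2, ⟨w, hw⟩, hinj⟩ := a1 S hP x hx
  obtain ⟨n, hn, hid⟩ := exists_idem a
  have hg : ∀ (k : ℕ) (g : P), S.act g (a ^ k) = a ^ k := fun k g => by rw [map_pow, ha1]
  have ht : ∀ k : ℕ, S.t (a ^ k) = a ^ k := fun k => by rw [map_pow, ha2]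
  refine ⟨a ^ n, hg n, ht n, ⟨w * a ^ (n - 1), ?_⟩, ?_⟩
  · rw [nrmR_mul_right p S.t w (a ^ (n - 1)) (ht _), ← hw, ← pow_succ', Nat.sub_add_cancel hn]
  · have hfix : ∀ k : ℕ, S.tau x ((1 - a ^ n) * a ^ k) = (1 - a ^ n) * a ^ k := by
      intro k
      refine a2_tau S (fun g => ?_) ?_ x
      · rw [map_mul, map_sub, map_one, hg, hg]
      · rw [map_mul, map_sub, map_one, ht, ht]
    have key : ∀ k : ℕ, k ≤ n → ∃ w : E, (1 - a ^ n) * a ^ (n - k) = nrm p (S.tau x) w := by
      intro k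
      induction k with
      | zero =>
        intro _
        refine ⟨0, ?_⟩
        rw [nrmR_zero, Nat.sub_zero, sub_mul, one_mul, hid, sub_self]
      | succ k ih =>
        intro hk
        obtain ⟨w', hw'⟩ := ih (by omega)
        refine hinj _ (hfix _) ⟨w', ?_⟩
        rw [mul_assoc, ← pow_succ, ← hw']
        congr 2
        omega
    obtain ⟨w', hw'⟩ := key n le_rfl
    refine ⟨w', ?_⟩
    rw [← hw', Nat.sub_self, pow_zero, mul_one]

private theorem a2_list [Finite E] (S : Sys p E P) (hP : IsPGroup p P) (l : List P)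
    (hl : ∀ x ∈ l, orderOf x = p) :
    ∃ q : E, (∀ g : P, S.act g q = q) ∧ S.t q = q ∧ (∃ w : E, 1 - q = nrm p S.t w) ∧
      ∀ x ∈ l, ∃ w : E, q = nrm p (S.tau x) w := by
  induction l with
  | nil =>
    refine ⟨1, fun g => map_one _, map_one _, ⟨0, ?_⟩, fun x hx => ?_⟩
    · rw [nrmR_zero, sub_self]
    · simp at hx
  | cons x l ih =>
    obtain ⟨q, hq1, hq2, ⟨w, hw⟩, hq3⟩ := ih fun y hy => hl y (List.mem_cons_of_mem _ hy)
    obtain ⟨e, he1, he2, ⟨w', hw'⟩, w'', hw''⟩ := a2_one S hP x (hl x List.mem_cons_self)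
    have h1 : ∀ g : P, S.act g (1 - e) = 1 - e := fun g => by rw [map_sub, map_one, he1]
    have h2 : S.t (1 - e) = 1 - e := by rw [map_sub, map_one, he2]
    refine ⟨(1 - e) * q, fun g => ?_, ?_, ⟨w + w' * q, ?_⟩, fun y hy => ?_⟩
    · rw [map_mul, h1, hq1]
    · rw [map_mul, h2, hq2]
    · rw [nrmR_add, nrmR_mul_right p S.t w' q hq2, ← hw, ← hw']
      rw [sub_mul, one_mul]
      abel
    · rcases List.mem_cons.1 hy with rfl | hy
      · refine ⟨w'' * q, ?_⟩
        rw [nrmR_mul_right p (S.tau y) w'' q (a2_tau S hq1 hq2 y), ← hw'']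
      · obtain ⟨v, hv⟩ := hq3 y hy
        refine ⟨(1 - e) * v, ?_⟩
        rw [nrmR_mul_left p (S.tau y) v (1 - e) (a2_tau S h1 h2 y), ← hv]

end A2aux

/-- (A2) For a `p`-group `P`: one element for all `x` of order `p`. Proof. For `x` of order `p` let `a` from `a1`, `n ≥ 1` with `a^n` idempotent (`exists_idem`, `E` finite). Put `e_x = a^n`, `h = 1 - e_x`. `h` is fixed by `S.act g`, `S.t`, `S.tau x`.
`h * a^n = 0 = nrm p (S.tau x) 0`; going down with `Inj` (for `k = n, n-1, ..., 1`: `(h * a^(k-1)) * a` is a relative trace and `h * a^(k-1)` is `tau`-fixed, so `h * a^(k-1)` is one) we get that `h = 1 - e_x` is a relative trace for `S.tau x`. And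
`e_x = a * a^(n-1) = nrm p S.t (e * a^(n-1))` (`nrmR_mul_right`) is a relative trace for `S.t`. Now let `x_1, ..., x_r` be a list of all elements of order `p` and `q = (1 - e_{x_1}) ... (1 - e_{x_r})`, `a_P = 1 - q`.
By induction on lists: `q` is fixed by all `S.act g` and `S.t`; `1 - q` is a relative trace for `S.t` (`1 - (1 - e) q' = (1 - q') + e q'`, the sum of two traces; empty list: `1 - 1 = 0`); for every `x` in the list `q` is a relative trace for `S.tau x`
(`nrmR_mul_left`, `nrmR_mul_right`, as the other factors are fixed by `S.tau x`). -/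
theorem a2 {p : ℕ} [Fact p.Prime] {E : Type} [Ring E] [Finite E] {P : Type} [Group P] [Fintype P] (S : Sys p E P) (hP : IsPGroup p P) :
    ∃ a : E, (∀ g : P, S.act g a = a) ∧ S.t a = a ∧ (∃ e : E, a = nrm p S.t e) ∧
      ∀ x : P, orderOf x = p → ∃ e : E, 1 - a = nrm p (S.tau x) e := by
  classical
  obtain ⟨q, hq1, hq2, hq3, hq4⟩ := a2_list S hP (Finset.univ.filter fun x : P => orderOf x = p).toList
    (fun x hx => (Finset.mem_filter.1 (Finset.mem_toList.1 hx)).2)
  refine ⟨1 - q, fun g => ?_, ?_, hq3, fun x hx => ?_⟩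
  · rw [map_sub, map_one, hq1]
  · rw [map_sub, map_one, hq2]
  · rw [sub_sub_cancel]
    exact hq4 x (Finset.mem_toList.2 (Finset.mem_filter.2 ⟨Finset.mem_univ _, hx⟩))

end Pool.Agent.H66Q
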