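import Pool.Agent.Lib.H66Q.N1

set_option autoImplicit false
set_option linter.unusedVariables false
set_option linter.unusedSectionVars false

open scoped Pointwise

namespace Pool.Agent.H66Q

/-- From `∑ g, g • b = 1` over `G` to the same over a subgroup: `b' = ∑ q : G ⧸ H, act (q.out)⁻¹ b`. Every `g` is uniquely `h * (q.out)⁻¹` with `h ∈ H`, `q : G ⧸ H` (`g⁻¹ = q.out * h⁻¹`, `Subgroup.groupEquivQuotientProdSubgroup` or a direct bijection). -/
theorem exists_bH {E : Type} [Ring E] {G : Type} [Group G] [Fintype G] (act : G →* RingAut E) (b : E) (hb : ∑ g : G, act g b = 1)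
    (H : Subgroup G) [Fintype H] : ∃ b' : E, ∑ h : H, act (h : G) b' = 1 := by
  classical
  let _ : Fintype (G ⧸ H) := Fintype.ofFinite _
  refine ⟨∑ q : G ⧸ H, act (q.out)⁻¹ b, ?_⟩
  have hbij : Function.Bijective (fun z : H × (G ⧸ H) => (z.1 : G) * (z.2.out)⁻¹) := by
    constructor
    · rintro ⟨h, q⟩ ⟨h', q'⟩ e
      have e' : (h : G) * (q.out)⁻¹ = (h' : G) * (q'.out)⁻¹ := e
      have e1 : q.out * (h : G)⁻¹ = q'.out * (h' : G)⁻¹ := by
        have := congrArg (fun g : G => g⁻¹) e'
        simpa only [mul_inv_rev, inv_inv] using this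
      have e2 : q = q' := by
        have h1 : (QuotientGroup.mk (q.out * (h : G)⁻¹) : G ⧸ H) = q := by
          rw [QuotientGroup.mk_mul_of_mem _ (H.inv_mem h.2)]
          exact QuotientGroup.out_eq' q
        have h2 : (QuotientGroup.mk (q'.out * (h' : G)⁻¹) : G ⧸ H) = q' := by
          rw [QuotientGroup.mk_mul_of_mem _ (H.inv_mem h'.2)]
          exact QuotientGroup.out_eq' q'
        rw [← h1, ← h2, e1]
      subst e2
      have e3 : (h : G) = (h' : G) := mul_right_cancel e'
      rw [Subtype.ext e3]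
    · intro g
      obtain ⟨h, hh⟩ := QuotientGroup.mk_out_eq_mul H g⁻¹
      refine ⟨(h, (QuotientGroup.mk g⁻¹ : G ⧸ H)), ?_⟩
      show (h : G) * ((QuotientGroup.mk g⁻¹ : G ⧸ H).out)⁻¹ = g
      rw [hh]
      group
  calc ∑ h : H, act (h : G) (∑ q : G ⧸ H, act (q.out)⁻¹ b)
      = ∑ h : H, ∑ q : G ⧸ H, act ((h : G) * (q.out)⁻¹) b := by
        refine Finset.sum_congr rfl fun h _ => ?_
        rw [map_sum]
        refine Finset.sum_congr rfl fun q _ => ?_
        rw [map_mul, RingAut.mul_apply]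
    _ = ∑ z : H × (G ⧸ H), act ((z.1 : G) * (z.2.out)⁻¹) b := by
        rw [Fintype.sum_prod_type]
    _ = ∑ g : G, act g b := Fintype.sum_bijective _ hbij _ _ fun _ => rfl
    _ = 1 := hb

/-- The same for the cyclic group generated by `y`, as a relative trace: `∑ h : zpowers y, act h e = ∑ i in range (orderOf y), (act y)^i e`. -/
theorem exists_cyc {E : Type} [Ring E] {G : Type} [Group G] [Fintype G] (act : G →* RingAut E) (b : E) (hb : ∑ g : G, act g b = 1)
    (y : G) : ∃ e : E, 1 = nrm (orderOf y) (act y) e := by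
  classical
  let _ : Fintype (Subgroup.zpowers y) := Fintype.ofFinite _
  obtain ⟨b', hb'⟩ := exists_bH act b hb (Subgroup.zpowers y)
  refine ⟨b', ?_⟩
  rw [nrmR_eq, ← hb', ← Fin.sum_univ_eq_sum_range (fun i => ((act y) ^ i) b') (orderOf y)]
  symm
  refine Fintype.sum_equiv (finEquivZPowers (isOfFinOrder_of_finite y)) _ _ fun i => ?_
  have h1 : ((finEquivZPowers (isOfFinOrder_of_finite y) i : Subgroup.zpowers y) : G) = y ^ (i : ℕ) := rfl
  rw [h1, map_pow]

end Pool.Agent.H66Q
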