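import Pool.Agent.Lib.H66Q.N1

set_option autoImplicit false
set_option linter.unusedVariables false
set_option linter.unusedSectionVars false

open scoped Pointwise

namespace Pool.Agent.H66Q

/-- Sum of an equivariant function over a finite set with a permutation `σ`, `σ^p = 1`. Proof: induction on the number of elements of a `σ`-stable finset `s` (claim: `∑ c in s, f c` is a relative trace). If `s` is empty: 0. Take `c ∈ s`. If `σ c = c`, `f c` is a relative trace by
`hfix`, remove `c`. Otherwise `c, σ c, ..., σ^(p-1) c` are different (`p` prime, `σ^p = 1`), in `s`, and `∑_{i<p} f (σ^i c) = ∑_{i<p} τ^i (f c) = nrm p τ (f c)`; remove them. Sums of relative traces are relative traces (`nrmR_add`). -/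
theorem sum_orbits {p : ℕ} [Fact p.Prime] {E : Type} [Ring E] (τ : RingAut E) {C : Type} [Fintype C] [DecidableEq C]
    (σ : Equiv.Perm C) (hσ : σ ^ p = 1) (f : C → E) (hf : ∀ c, f (σ c) = τ (f c))
    (hfix : ∀ c, σ c = c → ∃ e : E, f c = nrm p τ e) : ∃ e : E, ∑ c, f c = nrm p τ e := by
  classical
  have hp : p.Prime := Fact.out
  have hper : ∀ c : C, σ^[p] c = c := by
    intro c
    rw [← Equiv.Perm.coe_pow, hσ]
    rfl
  have hfit : ∀ (i : ℕ) (c : C), f (σ^[i] c) = (⇑τ)^[i] (f c) := by
    intro i c
    induction i with
    | zero => rfl
    | succ i ih => rw [Function.iterate_succ_apply', Function.iterate_succ_apply', hf, ih]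
  have key : ∀ s : Finset C, (∀ c ∈ s, σ c ∈ s) → ∃ e : E, ∑ c ∈ s, f c = nrm p τ e := by
    intro s
    induction s using Finset.strongInduction with
    | H s ih =>
      intro hs
      rcases s.eq_empty_or_nonempty with h0 | ⟨c, hc⟩
      · refine ⟨0, ?_⟩
        rw [h0, Finset.sum_empty, nrmR_zero]
      · by_cases hcc : σ c = c
        · obtain ⟨e1, he1⟩ := ih (s.erase c) (Finset.erase_ssubset hc) (by
            intro d hd
            obtain ⟨hd1, hd2⟩ := Finset.mem_erase.1 hd
            refine Finset.mem_erase.2 ⟨fun h => hd1 (σ.injective (h.trans hcc.symm)), hs d hd2⟩)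
          obtain ⟨e2, he2⟩ := hfix c hcc
          refine ⟨e2 + e1, ?_⟩
          rw [nrmR_add, ← he1, ← he2, Finset.add_sum_erase s f hc]
        · have hmin : Function.minimalPeriod σ c = p := by
            have h1 : Function.minimalPeriod σ c ∣ p :=
              Function.IsPeriodicPt.minimalPeriod_dvd (hper c)
            rcases (Nat.dvd_prime hp).1 h1 with h2 | h2
            · exact absurd (Function.minimalPeriod_eq_one_iff_isFixedPt.1 h2) hcc
            · exact h2
          have hinj : Set.InjOn (fun i : ℕ => σ^[i] c) (Finset.range p : Set ℕ) := by
            intro i hi j hj hij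
            have hi' : i < Function.minimalPeriod σ c := by
              rw [hmin]; exact Finset.mem_range.1 (Finset.mem_coe.1 hi)
            have hj' : j < Function.minimalPeriod σ c := by
              rw [hmin]; exact Finset.mem_range.1 (Finset.mem_coe.1 hj)
            exact (Function.iterate_eq_iterate_iff_of_lt_minimalPeriod hi' hj').1 hij
          have hits : ∀ i : ℕ, σ^[i] c ∈ s := by
            intro i
            induction i with
            | zero => exact hc
            | succ i ih2 =>
              rw [Function.iterate_succ_apply']
              exact hs _ ih2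
          have hos : (Finset.range p).image (fun i : ℕ => σ^[i] c) ⊆ s := by
            intro d hd
            obtain ⟨i, _, rfl⟩ := Finset.mem_image.1 hd
            exact hits i
          have hco : c ∈ (Finset.range p).image (fun i : ℕ => σ^[i] c) :=
            Finset.mem_image.2 ⟨0, Finset.mem_range.2 hp.pos, rfl⟩
          obtain ⟨e1, he1⟩ := ih (s \ (Finset.range p).image (fun i : ℕ => σ^[i] c))
            (Finset.sdiff_ssubset hos ⟨c, hco⟩) (by
              intro d hd
              obtain ⟨hd1, hd2⟩ := Finset.mem_sdiff.1 hd
              refine Finset.mem_sdiff.2 ⟨hs d hd1, fun h => hd2 ?_⟩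
              obtain ⟨i, hi, hid⟩ := Finset.mem_image.1 h
              cases i with
              | zero =>
                refine Finset.mem_image.2 ⟨p - 1, Finset.mem_range.2 (Nat.sub_lt hp.pos one_pos), ?_⟩
                apply σ.injective
                show σ (σ^[p - 1] c) = σ d
                rw [← Function.iterate_succ_apply' (⇑σ), Nat.succ_eq_add_one,
                  Nat.sub_add_cancel hp.one_le, hper]
                exact hid
              | succ j =>
                refine Finset.mem_image.2 ⟨j, Finset.mem_range.2
                  (lt_trans (Nat.lt_succ_self j) (Finset.mem_range.1 hi)), ?_⟩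
                apply σ.injective
                show σ (σ^[j] c) = σ d
                rw [← Function.iterate_succ_apply' (⇑σ)]
                exact hid)
          refine ⟨e1 + f c, ?_⟩
          rw [nrmR_add, ← he1, ← Finset.sum_sdiff hos, Finset.sum_image hinj]
          refine congrArg₂ (· + ·) rfl ?_
          unfold nrm
          exact Finset.sum_congr rfl fun i _ => hfit i c
  exact key Finset.univ (fun c _ => Finset.mem_univ _)

end Pool.Agent.H66Q
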