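import Pool.Agent.Lib.H66Q.A2
import Pool.Agent.Lib.H66Q.B1
import Pool.Agent.Lib.H66Q.B2

set_option autoImplicit false
set_option linter.unusedVariables false
set_option linter.unusedSectionVars false

open scoped Pointwise

namespace Pool.Agent.H66Q

/-- (A3) From a Sylow subgroup to `G`. Proof. `P : Sylow p G`; `S_P = S.restrict P b'` with `b'` from `exists_bH`; `a_P` from `a2` for `S_P` (`P.isPGroup'`). The index `n = P.index` is prime to `p` (`Sylow.not_dvd_index`), `c : ℤ` with `(c * n : E) = 1` (`exists_inv`).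
For `q : G ⧸ P` let `f q = S.act q.out (1 - a_P)`: independent of the representative (`1 - a_P` is fixed by `P`), so `S.act g (f q) = f (g • q)`. `a = 1 - c • ∑ q, f q`, equivalently `a = c • ∑ q, S.act q.out a_P`. `a` is fixed by all `S.act g` (reindexing) and by `S.t`
(commutation). `a` is a relative trace for `S.t`: `S.act g (nrm p S.t e) = nrm p S.t (S.act g e)` (`nrmR_equiv`), `nrmR_sum`, `nrmR_zsmul`. For `x` of order `p`: `1 - a = c • ∑ q, f q`; apply `sum_orbits` with `τ = S.tau x`, `C = G ⧸ P`, `σ q = x • q`, `σ^p = 1`;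
`f (x • q) = S.act x (f q) = S.tau x (f q)` because `S.t (f q) = f q`. Fixed points: `x • q = q` means `y = q.out⁻¹ * x * q.out ∈ P`, of order `p`; `1 - a_P = nrm p (S.t * S.act y) e` by `a2`, and `S.act q.out * (S.t * S.act y) = (S.t * S.act x) * S.act q.out`, so
`f q = nrm p (S.tau x) (S.act q.out e)` by `nrmR_equiv`. -/
theorem a3 {p : ℕ} [Fact p.Prime] {E : Type} [Ring E] [Finite E] (K : ℕ) (hK : (p : E) ^ K = 0) {G : Type} [Group G] [Fintype G] (S : Sys p E G) :
    ∃ a : E, (∀ g : G, S.act g a = a) ∧ S.t a = a ∧ (∃ e : E, a = nrm p S.t e) ∧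
      ∀ x : G, orderOf x = p → ∃ e : E, 1 - a = nrm p (S.tau x) e := by
  classical
  obtain ⟨P⟩ : Nonempty (Sylow p G) := Sylow.nonempty
  obtain ⟨b', hb'⟩ := exists_bH S.act S.b S.hb (P : Subgroup G)
  obtain ⟨aP, haP1, haP2, ⟨w, hw⟩, haP4⟩ := a2 (S.restrict (P : Subgroup G) b' hb') P.isPGroup'
  have hactP : ∀ g : G, g ∈ (P : Subgroup G) → S.act g aP = aP := fun g hg => haP1 ⟨g, hg⟩
  have htP : S.t aP = aP := haP2
  have hw' : aP = nrm p S.t w := hw
  have hP4 : ∀ y : G, y ∈ (P : Subgroup G) → orderOf y = p → ∃ e : E, 1 - aP = nrm p (S.t * S.act y) e := by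
    intro y hy hyp
    obtain ⟨e, he⟩ := haP4 ⟨y, hy⟩ (by rw [Subgroup.orderOf_mk]; exact hyp)
    exact ⟨e, he⟩
  have hcop : Nat.Coprime p (Fintype.card (G ⧸ (P : Subgroup G))) := by
    rw [Nat.Prime.coprime_iff_not_dvd Fact.out]
    have h1 := P.not_dvd_index
    rwa [Subgroup.index_eq_card, Nat.card_eq_fintype_card] at h1
  obtain ⟨c, hc⟩ := exists_inv K hK _ hcop
  set C := G ⧸ (P : Subgroup G) with hC
  let f : C → E := fun q => S.act q.out (1 - aP)
  have hfmk : ∀ g : G, f (QuotientGroup.mk g) = S.act g (1 - aP) := by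
    intro g
    obtain ⟨h, hh⟩ := QuotientGroup.mk_out_eq_mul (P : Subgroup G) g
    change S.act (QuotientGroup.mk g : C).out (1 - aP) = _
    rw [hh, map_mul, RingAut.mul_apply, map_sub (S.act (h : G)), map_one (S.act (h : G)), hactP _ h.2]
  have hfg : ∀ (g : G) (q : C), S.act g (f q) = f (g • q) := by
    intro g q
    change S.act g (S.act q.out (1 - aP)) = _
    rw [← RingAut.mul_apply, ← map_mul, ← hfmk]
    congr 1
    have h1 : (QuotientGroup.mk (g * q.out) : C) = g • (QuotientGroup.mk q.out : C) := rfl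
    rw [h1, QuotientGroup.out_eq']
  have hft : ∀ q : C, S.t (f q) = f q := by
    intro q
    change S.t (S.act q.out (1 - aP)) = S.act q.out (1 - aP)
    rw [← RingAut.mul_apply, ← (S.comm q.out).eq, RingAut.mul_apply, map_sub S.t, map_one, htP]
  refine ⟨1 - c • ∑ q : C, f q, fun g => ?_, ?_, ?_, fun x hx => ?_⟩
  · rw [map_sub, map_one, map_zsmul, map_sum]
    congr 2
    rw [Finset.sum_congr rfl fun q _ => hfg g q]
    exact Equiv.sum_comp (MulAction.toPerm g) f
  · rw [map_sub, map_one, map_zsmul, map_sum]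
    congr 2
    exact Finset.sum_congr rfl fun q _ => hft q
  · refine ⟨c • ∑ q : C, S.act q.out w, ?_⟩
    rw [nrmR_zsmul, nrmR_sum]
    have h1 : ∀ q : C, nrm p S.t (S.act q.out w) = S.act q.out aP := by
      intro q
      rw [← nrmR_equiv p (S.act q.out) S.t S.t (S.comm q.out).eq w, ← hw']
    rw [Finset.sum_congr rfl fun q _ => h1 q]
    have h2 : ∑ q : C, f q = (Fintype.card C : E) - ∑ q : C, S.act q.out aP := by
      change ∑ q : C, S.act q.out (1 - aP) = _
      simp only [map_sub, map_one, Finset.sum_sub_distrib, Finset.sum_const, Finset.card_univ, nsmul_eq_mul,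
        mul_one]
    have h3 : c • (Fintype.card C : E) = 1 := by
      rw [zsmul_eq_mul, ← hc]
      push_cast
      rfl
    rw [h2, smul_sub, h3]
    abel
  · rw [sub_sub_cancel]
    have hxp : x ^ p = 1 := by rw [← hx]; exact pow_orderOf_eq_one x
    have hx1 : x ≠ 1 := by
      intro h1
      rw [h1, orderOf_one] at hx
      exact (Fact.out : p.Prime).one_lt.ne hx
    obtain ⟨e, he⟩ := sum_orbits (p := p) (S.tau x) (MulAction.toPermHom G C x)
      (by rw [← map_pow, hxp, map_one]) f
      (fun q => by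
        change f (x • q) = S.t (S.act x (f q))
        rw [hfg, hft])
      (fun q hq => by
        have hq' : x • q = q := hq
        have hmem : q.out⁻¹ * (x * q.out) ∈ (P : Subgroup G) := by
          rw [← QuotientGroup.eq]
          have h1 : (QuotientGroup.mk (x * q.out) : C) = x • (QuotientGroup.mk q.out : C) := rfl
          rw [h1, QuotientGroup.out_eq', hq']
        have hord : orderOf (q.out⁻¹ * (x * q.out)) = p := by
          refine orderOf_eq_prime ?_ ?_
          · have h2 : q.out⁻¹ * (x * q.out) = q.out⁻¹ * x * (q.out⁻¹)⁻¹ := by group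
            rw [h2, conj_pow, hxp]
            group
          · intro h2
            apply hx1
            have h3 : x = q.out * (q.out⁻¹ * (x * q.out)) * q.out⁻¹ := by group
            rw [h3, h2]
            group
        obtain ⟨e, he⟩ := hP4 _ hmem hord
        refine ⟨S.act q.out e, ?_⟩
        change S.act q.out (1 - aP) = _
        rw [he]
        refine nrmR_equiv p (S.act q.out) _ _ ?_ e
        change S.act q.out * (S.t * S.act (q.out⁻¹ * (x * q.out))) = S.t * S.act x * S.act q.out
        rw [← mul_assoc, (S.comm q.out).eq, mul_assoc, ← map_mul, mul_assoc, ← map_mul]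
        congr 2
        group)
    refine ⟨c • e, ?_⟩
    rw [nrmR_zsmul, ← he]

end Pool.Agent.H66Q
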