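import Pool.Agent.Lib.H66Q.A3

set_option autoImplicit false
set_option linter.unusedVariables false
set_option linter.unusedSectionVars false

open scoped Pointwise

namespace Pool.Agent.H66Q

private theorem a4_avg {p : ℕ} {E : Type} [Ring E] (c : ℤ) (m : ℕ) (γ σ : RingAut E) (h : Commute γ σ) (z : E)
    (hz : ∃ e : E, z = nrm p σ e) : ∃ e : E, c • nrm m γ z = nrm p σ e := by
  obtain ⟨e, rfl⟩ := hz
  refine ⟨c • nrm m γ e, ?_⟩
  rw [nrmR_zsmul]
  congr 1
  rw [nrmR_eq m γ, nrmR_eq m γ, nrmR_sum]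
  refine Finset.sum_congr rfl fun i _ => ?_
  exact nrmR_equiv p (γ ^ i) σ σ (h.pow_left i).eq e

private theorem a4_fix {E : Type} [Ring E] (c : ℤ) (m : ℕ) (γ σ : RingAut E) (h : Commute γ σ) (z : E)
    (hz : σ z = z) : σ (c • nrm m γ z) = c • nrm m γ z := by
  rw [map_zsmul, nrmR_equiv m σ γ γ h.symm.eq z, hz]

/-- THEOREM A. Proof. `a0` from `a3`, `c : ℤ` with `(c * m : E) = 1` (`exists_inv`), `a1 = c • ∑ i in range m, (γ^i) a0`. `a1` is fixed by `γ` (shift, `γ^m = 1`), by `S.act g`, `S.t` (commutation), a relative trace for `S.t` (`nrmR_equiv` with `σ = γ^i`), and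
`1 - a1 = c • ∑ i in range m, (γ^i) (1 - a0)` is a relative trace for `S.tau x` (`γ^i` commutes with `S.tau x`). Let `n ≥ 1` with `a1^n` idempotent (`exists_idem`), `a = a1^n`. Fixed by everything; `a = a1 * a1^(n-1)` is a relative trace for `S.t` (`nrmR_mul_right`);
`1 - a1^n = (1 - a1) * (1 + a1 + ... + a1^(n-1))` (`mul_neg_geom_sum` / `Commute` geometric sum) is one for `S.tau x`. -/
theorem thmA {p : ℕ} [Fact p.Prime] {E : Type} [Ring E] [Finite E] (K : ℕ) (hK : (p : E) ^ K = 0) {G : Type} [Group G] [Fintype G] (S : Sys p E G)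
    (γ : RingAut E) (m : ℕ) (hγ : γ ^ m = 1) (hm : Nat.Coprime p m) (hγt : Commute γ S.t) (hγa : ∀ g : G, Commute γ (S.act g)) :
    ∃ a : E, a * a = a ∧ γ a = a ∧ (∀ g : G, S.act g a = a) ∧ S.t a = a ∧ (∃ e : E, a = nrm p S.t e) ∧
      ∀ x : G, orderOf x = p → ∃ e : E, 1 - a = nrm p (S.tau x) e := by
  obtain ⟨a0, hact, ht, htr, hx⟩ := a3 K hK S
  obtain ⟨c, hc⟩ := exists_inv (E := E) K hK m hm
  set a1 : E := c • nrm m γ a0 with ha1
  have hγ1 : γ a1 = a1 := by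
    rw [ha1, map_zsmul, nrmR_fix m γ hγ]
  have hact1 : ∀ g : G, S.act g a1 = a1 := fun g => a4_fix c m γ (S.act g) (hγa g) a0 (hact g)
  have ht1 : S.t a1 = a1 := a4_fix c m γ S.t hγt a0 ht
  have htr1 : ∃ e : E, a1 = nrm p S.t e := a4_avg c m γ S.t hγt a0 htr
  have h11 : nrm m γ (1 : E) = (m : E) := by
    rw [nrmR_eq]
    simp
  have hsub : (1 : E) - a1 = c • nrm m γ (1 - a0) := by
    have h1 : nrm m γ (1 - a0) = (m : E) - nrm m γ a0 := by
      rw [sub_eq_add_neg, nrmR_add, nrmR_neg, h11, ← sub_eq_add_neg]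
    have h2 : c • (m : E) = 1 := by
      rw [zsmul_eq_mul]
      have h3 := hc
      push_cast at h3
      exact h3
    rw [h1, smul_sub, h2]
  have hcomm : ∀ x : G, Commute γ (S.tau x) := fun x => hγt.mul_right (hγa x)
  have hx1 : ∀ x : G, orderOf x = p → ∃ e : E, 1 - a1 = nrm p (S.tau x) e := by
    intro x hxp
    rw [hsub]
    exact a4_avg c m γ (S.tau x) (hcomm x) (1 - a0) (hx x hxp)
  have htau1 : ∀ x : G, S.tau x a1 = a1 := by
    intro x
    change (S.t * S.act x) a1 = a1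
    rw [RingAut.mul_apply, hact1, ht1]
  obtain ⟨n, hn, hidem⟩ := exists_idem a1
  obtain ⟨k, rfl⟩ : ∃ k, n = k + 1 := ⟨n - 1, by omega⟩
  refine ⟨a1 ^ (k + 1), hidem, ?_, ?_, ?_, ?_, ?_⟩
  · rw [map_pow, hγ1]
  · intro g
    rw [map_pow, hact1]
  · rw [map_pow, ht1]
  · obtain ⟨e, he⟩ := htr1
    refine ⟨e * a1 ^ k, ?_⟩
    rw [nrmR_mul_right p S.t e (a1 ^ k) (by rw [map_pow, ht1]), ← he, pow_succ']
  · intro x hxp
    obtain ⟨e, he⟩ := hx1 x hxp
    refine ⟨e * ∑ i ∈ Finset.range (k + 1), a1 ^ i, ?_⟩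
    rw [nrmR_mul_right p (S.tau x) e _ (by
      rw [map_sum]
      exact Finset.sum_congr rfl fun i _ => by rw [map_pow, htau1]), ← he, mul_neg_geom_sum]

end Pool.Agent.H66Q
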