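import Pool.Agent.Lib.H66Q.N1

set_option autoImplicit false
set_option linter.unusedVariables false
set_option linter.unusedSectionVars false

open scoped Pointwise

namespace Pool.Agent.H66Q

/-- Acyclicity from a partition. `χ_i = τ^i ∘ χ ∘ τ^(p-i)`, `∑_{i<p} χ_i = id` on `C`.
(1) If `τ φ = φ` then all `τ^[p-i] φ = φ`, so `φ = ∑ τ^[i] (χ φ) = nrm p τ (χ φ)`.
(2) If `nrm p τ φ = 0` put `s i = ∑ l in range i, τ^[l] φ` and `ψ = - ∑ i in range p, τ^[i] (χ (τ^[p-i] (s i)))` (the term `i = 0` vanishes). Then, with `j = i + 1`,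
`τ (τ^[i] (χ (τ^[p-i] (s i)))) = τ^[j] (χ (τ^[p-j] (τ (s i))))` because `τ^[p-i] = τ^[p-j] ∘ τ` for `i < p`, and `τ (s i) = s (i+1) - φ`. So
`τ ψ - ψ = ∑_{i<p} χ_i (s i) - ∑_{j=1}^{p} χ_j (s j - φ)`, where `χ_p := τ^[p] ∘ χ ∘ τ^[0] = χ = χ_0` as `τ^[p] = id` (`τ^[p]` applied to `φ` also the identity), and `s p = nrm p τ φ = 0`,
`s 0 = 0`. Hence `τ ψ - ψ = χ_0 (s 0) - χ_p (s p) + ∑_{j=1}^{p} χ_j φ = ∑_{j=1}^{p} χ_j φ = ∑_{i<p} χ_i φ = φ`. -/
theorem acyc_abstract {X : Type} [AddCommGroup X] (p : ℕ) (hp : 0 < p) (τ : X →+ X)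
    (hτ : ∀ φ, τ^[p] φ = φ) (C : AddSubgroup X) (hτC : ∀ φ ∈ C, τ φ ∈ C)
    (χ : X →+ X) (hχC : ∀ φ ∈ C, χ φ ∈ C)
    (hχ : ∀ φ ∈ C, ∑ i ∈ Finset.range p, τ^[i] (χ (τ^[p - i] φ)) = φ) :
    (∀ φ ∈ C, τ φ = φ → ∃ ψ ∈ C, φ = nrm p τ ψ) ∧
      (∀ φ ∈ C, nrm p τ φ = 0 → ∃ ψ ∈ C, φ = τ ψ - ψ) := by
  have hitC : ∀ (n : ℕ), ∀ φ ∈ C, τ^[n] φ ∈ C := by
    intro n
    induction n with
    | zero => intro φ hφ; exact hφ
    | succ n ih =>
      intro φ hφ
      rw [Function.iterate_succ_apply']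
      exact hτC _ (ih φ hφ)
  refine ⟨fun φ hφ hfix => ⟨χ φ, hχC φ hφ, ?_⟩, fun φ hφ hnrm => ?_⟩
  · have h1 := hχ φ hφ
    unfold nrm
    rw [← h1]
    refine Finset.sum_congr rfl fun i _ => ?_
    rw [Function.iterate_fixed hfix, h1]
  · let s : ℕ → X := fun i => ∑ l ∈ Finset.range i, τ^[l] φ
    have hs0 : s 0 = 0 := Finset.sum_range_zero _
    have hsp : s p = 0 := hnrm
    have hsC : ∀ i, s i ∈ C := fun i => AddSubgroup.sum_mem C fun l _ => hitC l φ hφ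
    have hτs : ∀ i, τ (s i) = s (i + 1) - φ := by
      intro i
      show τ (∑ l ∈ Finset.range i, τ^[l] φ) = ∑ l ∈ Finset.range (i + 1), τ^[l] φ - φ
      rw [map_sum, Finset.sum_range_succ', Function.iterate_zero, id_eq, add_sub_cancel_right]
      refine Finset.sum_congr rfl fun l _ => ?_
      rw [Function.iterate_succ_apply']
    let A : ℕ → X := fun i => τ^[i] (χ (τ^[p - i] (s i)))
    let B : ℕ → X := fun i => τ^[i] (χ (τ^[p - i] φ))
    have hA0 : A 0 = 0 := by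
      show τ^[0] (χ (τ^[p - 0] (s 0))) = 0
      rw [hs0, iterate_map_zero, map_zero, iterate_map_zero]
    have hAp : A p = 0 := by
      show τ^[p] (χ (τ^[p - p] (s p))) = 0
      rw [hsp, iterate_map_zero, map_zero, iterate_map_zero]
    have hB0 : B 0 = χ φ := by
      show τ^[0] (χ (τ^[p - 0] φ)) = χ φ
      rw [Nat.sub_zero, hτ, Function.iterate_zero, id_eq]
    have hBp : B p = χ φ := by
      show τ^[p] (χ (τ^[p - p] φ)) = χ φ
      rw [Nat.sub_self, Function.iterate_zero, id_eq, hτ]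
    have hsB : ∑ i ∈ Finset.range p, B i = φ := hχ φ hφ
    have hsB1 : ∑ i ∈ Finset.range p, B (i + 1) = φ := by
      have h1 := Finset.sum_range_succ' B p
      rw [Finset.sum_range_succ, hsB, hBp, hB0] at h1
      exact (add_right_cancel h1).symm
    have hstep : ∀ i ∈ Finset.range p, τ (A i) = A (i + 1) - B (i + 1) := by
      intro i hi
      have hip : i < p := Finset.mem_range.1 hi
      show τ (τ^[i] (χ (τ^[p - i] (s i)))) =
        τ^[i + 1] (χ (τ^[p - (i + 1)] (s (i + 1)))) - τ^[i + 1] (χ (τ^[p - (i + 1)] φ))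
      have h1 : p - i = (p - (i + 1)) + 1 := by omega
      have h2 : τ^[p - i] (s i) = τ^[p - (i + 1)] (s (i + 1)) - τ^[p - (i + 1)] φ := by
        rw [h1, Function.iterate_succ_apply, hτs, iterate_map_sub]
      rw [h2, map_sub, iterate_map_sub, map_sub, ← Function.iterate_succ_apply' (⇑τ) i,
        ← Function.iterate_succ_apply' (⇑τ) i]
    refine ⟨-∑ i ∈ Finset.range p, A i, ?_, ?_⟩
    · refine AddSubgroup.neg_mem C (AddSubgroup.sum_mem C fun i _ => ?_)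
      exact hitC i _ (hχC _ (hitC _ _ (hsC i)))
    · rw [map_neg, map_sum, Finset.sum_congr rfl hstep, Finset.sum_sub_distrib, hsB1]
      have h2 := Finset.sum_range_succ' A p
      rw [Finset.sum_range_succ, hAp, hA0, add_zero, add_zero] at h2
      rw [← h2]
      abel

end Pool.Agent.H66Q
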