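import Pool.Agent.Lib.H66Q.Defs

set_option autoImplicit false
set_option linter.unusedVariables false
set_option linter.unusedSectionVars false

open scoped Pointwise

namespace Pool.Agent.H66Q

private theorem M4_stab {P X : Type} [Group P] [MulAction P X] (p : ℕ) [Fact p.Prime] (x : P) (hx : x ^ p = 1)
    (S : X) (d : ℕ) (hd0 : 0 < d) (hdp : d < p) (h : x ^ d • S = S) : x • S = S := by
  have h1 : x ^ d ∈ MulAction.stabilizer P S := h
  have hc : Nat.gcd d p = 1 := by
    rw [Nat.gcd_comm]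
    exact (Nat.Prime.coprime_iff_not_dvd Fact.out).2 fun hdvd => absurd (Nat.le_of_dvd hd0 hdvd) (by omega)
  have h2 : (1 : ℤ) = d * Nat.gcdA d p + p * Nat.gcdB d p := by
    rw [← Nat.gcd_eq_gcd_ab, hc]
    rfl
  have h3 : x = (x ^ d) ^ Nat.gcdA d p := by
    calc x = x ^ (1 : ℤ) := (zpow_one x).symm
      _ = x ^ ((d : ℤ) * Nat.gcdA d p + p * Nat.gcdB d p) := by rw [← h2]
      _ = (x ^ d) ^ Nat.gcdA d p := by
        rw [zpow_add, zpow_mul, zpow_mul, zpow_natCast, zpow_natCast, hx, one_zpow, mul_one]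
  have h4 : (x ^ d) ^ Nat.gcdA d p ∈ MulAction.stabilizer P S := Subgroup.zpow_mem _ h1 _
  rw [← h3] at h4
  exact h4

/-- Choice of representatives of the orbits of `x` on the finsets which contain no full orbit. Proof. For a nonempty finset `S` with `¬ orb p x v ⊆ S` for all `v`, the sets
`x ^ i • S`, `i < p`, are pairwise different: if `x ^ i • S = x ^ j • S` with `i < j < p` then `x ^ (j-i) • S = S`, and since `p` is prime `x` is a power of `x ^ (j-i)` (`x ^ p = 1`), so `x • S = S`, and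
for `v ∈ S` the whole orbit `orb p x v` is in `S`. Take the equivalence relation `S ~ S'` iff `∃ i : ℕ, S' = x ^ i • S` (or the orbit relation of `Subgroup.zpowers x`), choose a representative of
each class (`Quotient.out`) and let `χ S = 1` if `S` is the representative of its class, 0 otherwise. Then for `S` as above exactly one `i < p` has `(x ^ i)⁻¹ • S` = representative. -/
theorem exists_part {V : Type} [Fintype V] [LinearOrder V] {P : Type} [Group P] [MulAction P V] (p : ℕ) [Fact p.Prime]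
    (x : P) (hx : x ^ p = 1) :
    ∃ χ : Finset V → ℤ, ∀ S : Finset V, S.Nonempty → (∀ v : V, ¬ orb p x v ⊆ S) →
      ∑ i ∈ Finset.range p, χ ((x ^ i)⁻¹ • S) = 1 := by
  classical
  let r : Setoid (Finset V) := MulAction.orbitRel (Subgroup.zpowers x) (Finset V)
  let o : Finset V → Finset V := fun S => (Quotient.mk r S).out
  have hp0 : 0 < p := (Fact.out : p.Prime).pos
  have ho : ∀ (S : Finset V) (i : ℕ), o ((x ^ i)⁻¹ • S) = o S := by
    intro S i
    have h1 : Quotient.mk r ((x ^ i)⁻¹ • S) = Quotient.mk r S := by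
      refine Quotient.sound ?_
      refine ⟨⟨(x ^ i)⁻¹, Subgroup.inv_mem _ ⟨(i : ℤ), zpow_natCast x i⟩⟩, rfl⟩
    show (Quotient.mk r ((x ^ i)⁻¹ • S)).out = (Quotient.mk r S).out
    rw [h1]
  have hex : ∀ S : Finset V, ∃ i < p, (x ^ i)⁻¹ • S = o S := by
    intro S
    have h1 : r (o S) S := Quotient.exact (Quotient.out_eq (Quotient.mk r S))
    obtain ⟨⟨g, hg⟩, hgS⟩ := h1
    obtain ⟨k, hk⟩ := Subgroup.mem_zpowers_iff.1 hg
    have hpz : (p : ℤ) ≠ 0 := by exact_mod_cast hp0.ne'
    have h2 : 0 ≤ (-k) % (p : ℤ) := Int.emod_nonneg _ hpz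
    have h3 : (-k) % (p : ℤ) < p := Int.emod_lt_of_pos _ (by exact_mod_cast hp0)
    refine ⟨((-k) % (p : ℤ)).toNat, by omega, ?_⟩
    have h4 : (x ^ ((-k) % (p : ℤ)).toNat)⁻¹ = g := by
      rw [← zpow_natCast, Int.toNat_of_nonneg h2, ← zpow_neg, ← hk]
      have h5 : -((-k) % (p : ℤ)) = k + p * ((-k) / p) := by
        have := Int.emod_add_mul_ediv (-k) (p : ℤ)
        linarith
      rw [h5, zpow_add, zpow_mul, zpow_natCast, hx, one_zpow, mul_one]
    rw [h4]
    exact hgS
  refine ⟨fun S => if S = o S then 1 else 0, ?_⟩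
  intro S hS hfull
  have hns : x • S ≠ S := by
    intro h
    obtain ⟨v, hv⟩ := hS
    refine hfull v ?_
    intro w hw
    obtain ⟨i, -, rfl⟩ := Finset.mem_image.1 hw
    have h1 : ∀ i : ℕ, x ^ i • v ∈ S := by
      intro i
      induction i with
      | zero => simpa using hv
      | succ i ih =>
        rw [pow_succ', mul_smul, ← h]
        exact Finset.smul_mem_smul_finset ih
    exact h1 i
  obtain ⟨i₀, hi₀, hi₀S⟩ := hex S
  rw [Finset.sum_eq_single_of_mem i₀ (Finset.mem_range.2 hi₀)]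
  · show (if (x ^ i₀)⁻¹ • S = o ((x ^ i₀)⁻¹ • S) then (1 : ℤ) else 0) = 1
    rw [ho, if_pos hi₀S]
  · intro i hi hne
    show (if (x ^ i)⁻¹ • S = o ((x ^ i)⁻¹ • S) then (1 : ℤ) else 0) = 0
    rw [ho, if_neg]
    intro h
    have key : ∀ a b : ℕ, a < b → b < p → (x ^ a)⁻¹ • S = (x ^ b)⁻¹ • S → False := by
      intro a b hab hbp hab2
      refine hns (M4_stab p x hx S (b - a) (by omega) (by omega) ?_)
      have h1 : x ^ b • (x ^ a)⁻¹ • S = S := by
        rw [hab2, smul_inv_smul]
      rw [smul_smul] at h1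
      have h2 : x ^ (b - a) = x ^ b * (x ^ a)⁻¹ := pow_sub x hab.le
      rw [h2]
      exact h1
    have h' : (x ^ i)⁻¹ • S = (x ^ i₀)⁻¹ • S := h.trans hi₀S.symm
    have hi' := Finset.mem_range.1 hi
    rcases lt_or_gt_of_ne hne with hlt | hgt
    · exact key i i₀ hlt hi₀ h'
    · exact key i₀ i hgt hi' h'.symm

end Pool.Agent.H66Q
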