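import Pool.Agent.Lib.H66Q.M1
import Pool.Agent.Lib.H66Q.M3
import Pool.Agent.Lib.H66Q.M4

set_option autoImplicit false
set_option linter.unusedVariables false
set_option linter.unusedSectionVars false

open scoped Pointwise

namespace Pool.Agent.H66Q

/-- The cochains of degree `k` are stable under the signed action. (`KFB ∅ B` invariant, cardinality of `g⁻¹ • S`.) -/
theorem suppG_rho {p : ℕ} {E : Type} [Ring E] {P : Type} [Group P] [Fintype P] (S : Sys p E P)
    {V : Type} [LinearOrder V] [MulAction P V] (K : Finset V → Prop)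
    (hK : ∀ (g : P) (A : Finset V), K (g • A) ↔ K A) (k : ℕ) (g : P)
    (φ : Finset V → E) (hφ : φ ∈ suppG K k) : (fmod S V).r g φ ∈ suppG K k := by
  intro A hA
  change sg g (g⁻¹ • A) • S.act g (φ (g⁻¹ • A)) ≠ 0 at hA
  have h1 : φ (g⁻¹ • A) ≠ 0 := by
    intro h0
    apply hA
    rw [h0, map_zero, smul_zero]
  obtain ⟨h2, h3⟩ := hφ _ h1
  refine ⟨(hK g⁻¹ A).1 h2, ?_⟩
  rw [← h3, Finset.card_smul_finset]

theorem suppG_T {p : ℕ} {E : Type} [Ring E] {P : Type} [Group P] [Fintype P] (S : Sys p E P)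
    {V : Type} [LinearOrder V] [MulAction P V] (K : Finset V → Prop) (k : ℕ)
    (φ : Finset V → E) (hφ : φ ∈ suppG K k) : (fmod S V).T φ ∈ suppG K k := by
  intro A hA
  change S.t (φ A) ≠ 0 at hA
  exact hφ A fun h0 => hA (by rw [h0, map_zero])

theorem suppG_smul {E : Type} [Ring E] {V : Type} [LinearOrder V] (K : Finset V → Prop) (k : ℕ) (e : E)
    (φ : Finset V → E) (hφ : φ ∈ suppG K k) : e • φ ∈ suppG K k := by
  intro A hA
  change e * φ A ≠ 0 at hA
  exact hφ A fun h0 => hA (by rw [h0, mul_zero])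

private theorem M5_iter {p : ℕ} {E : Type} [Ring E] {P : Type} [Group P] [Fintype P]
    (S : Sys p E P) {V : Type} [LinearOrder V] [MulAction P V] (x : P) (i : ℕ)
    (φ : Finset V → E) :
    ((fmod S V).tau x)^[i] φ = fun A => (S.t ^ i) (rho S.act (x ^ i) φ A) := by
  induction i with
  | zero =>
    funext A
    rw [pow_zero, pow_zero, rho_one]
    rfl
  | succ i ih =>
    rw [Function.iterate_succ_apply', ih]
    funext A
    have h1 : rho S.act (x ^ (i + 1)) φ = rho S.act x (rho S.act (x ^ i) φ) := by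
      rw [pow_succ', rho_mul]
    rw [h1, rho_apply]
    change S.t (sg x (x⁻¹ • A) • S.act x ((S.t ^ i) (rho S.act (x ^ i) φ (x⁻¹ • A)))) = _
    rw [map_zsmul, map_zsmul]
    congr 1
    have h2 := congrArg (fun f : RingAut E => f (rho S.act (x ^ i) φ (x⁻¹ • A)))
      ((S.comm x).pow_right i).eq
    simp only [RingAut.mul_apply] at h2
    rw [h2, pow_succ', RingAut.mul_apply]

private theorem M5_mul {p : ℕ} {E : Type} [Ring E] {P : Type} [Group P] [Fintype P]
    (S : Sys p E P) {V : Type} [LinearOrder V] [MulAction P V] (x : P) (i : ℕ)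
    (c : Finset V → ℤ) (φ : Finset V → E) (A : Finset V) :
    (((fmod S V).tau x)^[i] (fun A => c A • φ A)) A =
      c ((x ^ i)⁻¹ • A) • (((fmod S V).tau x)^[i] φ) A := by
  rw [M5_iter, M5_iter]
  simp only [rho_apply]
  rw [map_zsmul (S.act (x ^ i)), smul_comm, map_zsmul]

/-- The cochains of degree `k ≥ 1` are acyclic for `τ = (fmod S V).tau x`. Proof: `acyc_abstract` with `χ φ = fun A => c A • φ A`, `c` from `exists_part`. By induction
`(τ^[i] φ) A = sg (x^i) ((x^i)⁻¹ • A) • (S.t ^ i) (S.act (x^i) (φ ((x^i)⁻¹ • A)))` (`τ^[i] = T^[i] ∘ r (x^i)` since `T` and `r x` commute), so for every function `c : Finset V → ℤ`: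
`τ^[i] (c φ) = (fun A => c ((x^i)⁻¹ • A)) τ^[i] φ`. So `∑_{i<p} τ^[i] (χ (τ^[p-i] φ))` at `A` is `(∑_{i<p} c ((x^i)⁻¹ • A)) • (τ^[p] φ) A = φ A` if `A` is in the support of `φ` (then `A` is nonempty because it has
`k ≥ 1` elements, and contains no full orbit by `hB`), and both sides are 0 if `φ A = 0`. `τ^[p] = id` from `x^p = 1`, `S.htp`. -/
theorem acyc {p : ℕ} [Fact p.Prime] {E : Type} [Ring E] {P : Type} [Group P] [Fintype P] (S : Sys p E P)
    {V : Type} [Fintype V] [LinearOrder V] [MulAction P V] (x : P) (hx : x ^ p = 1) (K : Finset V → Prop)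
    (hK : ∀ (g : P) (A : Finset V), K (g • A) ↔ K A)
    (hB : ∀ A : Finset V, K A → ∀ v : V, ¬ orb p x v ⊆ A) (k : ℕ) (hk : 1 ≤ k) :
    (∀ φ ∈ (suppG K k : AddSubgroup (Finset V → E)), (fmod S V).tau x φ = φ →
        ∃ ψ ∈ (suppG K k : AddSubgroup (Finset V → E)), φ = nrm p ((fmod S V).tau x) ψ) ∧
      (∀ φ ∈ (suppG K k : AddSubgroup (Finset V → E)), nrm p ((fmod S V).tau x) φ = 0 →
        ∃ ψ ∈ (suppG K k : AddSubgroup (Finset V → E)), φ = (fmod S V).tau x ψ - ψ) := by
  obtain ⟨c, hc⟩ := exists_part (V := V) p x hx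
  have hpp : 0 < p := (Fact.out : p.Prime).pos
  have hτ : ∀ φ : Finset V → E, ((fmod S V).tau x)^[p] φ = φ := by
    intro φ
    rw [M5_iter]
    funext A
    rw [S.htp, hx, rho_one]
    rfl
  refine acyc_abstract p hpp ((fmod S V).tau x) hτ (suppG K k) ?_
    { toFun := fun φ A => c A • φ A
      map_zero' := by funext A; simp
      map_add' := fun φ ψ => by funext A; simp } ?_ ?_
  · intro φ hφ
    exact suppG_T S K k _ (suppG_rho S K hK k x φ hφ)
  · intro φ hφ A hA
    change c A • φ A ≠ 0 at hA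
    exact hφ A fun h0 => hA (by rw [h0, smul_zero])
  · intro φ hφ
    funext A
    rw [Finset.sum_apply]
    have h1 : ∀ i ∈ Finset.range p,
        (((fmod S V).tau x)^[i] (fun A => c A • (((fmod S V).tau x)^[p - i] φ) A)) A =
          c ((x ^ i)⁻¹ • A) • φ A := by
      intro i hi
      rw [M5_mul, ← Function.iterate_add_apply,
        show i + (p - i) = p by have := Finset.mem_range.1 hi; omega, hτ]
    have h2 := Finset.sum_congr rfl h1
    refine h2.trans ?_
    rw [← Finset.sum_smul]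
    by_cases h0 : φ A = 0
    · rw [h0, smul_zero]
    · obtain ⟨hKA, hcard⟩ := hφ A h0
      have hne : A.Nonempty := by
        rw [← Finset.card_pos, hcard]
        omega
      rw [hc A hne (hB A hKA), one_smul]

end Pool.Agent.H66Q
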