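import Pool.Agent.Lib.H66Q.S2

set_option autoImplicit false
set_option linter.unusedVariables false
set_option linter.unusedSectionVars false

open scoped Pointwise

namespace Pool.Agent.H66Q

variable {V : Type} [Fintype V] [LinearOrder V] {E : Type} [Ring E]

/-- `Phi` is additive (induction on the list, `map_add` of `Dl O`). -/
theorem Phi_add (B : List (Finset V)) (φ ψ : Finset V → E) : Phi B (φ + ψ) = Phi B φ + Phi B ψ := by
  induction B generalizing φ ψ with
  | nil => rfl
  | cons O B ih =>
    show Phi B (Dl O (φ + ψ)) = Phi B (Dl O φ) + Phi B (Dl O ψ)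
    rw [map_add, ih]

theorem Phi_neg (B : List (Finset V)) (φ : Finset V → E) : Phi B (-φ) = - Phi B φ := by
  induction B generalizing φ with
  | nil => rfl
  | cons O B ih =>
    show Phi B (Dl O (-φ)) = - Phi B (Dl O φ)
    rw [map_neg, ih]

/-- `Phi` is `E`-linear. -/
theorem Phi_smul (B : List (Finset V)) (e : E) (φ : Finset V → E) : Phi B (e • φ) = e * Phi B φ := by
  induction B generalizing φ with
  | nil => rfl
  | cons O B ih =>
    show Phi B (Dl O (e • φ)) = e * Phi B (Dl O φ)
    rw [map_smul, ih]

/-- `Phi B φ` depends only on the values of `φ` at the sets with `KFB F B`, if `F` and the members of `B` form a partition of `V`.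
Induction on `B` (for all `F`). `B = []`: `F = univ` and `KFB univ [] univ`. `O :: B`: `Phi (O :: B) φ = Phi B (Dl O φ)`; apply the induction hypothesis with
`F ∪ O`: if `F ∪ O ⊆ S` and no member of `B` is contained in `S`, then `Dl O φ S` is the sum over `v ∈ O ∩ S` of
`eps v (S.erase v) • φ (S.erase v)` (`Dl_apply`), and `KFB F (O :: B) (S.erase v)` holds: `F ⊆ S.erase v` since `v ∉ F` (disjointness of `F` and `O`), `O` is not
contained in `S.erase v`, and a member `O'` of `B` is not contained in `S`, a fortiori not in `S.erase v`. -/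
theorem Phi_congr (B : List (Finset V)) : ∀ (F : Finset V) (hP : Part F B) (φ ψ : Finset V → E)
    (h : ∀ S, KFB F B S → φ S = ψ S), Phi B φ = Phi B ψ := by
  induction B with
  | nil =>
    intro F hP φ ψ h
    have hF : F = Finset.univ := hP
    show φ Finset.univ = ψ Finset.univ
    exact h _ ⟨Finset.subset_univ _, fun O hO => by simp at hO⟩
  | cons O B ih =>
    intro F hP φ ψ h
    obtain ⟨hne, hd, hP'⟩ := hP
    show Phi B (Dl O φ) = Phi B (Dl O ψ)
    refine ih (F ∪ O) hP' _ _ ?_
    intro S hS
    rw [Dl_apply, Dl_apply]
    refine Finset.sum_congr rfl fun v hv => ?_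
    rw [Finset.mem_inter] at hv
    have hK : KFB F (O :: B) (S.erase v) := by
      refine ⟨?_, ?_⟩
      · intro w hw
        rw [Finset.mem_erase]
        refine ⟨?_, hS.1 (Finset.mem_union_left _ hw)⟩
        rintro rfl
        exact Finset.disjoint_left.1 hd hw hv.1
      · intro O' hO'
        rcases List.mem_cons.1 hO' with rfl | hO'
        · intro hsub
          exact Finset.notMem_erase v S (hsub hv.1)
        · intro hsub
          exact hS.2 O' hO' (hsub.trans (Finset.erase_subset _ _))
    rw [h _ hK]

/-- A set which contains `F` and contains no member of `B` fully misses at least one element of each member of `B`.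
Induction on `B` for all `F`, generalised: for `O :: B` choose `v ∈ O`, `v ∉ S`. Simplest: show by induction on `B` that for `Part F B` and
`∀ O ∈ B, ¬ O ⊆ S` one has `(S ∩ Fᶜ).card + B.length ≤ (Fᶜ).card` (for `O :: B`, `Fᶜ = O ∪ (F ∪ O)ᶜ` disjointly,
`(S ∩ O).card + 1 ≤ O.card`). -/
theorem card_face (F : Finset V) (B : List (Finset V)) (hP : Part F B) (S : Finset V) (hS : KFB F B S) :
    S.card + B.length ≤ Fintype.card V := by
  have key : ∀ (B : List (Finset V)) (F : Finset V), Part F B → (∀ O ∈ B, ¬ O ⊆ S) →
      (S ∩ Fᶜ).card + B.length ≤ (Fᶜ).card := by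
    intro B
    induction B with
    | nil =>
      intro F hP h
      simpa using Finset.card_le_card (Finset.inter_subset_right : S ∩ Fᶜ ⊆ Fᶜ)
    | cons O B ih =>
      intro F hP h
      obtain ⟨hne, hd, hP'⟩ := hP
      have h1 := ih (F ∪ O) hP' (fun O' hO' => h O' (List.mem_cons_of_mem _ hO'))
      have h2 : ¬ O ⊆ S := h O List.mem_cons_self
      have hO : O ⊆ Fᶜ := by
        intro w hw
        rw [Finset.mem_compl]
        exact fun hF => Finset.disjoint_left.1 hd hF hw
      have e1 : Fᶜ = O ∪ (F ∪ O)ᶜ := by
        ext w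
        simp only [Finset.mem_compl, Finset.mem_union]
        constructor
        · intro hw
          by_cases hw2 : w ∈ O
          · exact Or.inl hw2
          · exact Or.inr (fun h3 => h3.elim hw hw2)
        · rintro (hw | hw)
          · exact Finset.mem_compl.1 (hO hw)
          · exact fun h3 => hw (Or.inl h3)
      have e2 : Disjoint O (F ∪ O)ᶜ := by
        rw [Finset.disjoint_left]
        intro w hw hw2
        exact Finset.mem_compl.1 hw2 (Finset.mem_union_right _ hw)
      have e3 : (Fᶜ).card = O.card + ((F ∪ O)ᶜ).card := by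
        conv_lhs => rw [e1]
        exact Finset.card_union_of_disjoint e2
      have e4 : S ∩ Fᶜ = (S ∩ O) ∪ (S ∩ (F ∪ O)ᶜ) := by
        conv_lhs => rw [e1]
        exact Finset.inter_union_distrib_left _ _ _
      have e5 : (S ∩ Fᶜ).card ≤ (S ∩ O).card + (S ∩ (F ∪ O)ᶜ).card := by
        rw [e4]
        exact Finset.card_union_le _ _
      have e6 : (S ∩ O).card < O.card := by
        refine Finset.card_lt_card ?_
        refine ⟨Finset.inter_subset_right, fun hsub => h2 (hsub.trans Finset.inter_subset_left)⟩
      rw [List.length_cons]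
      omega
  have h1 := key B F hP hS.2
  have h2 : S.card = (S ∩ F).card + (S ∩ Fᶜ).card := by
    rw [← Finset.card_union_of_disjoint]
    · rw [← Finset.inter_union_distrib_left, Finset.union_compl, Finset.inter_univ]
    · rw [Finset.disjoint_left]
      intro w hw hw2
      exact Finset.mem_compl.1 (Finset.mem_inter.1 hw2).2 (Finset.mem_inter.1 hw).2
  have h3 : (S ∩ F).card ≤ F.card := Finset.card_le_card Finset.inter_subset_right
  have h4 : F.card + (Fᶜ).card = Fintype.card V := Finset.card_add_card_compl F
  omega

end Pool.Agent.H66Q
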