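import Pool.Agent.Lib.H66Q.X1
import Pool.Agent.Lib.H66Q.X2

set_option autoImplicit false
set_option linter.unusedVariables false
set_option linter.unusedSectionVars false

open scoped Pointwise

namespace Pool.Agent.H66Q

variable {V : Type} [Fintype V] [LinearOrder V] {E : Type} [Ring E]

private theorem x3_pos (F : Finset V) (B : List (Finset V)) (φ : Finset V → E) (S : Finset V)
    (h : KFB F B S) : dK F B φ S = Dl Finset.univ φ S := by
  unfold dK
  rw [LinearMap.comp_apply, res_apply, if_pos h]

private theorem x3_neg (F : Finset V) (B : List (Finset V)) (φ : Finset V → E) (S : Finset V)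
    (h : ¬ KFB F B S) : dK F B φ S = 0 := by
  unfold dK
  rw [LinearMap.comp_apply, res_apply, if_neg h]

private theorem x3_res_pos (O : Finset V) (φ : Finset V → E) (S : Finset V)
    (h : ¬ O ⊆ S) : res (fun S => ¬ O ⊆ S) φ S = φ S := by
  rw [res_apply, if_pos h]

private theorem x3_res_neg (O : Finset V) (φ : Finset V → E) (S : Finset V)
    (h : O ⊆ S) : res (fun S => ¬ O ⊆ S) φ S = 0 := by
  rw [res_apply, if_neg (not_not.mpr h)]

private theorem x3_cons {F O : Finset V} {B : List (Finset V)} {S : Finset V} :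
    KFB F (O :: B) S ↔ KFB F B S ∧ ¬ O ⊆ S := by
  unfold KFB
  constructor
  · rintro ⟨h1, h2⟩
    exact ⟨⟨h1, fun O' hO' => h2 O' (List.mem_cons_of_mem _ hO')⟩, h2 O List.mem_cons_self⟩
  · rintro ⟨⟨h1, h2⟩, h3⟩
    refine ⟨h1, fun O' hO' => ?_⟩
    rcases List.mem_cons.mp hO' with h | h
    · rw [h]
      exact h3
    · exact h2 O' h

private theorem x3_ne (O : Finset V) (φ : Finset V → E) (S : Finset V) (h : Dl O φ S ≠ 0) :
    ∃ v ∈ S, φ (S.erase v) ≠ 0 := by
  by_contra hcon
  push Not at hcon
  apply h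
  rw [Dl_apply]
  refine Finset.sum_eq_zero fun v hv => ?_
  rw [hcon v (Finset.mem_inter.mp hv).2, smul_zero]

private theorem x3_congr (O : Finset V) (φ ψ : Finset V → E) (S : Finset V)
    (h : ∀ v ∈ S, φ (S.erase v) = ψ (S.erase v)) : Dl O φ S = Dl O ψ S := by
  rw [Dl_apply, Dl_apply]
  refine Finset.sum_congr rfl fun v hv => ?_
  rw [h v (Finset.mem_inter.mp hv).2]

private theorem x3_part (B : List (Finset V)) : ∀ (F : Finset V) (hP : Part F B),
    ∀ O ∈ B, Disjoint F O := by
  induction B with
  | nil =>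
    intro F hP O hO
    exact absurd hO List.not_mem_nil
  | cons A B ih =>
    intro F hP O hO
    obtain ⟨h1, h2, h3⟩ := hP
    rcases List.mem_cons.mp hO with h | h
    · rw [h]
      exact h2
    · exact (Finset.disjoint_union_left.mp (ih (F ∪ A) h3 O h)).1

/-- EXACTNESS. Let `F` and the members of the list `B` form a partition of `V`. A function `φ` supported on the sets `S` of `KFB F B` with `k` elements with
`dK F B φ = 0` is a boundary, provided that `Phi B φ = 0` in the top degree `k + B.length = card V`.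
Induction on `B`, for all `F`, `k`, `φ`. `D = Dl univ`.
`B = []`: `F = univ`, `φ` is supported on `univ` only. If `k ≠ card V` then `φ = 0`, take `ψ = 0`. If `k = card V` then `Phi [] φ = φ univ = 0`, so `φ = 0`.
`O :: B`: put `χ = dK F B φ` (note: the list `B`, without `O`).
(1) For `S` with `KFB F (O :: B) S` we have `χ S = D φ S = dK F (O :: B) φ S = 0`. So `χ S ≠ 0` implies `F ⊆ S`, no member of `B` in `S`, and `O ⊆ S`: `KFB (F ∪ O) B S`;
moreover `S.card = k + 1` (`Dl_apply`: some `φ (S.erase v) ≠ 0`).
(2) `dK (F ∪ O) B χ = 0`: at `S` with `KFB (F ∪ O) B S`, `D χ S = D (D φ) S = 0` (`Dl_self`), because `χ (S.erase v) = D φ (S.erase v)` for every `v ∈ S`: if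
`v ∉ F` then `KFB F B (S.erase v)`, and if `v ∈ F` then both are 0 (`D φ (S.erase v)` involves only values of `φ` at sets which do not contain `v ∈ F`, and
`χ (S.erase v) = 0` since `F` is not contained in `S.erase v`).
(3) If `k + (B.length + 1) = card V`, then `Phi B χ = Phi B (Dl O φ) = Phi (O :: B) φ = 0` by `Phi_congr` for `F ∪ O`: for `KFB (F ∪ O) B S`, `χ S = D φ S` is the sum over `v ∈ S` of
`eps v (S.erase v) • φ (S.erase v)`, and `φ (S.erase v) ≠ 0` implies that `O` is not contained in `S.erase v`, so `v ∈ O` (as `O ⊆ S`): `χ S = Dl O φ S`.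
(4) Induction hypothesis for `F ∪ O`, `k + 1`, `χ`: there is `χ'`, supported on the sets of `KFB (F ∪ O) B` with `k` elements, `dK (F ∪ O) B χ' = χ`. Also `dK F B χ' = χ`: if `KFB F B S` but
not `O ⊆ S`, or in general `dK F B χ' S ≠ 0`, then some `χ' (S.erase v) ≠ 0`, so `F ∪ O ⊆ S.erase v ⊆ S`.
(5) `φ - χ'` is supported on the sets of `KFB F B` with `k` elements and `dK F B (φ - χ') = 0`. `O` is nonempty: choose `v0 ∈ O`; `v0 ∉ F` and `v0` is in no member of `B` (from `Part`).
By `cone`, `φ - χ' = dK F B ρ` with `ρ` supported on the sets of `KFB F B` with `S.card + 1 = k`.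
(6) `ψ = res (fun S => ¬ O ⊆ S) ρ`. Support clear. At `S` with `KFB F (O :: B) S`: all `S.erase v` do not contain `O`, so `dK F (O :: B) ψ S = D ρ S = dK F B ρ S = φ S - χ' S = φ S`
(`χ' S = 0` as `O` is not in `S`). At the other `S` both sides are 0. -/
theorem exact (B : List (Finset V)) : ∀ (F : Finset V) (hP : Part F B) (k : ℕ) (φ : Finset V → E)
    (hφ : Supp (KFB F B) k φ) (hd : dK F B φ = 0)
    (hk : k + B.length = Fintype.card V → Phi B φ = 0),
    ∃ ψ : Finset V → E, (∀ S, ψ S ≠ 0 → KFB F B S ∧ S.card + 1 = k) ∧ dK F B ψ = φ := by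
  induction B with
  | nil =>
    intro F hP k φ hφ hd hk
    have hF : F = Finset.univ := hP
    have h0 : φ = 0 := by
      funext S
      by_contra hne
      have h1 := hφ S hne
      have h2 : S = Finset.univ := by
        have h3 := h1.1.1
        rw [hF] at h3
        exact Finset.univ_subset_iff.mp h3
      have h3 : k + ([] : List (Finset V)).length = Fintype.card V := by
        rw [← h1.2, h2, Finset.card_univ, List.length_nil, add_zero]
      have h4 := hk h3
      apply hne
      rw [h2]
      exact h4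
    refine ⟨0, fun S hS => absurd rfl hS, ?_⟩
    rw [map_zero, h0]
  | cons O B ih =>
    intro F hP k φ hφ hd hk
    obtain ⟨hO, hFO, hP'⟩ := hP
    -- step 1
    have h1 : ∀ S, dK F B φ S ≠ 0 → KFB (F ∪ O) B S ∧ S.card = k + 1 := by
      intro S hS
      have hK : KFB F B S := by
        by_contra hcon
        exact hS (x3_neg F B φ S hcon)
      have hOS : O ⊆ S := by
        by_contra hcon
        have hK' : KFB F (O :: B) S := x3_cons.mpr ⟨hK, hcon⟩
        apply hS
        rw [x3_pos F B φ S hK, ← x3_pos F (O :: B) φ S hK', hd]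
        rfl
      refine ⟨⟨Finset.union_subset hK.1 hOS, hK.2⟩, ?_⟩
      rw [x3_pos F B φ S hK] at hS
      obtain ⟨v, hv, hne⟩ := x3_ne _ φ S hS
      have hc := (hφ _ hne).2
      rw [Finset.card_erase_of_mem hv] at hc
      have hpos : 0 < S.card := Finset.card_pos.mpr ⟨v, hv⟩
      omega
    -- step 2
    have h2 : dK (F ∪ O) B (dK F B φ) = 0 := by
      funext S
      by_cases hK : KFB (F ∪ O) B S
      · rw [x3_pos _ _ _ _ hK]
        have h3 : Dl Finset.univ (dK F B φ) S = Dl Finset.univ (Dl Finset.univ φ) S := by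
          refine x3_congr _ _ _ S fun v hv => ?_
          by_cases hvF : v ∈ F
          · have hnK : ¬ KFB F B (S.erase v) := fun hcon =>
              Finset.notMem_erase v S (hcon.1 hvF)
            rw [x3_neg _ _ _ _ hnK]
            by_contra hcon
            obtain ⟨w, hw, hne⟩ := x3_ne _ φ (S.erase v) (Ne.symm hcon)
            have h4 := (hφ _ hne).1.1 hvF
            exact Finset.notMem_erase v S (Finset.mem_of_mem_erase h4)
          · refine x3_pos _ _ _ _ ⟨fun u hu => ?_, fun O' hO' hsub => ?_⟩
            · refine Finset.mem_erase.mpr ⟨fun h => hvF (h ▸ hu), ?_⟩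
              exact hK.1 (Finset.mem_union_left _ hu)
            · exact hK.2 O' hO' (hsub.trans (Finset.erase_subset _ _))
        rw [h3]
        have h4 := congrArg (fun f => f φ S) (Dl_self (E := E) (Finset.univ : Finset V))
        simpa using h4
      · rw [x3_neg _ _ _ _ hK]
        rfl
    -- step 3
    have h3 : (k + 1) + B.length = Fintype.card V → Phi B (dK F B φ) = 0 := by
      intro hk'
      have hk2 : Phi (O :: B) φ = 0 := hk (by rw [List.length_cons]; omega)
      have h4 : Phi B (dK F B φ) = Phi B (Dl O φ) := by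
        refine Phi_congr B (F ∪ O) hP' _ _ fun S hS => ?_
        have hK : KFB F B S := ⟨Finset.union_subset_left hS.1, hS.2⟩
        rw [x3_pos _ _ _ _ hK, Dl_apply, Dl_apply]
        symm
        refine Finset.sum_subset (fun v hv => ?_) fun v hv hv' => ?_
        · rw [Finset.mem_inter] at hv ⊢
          exact ⟨Finset.mem_univ _, hv.2⟩
        · rw [Finset.mem_inter] at hv hv'
          have hvO : v ∉ O := fun h => hv' ⟨h, hv.2⟩
          have h5 : φ (S.erase v) = 0 := by
            by_contra hcon
            refine (x3_cons.mp (hφ _ hcon).1).2 fun u hu => ?_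
            refine Finset.mem_erase.mpr ⟨fun h => hvO (h ▸ hu), ?_⟩
            exact hS.1 (Finset.mem_union_right _ hu)
          rw [h5, smul_zero]
      rw [h4]
      exact hk2
    -- step 4
    obtain ⟨χ', hχ', hdχ'⟩ := ih (F ∪ O) hP' (k + 1) (dK F B φ) h1 h2 h3
    have h4 : dK F B χ' = dK F B φ := by
      funext S
      by_cases hK : KFB F B S
      · by_cases hOS : O ⊆ S
        · have hK' : KFB (F ∪ O) B S := ⟨Finset.union_subset hK.1 hOS, hK.2⟩
          rw [x3_pos _ _ _ _ hK, ← x3_pos _ _ _ _ hK', hdχ']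
        · have h5 : dK F B φ S = 0 := by
            by_contra hcon
            exact hOS ((Finset.union_subset_right (h1 S hcon).1.1))
          rw [h5, x3_pos _ _ _ _ hK]
          by_contra hcon
          obtain ⟨w, hw, hne⟩ := x3_ne _ χ' S hcon
          exact hOS ((Finset.union_subset_right (hχ' _ hne).1.1).trans (Finset.erase_subset _ _))
      · rw [x3_neg _ _ _ _ hK, x3_neg _ _ _ _ hK]
    -- step 5
    obtain ⟨v0, hv0⟩ := hO
    have hv0F : v0 ∉ F := fun h => (Finset.disjoint_left.mp hFO h) hv0
    have hv0B : ∀ O' ∈ B, v0 ∉ O' := fun O' hO' h =>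
      (Finset.disjoint_left.mp (x3_part B (F ∪ O) hP' O' hO') (Finset.mem_union_right _ hv0)) h
    obtain ⟨ρ, hρ, hdρ⟩ := cone F B v0 hv0F hv0B k (φ - χ') (by
      intro S hS
      by_cases hφS : φ S = 0
      · have hne : χ' S ≠ 0 := by
          intro h
          apply hS
          rw [Pi.sub_apply, hφS, h, sub_zero]
        have h5 := hχ' S hne
        exact ⟨⟨Finset.union_subset_left h5.1.1, h5.1.2⟩, by omega⟩
      · have h5 := hφ S hφS
        exact ⟨(x3_cons.mp h5.1).1, h5.2⟩) (by rw [map_sub, h4, sub_self])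
    -- step 6
    refine ⟨res (fun S => ¬ O ⊆ S) ρ, fun S hS => ?_, ?_⟩
    · by_cases hOS : O ⊆ S
      · exact absurd (x3_res_neg O ρ S hOS) hS
      · rw [x3_res_pos O ρ S hOS] at hS
        exact ⟨x3_cons.mpr ⟨(hρ S hS).1, hOS⟩, (hρ S hS).2⟩
    · funext S
      by_cases hK : KFB F (O :: B) S
      · obtain ⟨hK1, hOS⟩ := x3_cons.mp hK
        rw [x3_pos _ _ _ _ hK]
        have h5 : Dl Finset.univ (res (fun S => ¬ O ⊆ S) ρ) S = Dl Finset.univ ρ S := by
          refine x3_congr _ _ _ S fun v hv => ?_
          exact x3_res_pos O ρ _ fun h => hOS (h.trans (Finset.erase_subset _ _))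
        rw [h5, ← x3_pos F B ρ S hK1, hdρ, Pi.sub_apply]
        have h6 : χ' S = 0 := by
          by_contra hcon
          exact hOS (Finset.union_subset_right (hχ' S hcon).1.1)
        rw [h6, sub_zero]
      · rw [x3_neg _ _ _ _ hK]
        by_contra hcon
        exact hK (hφ S (Ne.symm hcon)).1

end Pool.Agent.H66Q
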