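import Pool.Agent.Lib.H66Q.X2

set_option autoImplicit false
set_option linter.unusedVariables false
set_option linter.unusedSectionVars false

open scoped Pointwise

namespace Pool.Agent.H66Q

variable {V : Type} [Fintype V] [LinearOrder V] {E : Type} [Ring E]

/-- `Phi B` is onto on the functions of top degree. Induction on `B` for all `F`. `B = []`: `φ = a` at `univ`, 0 elsewhere. `O :: B`: by induction there is `ψ` for `F ∪ O`, `B`
with `Phi B ψ = a`. Choose `v0 ∈ O` and put `φ = con v0 ψ`. Support: `φ S ≠ 0` implies `v0 ∉ S` and `ψ (insert v0 S) ≠ 0`, so `F ∪ O ⊆ insert v0 S`, hence `F ⊆ S` (`v0 ∉ F`), `O` is not contained in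
`S` (`v0`), no member of `B` is contained in `S`, and `S.card + 1 + B.length = card V`. Value: `Phi (O :: B) φ = Phi B (Dl O φ) = Phi B ψ` by `Phi_congr` with `F ∪ O`: for `F ∪ O ⊆ S`,
`Dl O (con v0 ψ) S` is the sum over `v ∈ O ∩ S` of `eps v (S.erase v) • con v0 ψ (S.erase v)`; the term is 0 unless `v0 ∉ S.erase v`, that is `v = v0`, and the term `v = v0` is
`eps v0 (S.erase v0) * eps v0 (S.erase v0) • ψ S = ψ S` (`eps_mul_self`). -/
theorem Phi_surj (B : List (Finset V)) : ∀ (F : Finset V) (hP : Part F B) (a : E),
    ∃ φ : Finset V → E, (∀ S, φ S ≠ 0 → KFB F B S ∧ S.card + B.length = Fintype.card V) ∧ Phi B φ = a := by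
  induction B with
  | nil =>
    intro F hP a
    have hF : F = Finset.univ := hP
    refine ⟨fun S => if S = Finset.univ then a else 0, ?_, ?_⟩
    · intro S hS
      have hSu : S = Finset.univ := by
        by_contra hne
        exact hS (if_neg hne)
      subst hSu
      refine ⟨⟨by simp, ?_⟩, ?_⟩
      · intro O hO
        simp at hO
      · simp
    · change (if (Finset.univ : Finset V) = Finset.univ then a else 0) = a
      rw [if_pos rfl]
  | cons O B ih =>
    intro F hP a
    obtain ⟨hO, hFO, hP'⟩ : O.Nonempty ∧ Disjoint F O ∧ Part (F ∪ O) B := hP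
    obtain ⟨ψ, hψ1, hψ2⟩ := ih (F ∪ O) hP' a
    obtain ⟨v0, hv0⟩ := hO
    have hv0F : v0 ∉ F := fun hh => Finset.disjoint_left.mp hFO hh hv0
    refine ⟨con v0 ψ, ?_, ?_⟩
    · intro S hS
      rw [con_apply] at hS
      have hv0S : v0 ∉ S := by
        intro hh
        exact hS (if_pos hh)
      rw [if_neg hv0S] at hS
      have hψS : ψ (insert v0 S) ≠ 0 := by
        intro hh
        rw [hh, smul_zero] at hS
        exact hS rfl
      obtain ⟨⟨h1, h2⟩, h3⟩ := hψ1 _ hψS
      refine ⟨⟨?_, ?_⟩, ?_⟩
      · intro x hx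
        rcases Finset.mem_insert.mp (h1 (Finset.mem_union_left O hx)) with hh | hh
        · exact absurd (hh ▸ hx) hv0F
        · exact hh
      · intro O' hO'
        rcases List.mem_cons.mp hO' with hh | hh
        · subst hh
          intro hsub
          exact hv0S (hsub hv0)
        · intro hsub
          exact h2 O' hh (hsub.trans (Finset.subset_insert v0 S))
      · rw [Finset.card_insert_of_notMem hv0S] at h3
        rw [List.length_cons]
        omega
    · have e1 : Phi (O :: B) (con v0 ψ) = Phi B (Dl O (con v0 ψ)) := rfl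
      rw [e1, ← hψ2]
      refine Phi_congr B (F ∪ O) hP' _ _ ?_
      intro S hS
      have hOS : O ⊆ S := fun x hx => hS.1 (Finset.mem_union_right F hx)
      rw [Dl_apply, Finset.inter_eq_left.mpr hOS, Finset.sum_eq_single v0]
      · rw [con_apply, if_neg (Finset.notMem_erase v0 S), smul_smul, eps_mul_self, one_smul,
          Finset.insert_erase (hOS hv0)]
      · intro v hv hne
        rw [con_apply, if_pos (Finset.mem_erase.mpr ⟨hne.symm, hOS hv0⟩), smul_zero]
      · intro hh
        exact absurd hv0 hh

end Pool.Agent.H66Q
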