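import Pool.Agent.Lib.H66Q.X2

set_option autoImplicit false
set_option linter.unusedVariables false
set_option linter.unusedSectionVars false

open scoped Pointwise

namespace Pool.Agent.H66Q

variable {V : Type} [Fintype V] [LinearOrder V] {E : Type} [Ring E]

private theorem X5_Dl_empty (φ : Finset V → E) : Dl (∅ : Finset V) φ = 0 := by
  simp [Dl]

private theorem X5_Phi_zero (B : List (Finset V)) : Phi B (0 : Finset V → E) = 0 := by
  have h := Phi_add B (0 : Finset V → E) 0
  rw [add_zero] at h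
  have h2 : Phi B (0 : Finset V → E) + 0 = Phi B (0 : Finset V → E) + Phi B (0 : Finset V → E) := by
    rw [add_zero]; exact h
  exact (add_left_cancel h2).symm

private theorem X5_Dl_self (O : Finset V) (φ : Finset V → E) : Dl O (Dl O φ) = 0 := by
  have h := congrArg (fun f : (Finset V → E) →ₗ[E] (Finset V → E) => f φ) (Dl_self (E := E) O)
  simpa using h

private theorem X5_Dl_anti (O O' : Finset V) (φ : Finset V → E) :
    Dl O (Dl O' φ) = - Dl O' (Dl O φ) := by
  have h := congrArg (fun f : (Finset V → E) →ₗ[E] (Finset V → E) => f φ) (Dl_anti (E := E) O O')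
  simpa using h

/-- Auxiliary: `Phi B (Dl Fᶜ φ) = 0` for every `φ`, if `F` and the members of `B` form a partition of `V`. Induction on `B` for all `F`, `φ`. `B = []`: `Fᶜ = ∅` and `Dl ∅ = 0`,
`Phi [] 0 = 0`. `O :: B`: `Fᶜ = O ∪ (F ∪ O)ᶜ` (disjoint), `Dl Fᶜ = Dl O + Dl (F ∪ O)ᶜ` (`Dl_union`). `Phi (O :: B) (Dl Fᶜ φ) = Phi B (Dl O (Dl O φ) + Dl O (Dl (F ∪ O)ᶜ φ))`
`= Phi B (0 - Dl (F ∪ O)ᶜ (Dl O φ)) = - 0` by `Dl_self`, `Dl_anti`, `Phi_neg` and the induction hypothesis (for `F ∪ O` and `Dl O φ`). -/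
theorem Phi_Dl_compl (B : List (Finset V)) : ∀ (F : Finset V) (hP : Part F B) (φ : Finset V → E),
    Phi B (Dl Fᶜ φ) = 0 := by
  induction B with
  | nil =>
    intro F hP φ
    have hF : F = Finset.univ := hP
    subst hF
    have : (Finset.univ : Finset V)ᶜ = ∅ := by simp
    rw [this, X5_Dl_empty]
    rfl
  | cons O B ih =>
    intro F hP φ
    obtain ⟨hO, hFO, hP'⟩ := hP
    have hU : Fᶜ = O ∪ (F ∪ O)ᶜ := by
      ext v
      simp only [Finset.mem_compl, Finset.mem_union]
      constructor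
      · intro h
        by_cases hv : v ∈ O
        · exact Or.inl hv
        · right; rintro (h' | h')
          · exact h h'
          · exact hv h'
      · rintro (h | h)
        · intro h'
          exact Finset.disjoint_left.mp hFO h' h
        · intro h'; exact h (Or.inl h')
    have hD : Disjoint O (F ∪ O)ᶜ := by
      rw [Finset.disjoint_left]
      intro v hv hv'
      exact (Finset.mem_compl.mp hv') (Finset.mem_union_right _ hv)
    change Phi B (Dl O (Dl Fᶜ φ)) = 0
    have h1 : Dl Fᶜ φ = Dl O φ + Dl (F ∪ O)ᶜ φ := by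
      rw [hU, Dl_union hD]
      rfl
    rw [h1, map_add, X5_Dl_self, zero_add, X5_Dl_anti, Phi_neg, ih (F ∪ O) hP' (Dl O φ), neg_zero]

/-- `Phi` vanishes on boundaries. `Phi B (dK ∅ B φ) = Phi B (Dl univ φ)` by `Phi_congr` (`dK ∅ B φ S = Dl univ φ S` for `KFB ∅ B S`), and `univ = ∅ᶜ`: `Phi_Dl_compl` with `F = ∅`. -/
theorem Phi_dK (B : List (Finset V)) (hP : Part ∅ B) (φ : Finset V → E) : Phi B (dK ∅ B φ) = 0 := by
  have h := Phi_Dl_compl B ∅ hP φ
  rw [Finset.compl_empty] at h
  rw [← h]
  refine Phi_congr B ∅ hP _ _ ?_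
  intro S hS
  change res (KFB ∅ B) (Dl Finset.univ φ) S = _
  rw [res_apply, if_pos hS]

/-- `dK ∅ B` has square 0 on all functions: at `S` with `KFB ∅ B S` all `S.erase v` also have `KFB ∅ B` (subsets of `S`), so
`dK ∅ B (dK ∅ B φ) S = Dl univ (Dl univ φ) S = 0` (`Dl_self`, `Dl_apply`); at other `S` it is 0. -/
theorem dK_dK (B : List (Finset V)) (φ : Finset V → E) : dK ∅ B (dK ∅ B φ) = 0 := by
  funext S
  change res (KFB ∅ B) (Dl Finset.univ (dK ∅ B φ)) S = 0
  rw [res_apply]
  split_ifs with hS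
  · have h0 : Dl Finset.univ (Dl Finset.univ φ) S = 0 := by
      rw [X5_Dl_self]; rfl
    rw [← h0, Dl_apply, Dl_apply]
    refine Finset.sum_congr rfl ?_
    intro v hv
    have hK : KFB ∅ B (S.erase v) := by
      refine ⟨Finset.empty_subset _, ?_⟩
      intro O hO hsub
      exact hS.2 O hO (hsub.trans (Finset.erase_subset _ _))
    have h1 : dK ∅ B φ (S.erase v) = Dl Finset.univ φ (S.erase v) := by
      change res (KFB ∅ B) (Dl Finset.univ φ) (S.erase v) = _
      rw [res_apply, if_pos hK]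
    rw [h1]
  · rfl

/-- `dK ∅ B` maps functions supported on sets with `k` elements to functions supported on sets with `k + 1` elements. -/
theorem dK_supp (B : List (Finset V)) (k : ℕ) (φ : Finset V → E) (hφ : Supp (KFB ∅ B) k φ) :
    Supp (KFB ∅ B) (k + 1) (dK ∅ B φ) := by
  intro S hS
  have hS' : res (KFB ∅ B) (Dl Finset.univ φ) S ≠ 0 := hS
  rw [res_apply] at hS'
  split_ifs at hS' with hK
  · refine ⟨hK, ?_⟩
    rw [Dl_apply] at hS'
    obtain ⟨v, hv, hne⟩ := Finset.exists_ne_zero_of_sum_ne_zero hS'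
    have hv2 : v ∈ S := (Finset.mem_inter.mp hv).2
    have hne2 : φ (S.erase v) ≠ 0 := by
      intro h
      apply hne
      rw [h, smul_zero]
    have := (hφ _ hne2).2
    rw [← this]
    exact (Finset.card_erase_add_one hv2).symm
  · exact absurd rfl hS'

/-- In the top degree every function is a cycle: if `k + B.length = card V`, a set `S` in the support of `dK ∅ B φ` would have `k + 1` elements (`dK_supp`), against `card_face`. -/
theorem dK_top (B : List (Finset V)) (hP : Part ∅ B) (k : ℕ) (hk : k + B.length = Fintype.card V)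
    (φ : Finset V → E) (hφ : Supp (KFB ∅ B) k φ) : dK ∅ B φ = 0 := by
  funext S
  by_contra hS
  have h1 := dK_supp B k φ hφ S hS
  have h2 := card_face ∅ B hP S h1.1
  have h3 := h1.2
  omega

end Pool.Agent.H66Q
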