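import Pool.Agent.Lib.H66Q.Defs

set_option autoImplicit false
set_option linter.unusedVariables false
set_option linter.unusedSectionVars false

open scoped Pointwise

namespace Pool.Agent.H66Q

variable {V : Type} [LinearOrder V] {P : Type} [Group P] [MulAction P V]

/-- The identity which makes the signed action work: for `v ∉ S`,
`sg g (insert v S) = sg g S * eps v S * eps (g • v) (g • S)`.
Proof. The pairs `a < b` in `insert v S` are the pairs in `S`, the pairs `(v, w)` with `w ∈ S`, `v < w`, and the pairs `(w, v)` with `w ∈ S`, `w < v`.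
So `sg g (insert v S) = sg g S * ∏ w ∈ S, c w` with `c w = if g • w < g • v then -1 else 1` for `v < w` and
`c w = if g • v < g • w then -1 else 1` for `w < v`. On the other side `eps v S = ∏ w ∈ S, (if w < v then -1 else 1)`
(`Finset.prod_ite`, `Finset.prod_const`) and `eps (g • v) (g • S) = ∏ w ∈ S, (if g • w < g • v then -1 else 1)` (image under the injective map
`g • ·`). Compare factor by factor, using `w ≠ v` and `g • w ≠ g • v` (linear order: exactly one of `<`, `>` holds). -/
theorem sg_insert (g : P) {v : V} {S : Finset V} (hv : v ∉ S) :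
    sg g (insert v S) = sg g S * eps v S * eps (g • v) (g • S) := by
  have e1 : eps v S = ∏ w ∈ S, (if w < v then (-1 : ℤ) else 1) := by
    unfold eps
    rw [Finset.prod_ite, Finset.prod_const, Finset.prod_const_one, mul_one]
  have e2 : eps (g • v) (g • S) = ∏ w ∈ S, (if g • w < g • v then (-1 : ℤ) else 1) := by
    unfold eps
    have h1 : (g • S).filter (fun w => w < g • v) = (S.filter (fun w => g • w < g • v)).image (fun w => g • w) := by
      ext a
      simp only [Finset.mem_filter, Finset.mem_image, Finset.mem_smul_finset]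
      constructor
      · rintro ⟨⟨b, hb, rfl⟩, hlt⟩
        exact ⟨b, ⟨hb, hlt⟩, rfl⟩
      · rintro ⟨b, ⟨hb, hlt⟩, rfl⟩
        exact ⟨⟨b, hb, rfl⟩, hlt⟩
    rw [h1, Finset.card_image_of_injective _ (MulAction.injective g), Finset.prod_ite,
      Finset.prod_const, Finset.prod_const_one, mul_one]
  have e3 : sg g (insert v S) = (∏ w ∈ S.filter (fun w => v < w), (if g • w < g • v then (-1 : ℤ) else 1))
      * ∏ a ∈ S, ((if a < v then (if g • v < g • a then (-1 : ℤ) else 1) else 1)
        * ∏ w ∈ S.filter (fun w => a < w), (if g • w < g • a then (-1 : ℤ) else 1)) := by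
    unfold sg
    rw [Finset.prod_insert hv]
    congr 1
    · rw [Finset.filter_insert, if_neg (lt_irrefl v)]
    · refine Finset.prod_congr rfl (fun a ha => ?_)
      rw [Finset.filter_insert]
      by_cases hav : a < v
      · rw [if_pos hav, if_pos hav, Finset.prod_insert]
        intro hh
        exact hv (Finset.mem_filter.mp hh).1
      · rw [if_neg hav, if_neg hav, one_mul]
  rw [e3, Finset.prod_mul_distrib, e1, e2, Finset.prod_filter]
  have e4 : sg g S = ∏ a ∈ S, ∏ w ∈ S.filter (fun w => a < w), (if g • w < g • a then (-1 : ℤ) else 1) := rfl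
  rw [e4]
  have e5 : (∏ a ∈ S, (if v < a then (if g • a < g • v then (-1 : ℤ) else 1) else 1))
      * (∏ a ∈ S, (if a < v then (if g • v < g • a then (-1 : ℤ) else 1) else 1))
      = (∏ w ∈ S, (if w < v then (-1 : ℤ) else 1)) * (∏ w ∈ S, (if g • w < g • v then (-1 : ℤ) else 1)) := by
    rw [← Finset.prod_mul_distrib, ← Finset.prod_mul_distrib]
    refine Finset.prod_congr rfl (fun a ha => ?_)
    have hav : a ≠ v := fun hh => hv (hh ▸ ha)
    have hgav : g • a ≠ g • v := fun hh => hav (MulAction.injective g hh)
    rcases lt_or_gt_of_ne hav with h1 | h1 <;> rcases lt_or_gt_of_ne hgav with h2 | h2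
    · rw [if_neg (not_lt_of_gt h1), if_pos h1, if_neg (not_lt_of_gt h2), if_pos h1, if_pos h2]
      norm_num
    · rw [if_neg (not_lt_of_gt h1), if_pos h1, if_pos h2, if_pos h1, if_neg (not_lt_of_gt h2)]
      norm_num
    · rw [if_pos h1, if_pos h2, if_neg (not_lt_of_gt h1), if_neg (not_lt_of_gt h1)]
      norm_num
    · rw [if_pos h1, if_neg (not_lt_of_gt h2), if_neg (not_lt_of_gt h1), if_neg (not_lt_of_gt h1)]
  rw [mul_assoc (∏ a ∈ S, _), ← e5]
  ring

end Pool.Agent.H66Q
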