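import Pool.Agent.Lib.H66Q.S1
import Pool.Agent.Lib.H66Q.S3

set_option autoImplicit false
set_option linter.unusedVariables false
set_option linter.unusedSectionVars false

open scoped Pointwise

namespace Pool.Agent.H66Q

variable {V : Type} [LinearOrder V] {P : Type} [Group P] [MulAction P V] {E : Type} [Ring E]

/-- `sg` is a product of signs. -/
theorem sg_mul_self (g : P) (S : Finset V) : sg g S * sg g S = 1 := by
  rw [sg, ← Finset.prod_mul_distrib]
  refine Finset.prod_eq_one fun v _ => ?_
  rw [← Finset.prod_mul_distrib]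
  refine Finset.prod_eq_one fun w _ => ?_
  split_ifs <;> norm_num

/-- No pair is reversed by 1. -/
theorem sg_one (S : Finset V) : sg (1 : P) S = 1 := by
  rw [sg]
  refine Finset.prod_eq_one fun v _ => ?_
  refine Finset.prod_eq_one fun w hw => ?_
  rw [one_smul, one_smul, if_neg (not_lt.mpr (Finset.mem_filter.mp hw).2.le)]

/-- Cocycle rule `sg (g * h) S = sg g (h • S) * sg h S`. Finset induction on `S` with `sg_insert`:
`sg (gh) (insert v S) = sg (gh) S * eps v S * eps (ghv) (ghS)`, and
`sg g (h • insert v S) * sg h (insert v S) = sg g (insert (hv) (hS)) * sg h (insert v S)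
 = sg g (hS) * eps (hv) (hS) * eps (ghv) (ghS) * sg h S * eps v S * eps (hv) (hS)`; `eps_mul_self`. (`Finset.smul_finset_insert`.) -/
theorem sg_mul (g h : P) (S : Finset V) : sg (g * h) S = sg g (h • S) * sg h S := by
  induction S using Finset.induction_on with
  | empty => simp [sg]
  | insert v S hv ih =>
    have hv2 : h • v ∉ h • S := by
      rw [Finset.smul_mem_smul_finset_iff]
      exact hv
    rw [Finset.smul_finset_insert, sg_insert (g * h) hv, sg_insert g hv2, sg_insert h hv, ih,
      mul_smul g h v, mul_smul g h S]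
    linear_combination (-(sg g (h • S) * sg h S * eps v S * eps (g • h • v) (g • h • S))) *
      eps_mul_self (h • v) (h • S)

/-- `rho` is an action: unit. -/
theorem rho_one (act : P →* RingAut E) (φ : Finset V → E) : rho act 1 φ = φ := by
  funext S
  rw [rho_apply, inv_one, one_smul, sg_one, map_one, one_smul]
  rfl

/-- `rho` is an action: product. At `S`: `sg (gh) ((gh)⁻¹ S) • act (gh) (φ ((gh)⁻¹ S))` against
`sg g (g⁻¹ S) • act g (sg h (h⁻¹ g⁻¹ S) • act h (φ (h⁻¹ g⁻¹ S)))`; use `sg_mul` with the set `(gh)⁻¹ S = h⁻¹ g⁻¹ S`. -/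
theorem rho_mul (act : P →* RingAut E) (g h : P) (φ : Finset V → E) :
    rho act (g * h) φ = rho act g (rho act h φ) := by
  funext S
  rw [rho_apply, rho_apply, rho_apply, mul_inv_rev, mul_smul h⁻¹ g⁻¹ S,
    sg_mul g h (h⁻¹ • g⁻¹ • S), smul_inv_smul, map_zsmul (act g), smul_smul, map_mul,
    RingAut.mul_apply]
  exact mul_smul _ _ _

/-- `rho` is semilinear over `act`. -/
theorem rho_smul (act : P →* RingAut E) (g : P) (e : E) (φ : Finset V → E) :
    rho act g (e • φ) = (act g e) • rho act g φ := by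
  funext S
  rw [Pi.smul_apply, rho_apply, rho_apply, Pi.smul_apply, smul_eq_mul, smul_eq_mul, map_mul,
    mul_smul_comm]

/-- `rho g (ins v φ) = ins (g • v) (rho g φ)`. At `S`: both sides are 0 if `g • v ∉ S`. Otherwise put `T = g⁻¹ • (S.erase (g • v)) = (g⁻¹ • S).erase v`, `v ∉ T`,
`g⁻¹ • S = insert v T`, `S.erase (g • v) = g • T`. Left: `sg g (insert v T) * eps v T`, right `eps (g • v) (g • T) * sg g T` (times `act g (φ T)`).
By `sg_insert` and `eps_mul_self` they are equal. -/
theorem rho_ins (act : P →* RingAut E) (g : P) (v : V) (φ : Finset V → E) :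
    rho act g (ins v φ) = ins (g • v) (rho act g φ) := by
  funext S
  rw [rho_apply, ins_apply, ins_apply]
  by_cases hS : g • v ∈ S
  · have hS2 : v ∈ g⁻¹ • S := Finset.mem_inv_smul_finset_iff.mpr hS
    rw [if_pos hS, if_pos hS2, rho_apply]
    have hT : g⁻¹ • (S.erase (g • v)) = (g⁻¹ • S).erase v := by
      ext w
      rw [Finset.mem_inv_smul_finset_iff, Finset.mem_erase, Finset.mem_erase,
        Finset.mem_inv_smul_finset_iff, (MulAction.injective g).ne_iff]
    have hT2 : S.erase (g • v) = g • ((g⁻¹ • S).erase v) := by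
      rw [← hT, smul_inv_smul]
    have hT3 : g⁻¹ • S = insert v ((g⁻¹ • S).erase v) := (Finset.insert_erase hS2).symm
    rw [hT, hT2]
    have hv : v ∉ (g⁻¹ • S).erase v := Finset.notMem_erase v _
    have e1 : sg g (g⁻¹ • S) = sg g ((g⁻¹ • S).erase v) * eps v ((g⁻¹ • S).erase v) *
        eps (g • v) (g • ((g⁻¹ • S).erase v)) := by
      rw [← sg_insert g hv, ← hT3]
    rw [map_zsmul (act g), smul_smul, smul_smul, e1]
    congr 1
    linear_combination (sg g ((g⁻¹ • S).erase v) * eps (g • v) (g • ((g⁻¹ • S).erase v))) *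
      eps_mul_self v ((g⁻¹ • S).erase v)
  · have hS2 : v ∉ g⁻¹ • S := fun h => hS (Finset.mem_inv_smul_finset_iff.mp h)
    rw [if_neg hS, if_neg hS2, map_zero, smul_zero]

/-- `rho g (Dl O φ) = Dl (g • O) (rho g φ)`: sum of `rho_ins` over `v ∈ O`. -/
theorem rho_Dl (act : P →* RingAut E) (g : P) (O : Finset V) (φ : Finset V → E) :
    rho act g (Dl O φ) = Dl (g • O) (rho act g φ) := by
  have h1 : ∀ (O : Finset V) (ψ : Finset V → E), Dl O ψ = ∑ v ∈ O, ins v ψ := by
    intro O ψ
    rw [Dl, LinearMap.sum_apply]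
  rw [h1, h1, map_sum, Finset.smul_finset_def, Finset.sum_image]
  · exact Finset.sum_congr rfl fun v _ => rho_ins act g v φ
  · intro a _ b _ hab
    exact MulAction.injective g hab

end Pool.Agent.H66Q
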