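import Pool.Agent.Lib.H66Q.Defs

set_option autoImplicit false
set_option linter.unusedVariables false
set_option linter.unusedSectionVars false

open scoped Pointwise

namespace Pool.Agent.H66Q

private theorem S5_gen {V : Type} [LinearOrder V] [Fintype V] {Y : Type} [Fintype Y] [LinearOrder Y]
    {P : Type} [Group P] [MulAction P Y] [MulAction P V] (g : P) (e : Fin 2 × Y ≃ V)
    (hlt : ∀ (i j : Fin 2) (y y' : Y), e (i, y) < e (j, y') ↔ i < j ∨ i = j ∧ y < y')
    (hsm : ∀ (i : Fin 2) (y : Y), g • e (i, y) = e (i, g • y)) :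
    sg g (Finset.univ : Finset V) = 1 := by
  unfold sg
  simp only [Finset.prod_filter]
  rw [← Equiv.prod_comp e]
  have h1 : ∀ v : V, ∏ w : V, (if v < w then (if g • w < g • v then (-1 : ℤ) else 1) else 1) =
      ∏ w : Fin 2 × Y, (if v < e w then (if g • e w < g • v then (-1 : ℤ) else 1) else 1) :=
    fun v => (Equiv.prod_comp e _).symm
  simp only [h1]
  simp only [Fintype.prod_prod_type, Fin.prod_univ_two]
  simp only [hsm]
  simp only [hlt]
  have h01 : ¬ ((1 : Fin 2) < 0) := by decide
  have h10 : (0 : Fin 2) < 1 := by decide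
  have h2 : ¬ ((0 : Fin 2) = 1) := by decide
  have h3 : ¬ ((1 : Fin 2) = 0) := by decide
  simp only [h01, h10, h2, h3, lt_self_iff_false, false_or, false_and, true_and, true_or, or_false,
    if_false, if_true, Finset.prod_const_one, mul_one, one_mul]
  rw [← Finset.prod_mul_distrib]
  refine Finset.prod_eq_one fun y _ => ?_
  rw [← Finset.prod_mul_distrib]
  refine Finset.prod_eq_one fun y' _ => ?_
  split_ifs <;> norm_num

/-- On the doubled set no sign: `sg g univ = 1`. The inner product over the pairs `v < w` in `Dbl Y`: a pair with different copies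
`v = dmk 0 y`, `w = dmk 1 y'` satisfies `g v < g w` (the copy is not changed), so its factor is 1. The pairs inside copy 0 and inside copy 1 give
the same product `c = ∏ y, ∏ y' with y < y', (if g • y' < g • y then -1 else 1)`, which is 1 or -1. So `sg g univ = c * c = 1`.
(Product over `Dbl Y` = product over `Fin 2 × Y`; `dmk i y < dmk i y' ↔ y < y'`, `dmk 0 y < dmk 1 y'`.) -/
theorem sg_univ_dbl {Y : Type} [Fintype Y] [LinearOrder Y] {P : Type} [Group P] [MulAction P Y] (g : P) :
    sg g (Finset.univ : Finset (Dbl Y)) = 1 :=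
  S5_gen (V := Dbl Y) (Y := Y) g toLex (fun i j y y' =>
    Prod.Lex.toLex_lt_toLex (x := (i, y)) (y := (j, y'))) (fun _ _ => rfl)

end Pool.Agent.H66Q
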