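import Pool.Agent.Lib.H66Q.Defs

set_option autoImplicit false
set_option linter.unusedVariables false
set_option linter.unusedSectionVars false

open scoped Pointwise

namespace Pool.Agent.H66Q

/-! Orbits of an element `x` with `x ^ p = 1`, `p` prime, without fixed points. -/

section

variable {V : Type} [LinearOrder V] {P : Type} [Group P] [MulAction P V] {p : ℕ} [Fact p.Prime]

theorem mem_orb_self (x : P) (v : V) : v ∈ orb p x v := by
  unfold orb
  rw [Finset.mem_image]
  exact ⟨0, Finset.mem_range.2 (Fact.out : p.Prime).pos, by rw [pow_zero, one_smul]⟩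

/-- `x ^ i • v = v` with `0 < i < p` would give `x • v = v`, because `x` is a power of `x ^ i` (`p` prime, `x ^ p = 1`); so the `p` elements `x ^ i • v`, `i < p`, are different. -/
theorem orb_card (x : P) (hx : x ^ p = 1) (hfree : ∀ v : V, x • v ≠ v) (v : V) : (orb p x v).card = p := by
  have hp : p.Prime := Fact.out
  have hper : MulAction.period x v = p := by
    have h1 : MulAction.period x v ∣ p :=
      MulAction.pow_smul_eq_iff_period_dvd.1 (by rw [hx, one_smul])
    rcases (Nat.dvd_prime hp).1 h1 with h2 | h2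
    · exfalso
      have h3 : x ^ 1 • v = v := MulAction.pow_smul_eq_iff_period_dvd.2 (by rw [h2])
      rw [pow_one] at h3
      exact hfree v h3
    · exact h2
  have key : ∀ i j : ℕ, i ≤ j → j < p → x ^ i • v = x ^ j • v → i = j := by
    intro i j hij hj h
    have h1 : x ^ i • (x ^ (j - i) • v) = x ^ i • v := by
      rw [← mul_smul, ← pow_add, Nat.add_sub_cancel' hij, h]
    have h2 : x ^ (j - i) • v = v := MulAction.injective (x ^ i) h1
    have h3 : MulAction.period x v ∣ j - i := MulAction.pow_smul_eq_iff_period_dvd.1 h2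
    rw [hper] at h3
    have h4 : j - i = 0 := Nat.eq_zero_of_dvd_of_lt h3 (by omega)
    omega
  unfold orb
  rw [Finset.card_image_of_injOn, Finset.card_range]
  intro i hi j hj h
  have hi' : i < p := Finset.mem_range.1 (Finset.mem_coe.1 hi)
  have hj' : j < p := Finset.mem_range.1 (Finset.mem_coe.1 hj)
  rcases le_total i j with hij | hij
  · exact key i j hij hj' h
  · exact (key j i hij hi' h.symm).symm

private theorem Y1_mem (x : P) (hx : x ^ p = 1) (v u : V) :
    u ∈ orb p x v ↔ ∃ n : ℕ, x ^ n • v = u := by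
  unfold orb
  rw [Finset.mem_image]
  constructor
  · rintro ⟨i, -, h⟩
    exact ⟨i, h⟩
  · rintro ⟨n, h⟩
    refine ⟨n % p, Finset.mem_range.2 (Nat.mod_lt _ (Fact.out : p.Prime).pos), ?_⟩
    rw [← pow_eq_pow_mod n hx, h]

/-- Elements of an orbit have the same orbit (`x ^ i • x ^ j • v = x ^ ((i + j) % p) • v`, and `v = x ^ (p - j) • (x ^ j • v)`). -/
theorem orb_eq (x : P) (hx : x ^ p = 1) {v w : V} (h : w ∈ orb p x v) : orb p x w = orb p x v := by
  obtain ⟨j, hj⟩ := (Y1_mem x hx v w).1 h
  ext u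
  rw [Y1_mem x hx, Y1_mem x hx]
  constructor
  · rintro ⟨n, hn⟩
    refine ⟨n + j, ?_⟩
    rw [pow_add, mul_smul, hj, hn]
  · rintro ⟨n, hn⟩
    refine ⟨n + (p - 1) * j, ?_⟩
    have hp : 1 ≤ p := (Fact.out : p.Prime).pos
    have h1 : n + (p - 1) * j + j = n + p * j := by
      obtain ⟨q, rfl⟩ : ∃ q, p = q + 1 := ⟨p - 1, by omega⟩
      rw [Nat.add_sub_cancel]
      ring
    rw [← hj, ← mul_smul, ← pow_add, h1, pow_add, pow_mul, hx, one_pow, mul_one, hn]

/-- Two orbits are equal or disjoint. -/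
theorem orb_disj (x : P) (hx : x ^ p = 1) (v w : V) (h : orb p x v ≠ orb p x w) :
    Disjoint (orb p x v) (orb p x w) := by
  rw [Finset.disjoint_left]
  intro u hu hu'
  exact h ((orb_eq x hx hu).symm.trans (orb_eq x hx hu'))

/-- Elements which commute with `x` on `V` permute the orbits (`g • x ^ i • v = x ^ i • g • v` by induction on `i`). -/
theorem smul_orb (x : P) (hcomm : ∀ (g : P) (v : V), g • x • v = x • g • v) (g : P) (v : V) :
    g • orb p x v = orb p x (g • v) := by
  ext u
  unfold orb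
  rw [Finset.mem_smul_finset, Finset.mem_image]
  have h1 : ∀ (i : ℕ) (w : V), g • x ^ i • w = x ^ i • g • w := by
    intro i
    induction i with
    | zero =>
      intro w
      rw [pow_zero, one_smul, one_smul]
    | succ i ih =>
      intro w
      rw [pow_succ, mul_smul, mul_smul, ih, hcomm]
  constructor
  · rintro ⟨w, hw, rfl⟩
    obtain ⟨i, hi, rfl⟩ := Finset.mem_image.1 hw
    exact ⟨i, hi, (h1 i v).symm⟩
  · rintro ⟨i, hi, rfl⟩
    exact ⟨x ^ i • v, Finset.mem_image.2 ⟨i, hi, rfl⟩, h1 i v⟩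

end

section

variable {Y : Type} [Fintype Y] [LinearOrder Y] {P : Type} [Group P] [MulAction P Y] {p : ℕ} [Fact p.Prime]

/-- List of all orbits: `(univ.image (orb p x)).toList`. -/
theorem exists_orbits (p : ℕ) (x : P) :
    ∃ L : List (Finset Y), L.Nodup ∧ ∀ O : Finset Y, O ∈ L ↔ ∃ y : Y, O = orb p x y := by
  refine ⟨(Finset.univ.image (orb p x)).toList, Finset.nodup_toList _, fun O => ?_⟩
  rw [Finset.mem_toList, Finset.mem_image]
  constructor
  · rintro ⟨y, -, rfl⟩
    exact ⟨y, rfl⟩
  · rintro ⟨y, rfl⟩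
    exact ⟨y, Finset.mem_univ y, rfl⟩

/-- `g` permutes the list of the orbits. (`List.perm_of_nodup_nodup_toFinset_eq` or `List.perm_ext_iff_of_nodup`; `g • ·` is injective; `smul_orb`; surjectivity with `g⁻¹`.) -/
theorem orbits_perm (x : P) (hcomm : ∀ (g : P) (v : Y), g • x • v = x • g • v) (L : List (Finset Y)) (hL : L.Nodup)
    (hL' : ∀ O : Finset Y, O ∈ L ↔ ∃ y : Y, O = orb p x y) (g : P) :
    (L.map (fun O => g • O)).Perm L := by
  have hinj : Function.Injective (fun O : Finset Y => g • O) := MulAction.injective g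
  rw [List.perm_ext_iff_of_nodup (hL.map hinj) hL]
  intro O
  rw [List.mem_map]
  constructor
  · rintro ⟨O', hO', rfl⟩
    obtain ⟨y, rfl⟩ := (hL' O').1 hO'
    exact (hL' _).2 ⟨g • y, smul_orb x hcomm g y⟩
  · intro hO
    obtain ⟨y, rfl⟩ := (hL' O).1 hO
    refine ⟨orb p x (g⁻¹ • y), (hL' _).2 ⟨_, rfl⟩, ?_⟩
    rw [smul_orb x hcomm, smul_inv_smul]

/-- The orbits partition `Y` and have `p` elements each. -/
theorem orbits_length (x : P) (hx : x ^ p = 1) (hfree : ∀ v : Y, x • v ≠ v) (L : List (Finset Y)) (hL : L.Nodup)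
    (hL' : ∀ O : Finset Y, O ∈ L ↔ ∃ y : Y, O = orb p x y) :
    L.length * p = Fintype.card Y := by
  classical
  have h1 : L.toFinset.biUnion (fun O => O) = (Finset.univ : Finset Y) := by
    ext y
    simp only [Finset.mem_biUnion, List.mem_toFinset, Finset.mem_univ, iff_true]
    exact ⟨orb p x y, (hL' _).2 ⟨y, rfl⟩, mem_orb_self x y⟩
  have h2 : (L.toFinset.biUnion (fun O => O)).card = ∑ O ∈ L.toFinset, O.card := by
    refine Finset.card_biUnion ?_
    intro O hO O' hO' hne
    obtain ⟨y, rfl⟩ := (hL' O).1 (List.mem_toFinset.1 hO)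
    obtain ⟨y', rfl⟩ := (hL' O').1 (List.mem_toFinset.1 hO')
    exact orb_disj x hx y y' hne
  have h3 : ∑ O ∈ L.toFinset, O.card = ∑ _O ∈ L.toFinset, p := by
    refine Finset.sum_congr rfl fun O hO => ?_
    obtain ⟨y, rfl⟩ := (hL' O).1 (List.mem_toFinset.1 hO)
    exact orb_card x hx hfree y
  rw [h1, Finset.card_univ, h3, Finset.sum_const, List.toFinset_card_of_nodup hL,
    smul_eq_mul] at h2
  exact h2.symm

end

end Pool.Agent.H66Q
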