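import Pool.Agent.Lib.H66Q.S2
import Pool.Agent.Lib.H66Q.S4
import Pool.Agent.Lib.H66Q.S5
import Pool.Agent.Lib.H66Q.Y1

set_option autoImplicit false
set_option linter.unusedVariables false
set_option linter.unusedSectionVars false

open scoped Pointwise

namespace Pool.Agent.H66Q

/-- `Phi` for a permuted list of doubled finsets. `Phi (dblL (O :: L)) φ = Phi (dblL L) (Dl (cpy 1 O) (Dl (cpy 0 O) φ))`. Induction on `List.Perm` for all `φ`; in the swap case
`Dl (cpy 1 O') ∘ Dl (cpy 0 O') ∘ Dl (cpy 1 O) ∘ Dl (cpy 0 O) = Dl (cpy 1 O) ∘ Dl (cpy 0 O) ∘ Dl (cpy 1 O') ∘ Dl (cpy 0 O')`: four applications of `Dl_anti`, an even number of signs. -/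
theorem Phi_perm {Y : Type} [Fintype Y] [LinearOrder Y] {E : Type} [Ring E] {L L' : List (Finset Y)} (h : L.Perm L') (φ : Finset (Dbl Y) → E) :
    Phi (dblL L) φ = Phi (dblL L') φ := by
  have ha : ∀ (O O' : Finset (Dbl Y)) (ψ : Finset (Dbl Y) → E), Dl O (Dl O' ψ) = - Dl O' (Dl O ψ) :=
    fun O O' ψ => LinearMap.congr_fun (Dl_anti O O') ψ
  induction h generalizing φ with
  | nil => rfl
  | cons O h ih => exact ih (Dl (cpy 1 O) (Dl (cpy 0 O) φ))
  | swap a b L =>
    have e : Dl (cpy 1 a) (Dl (cpy 0 a) (Dl (cpy 1 b) (Dl (cpy 0 b) φ))) =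
        Dl (cpy 1 b) (Dl (cpy 0 b) (Dl (cpy 1 a) (Dl (cpy 0 a) φ))) := by
      rw [ha (cpy 0 a) (cpy 1 b) (Dl (cpy 0 b) φ), map_neg, ha (cpy 1 a) (cpy 1 b), neg_neg,
        ha (cpy 0 a) (cpy 0 b) φ, map_neg, map_neg, ha (cpy 1 a) (cpy 0 b), map_neg, neg_neg]
    exact congrArg (Phi (dblL L)) e
  | trans h1 h2 ih1 ih2 => exact (ih1 φ).trans (ih2 φ)

/-- `Phi (B.map (g • ·)) (rho g φ) = sg g univ • act g (Phi B φ)`. Induction on `B` for all `φ`: `rho_Dl`; for `B = []`: `rho act g φ univ = sg g (g⁻¹ • univ) • act g (φ (g⁻¹ • univ))` and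
`g⁻¹ • univ = univ`. -/
theorem Phi_map {V : Type} [Fintype V] [LinearOrder V] {P : Type} [Group P] [MulAction P V] {E : Type} [Ring E] (act : P →* RingAut E) (g : P) (B : List (Finset V)) (φ : Finset V → E) :
    Phi (B.map (fun O => g • O)) (rho act g φ) = sg g (Finset.univ : Finset V) • act g (Phi B φ) := by
  induction B generalizing φ with
  | nil =>
    have e : g⁻¹ • (Finset.univ : Finset V) = Finset.univ := Finset.smul_finset_univ
    show rho act g φ Finset.univ = sg g Finset.univ • act g (φ Finset.univ)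
    rw [rho_apply, e]
  | cons O B ih =>
    show Phi (B.map (fun O => g • O)) (Dl (g • O) (rho act g φ)) = _
    rw [← rho_Dl]
    exact ih (Dl O φ)

/-- `dblL` and the action: `g • cpy i O = cpy i (g • O)`. -/
theorem dblL_map {Y : Type} [Fintype Y] [LinearOrder Y] {P : Type} [Group P] [MulAction P Y] (g : P) (L : List (Finset Y)) :
    (dblL L).map (fun O => g • O) = dblL (L.map (fun O => g • O)) := by
  have h : ∀ (i : Fin 2) (O : Finset Y), g • cpy i O = cpy i (g • O) := by
    intro i O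
    unfold cpy
    rw [Finset.smul_finset_def, Finset.smul_finset_def, Finset.image_image, Finset.image_image]
    rfl
  induction L with
  | nil => rfl
  | cons O L ih =>
    show g • cpy 0 O :: g • cpy 1 O :: (dblL L).map (fun O => g • O) =
      cpy 0 (g • O) :: cpy 1 (g • O) :: dblL (L.map (fun O => g • O))
    rw [h, h, ih]

/-- Equivariance of `Phi` on the doubled set: `Phi_map` with `B = dblL L`, `dblL_map`, `Phi_perm`, `sg_univ_dbl`. -/
theorem Phi_rho {Y : Type} [Fintype Y] [LinearOrder Y] {P : Type} [Group P] [MulAction P Y] {E : Type} [Ring E] (act : P →* RingAut E) (L : List (Finset Y)) (g : P)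
    (hL : (L.map (fun O => g • O)).Perm L) (φ : Finset (Dbl Y) → E) :
    Phi (dblL L) (rho act g φ) = act g (Phi (dblL L) φ) := by
  rw [← Phi_perm hL, ← dblL_map, Phi_map, sg_univ_dbl, one_smul]

/-- `Phi` and `t`: `Dl O (tX t φ) = tX t (Dl O φ)` (`map_zsmul`), induction on `B`. -/
theorem Phi_tX {V : Type} [Fintype V] [LinearOrder V] {E : Type} [Ring E] (t : RingAut E) (B : List (Finset V)) (φ : Finset V → E) :
    Phi B (tX t φ) = t (Phi B φ) := by
  have h : ∀ (O : Finset V) (ψ : Finset V → E), Dl O (tX t ψ) = tX t (Dl O ψ) := by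
    intro O ψ
    funext S
    show Dl O (tX t ψ) S = t (Dl O ψ S)
    rw [Dl_apply, Dl_apply, map_sum]
    exact Finset.sum_congr rfl fun v _ => (map_zsmul t _ _).symm
  induction B generalizing φ with
  | nil => rfl
  | cons O B ih =>
    show Phi B (Dl O (tX t φ)) = t (Phi B (Dl O φ))
    rw [h]
    exact ih (Dl O φ)

theorem dK_tX {V : Type} [Fintype V] [LinearOrder V] {E : Type} [Ring E] (t : RingAut E) (F : Finset V) (B : List (Finset V)) (φ : Finset V → E) :
    dK F B (tX t φ) = tX t (dK F B φ) := by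
  funext S
  show res (KFB F B) (Dl Finset.univ (tX t φ)) S = t (res (KFB F B) (Dl Finset.univ φ) S)
  rw [res_apply, res_apply, Dl_apply, Dl_apply]
  split_ifs
  · rw [map_sum]
    exact Finset.sum_congr rfl fun v _ => (map_zsmul t _ _).symm
  · rw [map_zero]

/-- `dK ∅ B` is equivariant if the family of faces is invariant: `rho_Dl` with `O = univ`, `g • univ = univ`, and `rho g (res K φ) = res K (rho g φ)` for invariant `K`. -/
theorem dK_rho {V : Type} [Fintype V] [LinearOrder V] {P : Type} [Group P] [MulAction P V] {E : Type} [Ring E] (act : P →* RingAut E) (B : List (Finset V))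
    (hK : ∀ (g : P) (A : Finset V), KFB ∅ B (g • A) ↔ KFB ∅ B A) (g : P) (φ : Finset V → E) :
    dK ∅ B (rho act g φ) = rho act g (dK ∅ B φ) := by
  have e : g • (Finset.univ : Finset V) = Finset.univ := Finset.smul_finset_univ
  have h1 : Dl (Finset.univ : Finset V) (rho act g φ) = rho act g (Dl Finset.univ φ) := by
    rw [rho_Dl, e]
  show res (KFB ∅ B) (Dl Finset.univ (rho act g φ)) = rho act g (res (KFB ∅ B) (Dl Finset.univ φ))
  rw [h1]
  funext S
  have h2 := hK g (g⁻¹ • S)
  rw [smul_inv_smul] at h2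
  rw [res_apply, rho_apply, rho_apply, res_apply]
  by_cases hS : KFB ∅ B S
  · rw [if_pos hS, if_pos (h2.1 hS)]
  · rw [if_neg hS, if_neg (fun h => hS (h2.2 h)), map_zero, smul_zero]

end Pool.Agent.H66Q
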