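import Pool.Agent.Lib.H66Q.M2
import Pool.Agent.Lib.H66Q.M5
import Pool.Agent.Lib.H66Q.X3
import Pool.Agent.Lib.H66Q.X4
import Pool.Agent.Lib.H66Q.X5
import Pool.Agent.Lib.H66Q.Y3

set_option autoImplicit false
set_option linter.unusedVariables false
set_option linter.unusedSectionVars false

open scoped Pointwise

namespace Pool.Agent.H66Q

private theorem c1_step {p : ℕ} {E : Type} [Ring E] {P : Type} [Group P] [Fintype P] {S : Sys p E P}
    {X : Type} [AddCommGroup X] [Module E X] {X' : Type} [AddCommGroup X'] [Module E X']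
    (M : EMod S X) (M' : EMod S X') (x : P) (C : AddSubgroup X)
    (hCe : ∀ (e : E), ∀ φ ∈ C, e • φ ∈ C) (hCr : ∀ (g : P), ∀ φ ∈ C, M.r g φ ∈ C)
    (hCT : ∀ φ ∈ C, M.T φ ∈ C)
    (hac1 : ∀ φ ∈ C, M.tau x φ = φ → ∃ ψ ∈ C, φ = nrm p (M.tau x) ψ)
    (hac2 : ∀ φ ∈ C, nrm p (M.tau x) φ = 0 → ∃ ψ ∈ C, φ = M.tau x ψ - ψ)
    (π : X →+ X') (hπe : ∀ (e : E) (φ : X), π (e • φ) = e • π φ)
    (hπr : ∀ (g : P) (φ : X), π (M.r g φ) = M'.r g (π φ)) (hπT : ∀ φ : X, π (M.T φ) = M'.T (π φ))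
    (Z : AddSubgroup X) (hZ : ∀ φ, φ ∈ Z ↔ φ ∈ C ∧ π φ = 0)
    (Z' : AddSubgroup X') (hZ' : ∀ ψ, ψ ∈ Z' ↔ ∃ φ ∈ C, π φ = ψ) :
    (M'.GoodE x Z' → M.GoodO x Z) ∧ (M'.GoodO x Z' → M.GoodE' x Z) := by
  -- the lift
  have hlift : ∀ z' ∈ Z', (∀ g : P, M'.r g z' = z') →
      ∃ y ∈ C, (∀ g : P, M.r g y = y) ∧ π y = z' := by
    intro z' hz' hfix
    obtain ⟨y0, hy0, hπy0⟩ := (hZ' z').1 hz'
    refine ⟨∑ g : P, M.r g (S.b • y0), ?_, ?_, ?_⟩
    · exact AddSubgroup.sum_mem C fun g _ => hCr g _ (hCe _ _ hy0)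
    · intro g
      rw [map_sum]
      have h1 : ∀ h : P, M.r g (M.r h (S.b • y0)) = M.r (g * h) (S.b • y0) := fun h =>
        (M.r_mul g h _).symm
      simp only [h1]
      exact Equiv.sum_comp (Equiv.mulLeft g) (fun h => M.r h (S.b • y0))
    · rw [map_sum]
      have h1 : ∀ g : P, π (M.r g (S.b • y0)) = (S.act g S.b) • z' := by
        intro g
        rw [hπr, hπe, hπy0, M'.r_smul, hfix g]
      simp only [h1]
      rw [← Finset.sum_smul, S.hb, one_smul]
  have hTit : ∀ (g : P) (n : ℕ) (φ : X), M.r g (M.T^[n] φ) = M.T^[n] (M.r g φ) := by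
    intro g n φ
    induction n with
    | zero => rfl
    | succ n ih => rw [Function.iterate_succ_apply', Function.iterate_succ_apply', ← M.comm, ih]
  have htauit : ∀ (y : X), (∀ g : P, M.r g y = y) → ∀ n : ℕ, (M.tau x)^[n] y = M.T^[n] y := by
    intro y hy n
    induction n with
    | zero => rfl
    | succ n ih =>
      rw [Function.iterate_succ_apply', Function.iterate_succ_apply', ih]
      show M.T (M.r x (M.T^[n] y)) = M.T (M.T^[n] y)
      rw [hTit, hy]
  have hnrmy : ∀ (y : X), (∀ g : P, M.r g y = y) → nrm p (M.tau x) y = nrm p M.T y := by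
    intro y hy
    exact Finset.sum_congr rfl fun i _ => htauit y hy i
  have htauy : ∀ (y : X), (∀ g : P, M.r g y = y) → M.tau x y = M.T y := by
    intro y hy
    show M.T (M.r x y) = M.T y
    rw [hy]
  have hsm : ∀ (h : E), S.tau x h = h → ∀ w : X, M.tau x (h • w) = h • M.tau x w := by
    intro h hh w
    show M.T (M.r x (h • w)) = h • M.T (M.r x w)
    rw [M.r_smul, M.T_smul]
    have h1 : S.t (S.act x h) = h := hh
    rw [h1]
  have hsmn : ∀ (h : E), S.tau x h = h → ∀ w : X,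
      nrm p (M.tau x) (h • w) = h • nrm p (M.tau x) w := by
    intro h hh w
    unfold nrm
    rw [Finset.smul_sum]
    refine Finset.sum_congr rfl fun i hi => ?_
    clear hi
    induction i with
    | zero => rfl
    | succ n ih => rw [Function.iterate_succ_apply', Function.iterate_succ_apply', ih, hsm h hh]
  have hπtau : ∀ w : X, π (M.tau x w) = M'.tau x (π w) := by
    intro w
    show π (M.T (M.r x w)) = M'.T (M'.r x (π w))
    rw [hπT, hπr]
  have hπn : ∀ w : X, π (nrm p (M.tau x) w) = nrm p (M'.tau x) (π w) := by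
    intro w
    unfold nrm
    rw [map_sum]
    refine Finset.sum_congr rfl fun i hi => ?_
    clear hi
    induction i with
    | zero => rfl
    | succ n ih => rw [Function.iterate_succ_apply', Function.iterate_succ_apply', hπtau, ih]
  have hπTn : ∀ w : X, π (nrm p M.T w) = nrm p M'.T (π w) := by
    intro w
    unfold nrm
    rw [map_sum]
    refine Finset.sum_congr rfl fun i hi => ?_
    clear hi
    induction i with
    | zero => rfl
    | succ n ih => rw [Function.iterate_succ_apply', Function.iterate_succ_apply', hπT, ih]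
  constructor
  · rintro ⟨z', hz', hfix, hTz', H⟩
    obtain ⟨y, hyC, hyr, hπy⟩ := hlift z' hz' hfix
    refine ⟨M.T y - y, (hZ _).2 ⟨AddSubgroup.sub_mem C (hCT y hyC) hyC, ?_⟩, ?_, ?_, ?_⟩
    · rw [map_sub, hπT, hπy, hTz', sub_self]
    · intro g
      rw [map_sub, ← M.comm, hyr]
    · rw [nrmM_tele, M.T_pow, sub_self]
    · rintro h hh ⟨w, hw, hhz⟩
      obtain ⟨hwC, hπw⟩ := (hZ w).1 hw
      have hmem : h • y - w ∈ C := AddSubgroup.sub_mem C (hCe h y hyC) hwC
      have hfx : M.tau x (h • y - w) = h • y - w := by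
        rw [map_sub, hsm h hh, htauy y hyr]
        have h1 : h • M.T y - h • y = M.tau x w - w := by rw [← smul_sub]; exact hhz
        have h2 : h • M.T y = M.tau x w - w + h • y := by rw [← h1, sub_add_cancel]
        rw [h2]
        abel
      obtain ⟨ψ, hψC, hψ⟩ := hac1 _ hmem hfx
      refine H h hh ⟨π ψ, (hZ' _).2 ⟨ψ, hψC, rfl⟩, ?_⟩
      rw [← hπn, ← hψ, map_sub, hπe, hπy, hπw, sub_zero]
  · rintro ⟨z', hz', hfix, hnz', H⟩
    obtain ⟨y, hyC, hyr, hπy⟩ := hlift z' hz' hfix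
    have hTC : ∀ n : ℕ, M.T^[n] y ∈ C := by
      intro n
      induction n with
      | zero => exact hyC
      | succ n ih =>
        rw [Function.iterate_succ_apply']
        exact hCT _ ih
    refine ⟨nrm p M.T y, (hZ _).2 ⟨AddSubgroup.sum_mem C fun i _ => hTC i, ?_⟩, ?_, ?_, ⟨y, rfl⟩, ?_⟩
    · rw [hπTn, hπy, hnz']
    · intro g
      unfold nrm
      rw [map_sum]
      refine Finset.sum_congr rfl fun i _ => ?_
      rw [hTit, hyr]
    · exact nrmM_fix p M.T y (M.T_pow y)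
    · rintro h hh ⟨w, hw, hhz⟩
      obtain ⟨hwC, hπw⟩ := (hZ w).1 hw
      have hmem : h • y - w ∈ C := AddSubgroup.sub_mem C (hCe h y hyC) hwC
      have hn0 : nrm p (M.tau x) (h • y - w) = 0 := by
        rw [nrmM_sub, hsmn h hh, hnrmy y hyr, hhz, sub_self]
      obtain ⟨ψ, hψC, hψ⟩ := hac2 _ hmem hn0
      refine H h hh ⟨π ψ, (hZ' _).2 ⟨ψ, hψC, rfl⟩, ?_⟩
      rw [← hπtau, ← map_sub, ← hψ, map_sub, hπe, hπy, hπw, sub_zero]

/-! The chain of steps. Common hypotheses: `B` a partition list of `V`, invariant faces without full `x`-orbit. -/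

section

variable {p : ℕ} [Fact p.Prime] {E : Type} [Ring E] {P : Type} [Group P] [Fintype P] (S : Sys p E P)
  {V : Type} [Fintype V] [LinearOrder V] [MulAction P V] (x : P) (hx : x ^ p = 1) (B : List (Finset V)) (hP : Part ∅ B)
  (hK : ∀ (g : P) (A : Finset V), KFB ∅ B (g • A) ↔ KFB ∅ B A)
  (hB : ∀ A : Finset V, KFB ∅ B A → ∀ v : V, ¬ orb p x v ⊆ A)

include hx hP hK hB

/-- Top step. `n + 1 + B.length = card V`, `C = suppG (KFB ∅ B) (n+1)`. `step` with `M = fmod S V`, `M' = EMod.self S`, `π = Phi B` (as an additive map), `Z = Wg B n`, `Z' = ⊤`. `GoodE` for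
`EMod.self S` and `⊤` holds with `z = 1` (`h • 1 = h`; the relative trace of the module `E` is that of the ring: `(EMod.self S).tau x = S.tau x` as functions). Hypotheses of `step`: stability and acyclicity of `C` from
`suppG_rho`, `suppG_T`, `suppG_smul`, `acyc`; linearity `Phi_smul`; equivariance `hPhi`, `Phi_tX`. `Z`: `φ ∈ Wg B n` iff `φ ∈ C` and `Phi B φ = 0`: (→) `dK_supp`, `Phi_dK`; (←) `exact` with
`k = n + 1`, `F = ∅` (`dK ∅ B φ = 0` by `dK_top`): `ψ` supported on sets with `S.card + 1 = n + 1`. `Z'`: `Phi_surj`. -/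
theorem chain_top (hPhi : ∀ (g : P) (φ : Finset V → E), Phi B (rho S.act g φ) = S.act g (Phi B φ))
    (n : ℕ) (hn : n + 1 + B.length = Fintype.card V) :
    (fmod S V).GoodO x (Wg B n) := by
  have hac := acyc (E := E) S x hx (KFB ∅ B) hK hB (n + 1) (by omega)
  refine (step (fmod S V) (EMod.self S) x (suppG (KFB ∅ B) (n + 1))
    (fun e φ hφ => suppG_smul _ _ e φ hφ) (fun g φ hφ => suppG_rho S _ hK _ g φ hφ)
    (fun φ hφ => suppG_T S _ _ φ hφ) hac.1 hac.2 (AddMonoidHom.mk' (Phi B) (Phi_add B))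
    (fun e φ => Phi_smul B e φ) (fun g φ => hPhi g φ) (fun φ => Phi_tX S.t B φ) (Wg B n) ?_ ⊤
    ?_).1 ?_
  · intro φ
    constructor
    · rintro ⟨ψ, hψ, rfl⟩
      exact ⟨dK_supp B n ψ hψ, Phi_dK B hP ψ⟩
    · rintro ⟨h1, h2⟩
      obtain ⟨ψ, h3, h4⟩ := exact B ∅ hP (n + 1) φ h1 (dK_top B hP (n + 1) hn φ h1) fun _ => h2
      refine ⟨ψ, fun A hA => ⟨(h3 A hA).1, ?_⟩, h4⟩
      have := (h3 A hA).2
      omega
  · intro a
    constructor
    · intro _
      obtain ⟨φ, h1, h2⟩ := Phi_surj B ∅ hP a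
      refine ⟨φ, fun A hA => ⟨(h1 A hA).1, ?_⟩, h2⟩
      have := (h1 A hA).2
      omega
    · intro _
      exact AddSubgroup.mem_top a
  · refine ⟨(1 : E), AddSubgroup.mem_top _, fun g => map_one (S.act g), map_one S.t, ?_⟩
    rintro h - ⟨w, -, hw⟩
    refine ⟨w, ?_⟩
    have e1 : h • (1 : E) = h := mul_one h
    rw [e1] at hw
    exact hw

/-- Middle steps. `step` with `M = M' = fmod S V`, `C = suppG (KFB ∅ B) (k+1)`, `π = dK ∅ B`, `Z = Wg B k`, `Z' = Wg B (k+1)`; equivariance `dK_rho`, `dK_tX`. `φ ∈ Wg B k` iff `φ ∈ C` and `dK ∅ B φ = 0`: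
(→) `dK_supp`, `dK_dK`; (←) `exact` with degree `k + 1` (not the top degree by `hk`). -/
theorem chain_mid (k : ℕ) (hk : k + 1 + B.length < Fintype.card V) :
    ((fmod S V).GoodE x (Wg B (k + 1)) → (fmod S V).GoodO x (Wg B k)) ∧
      ((fmod S V).GoodO x (Wg B (k + 1)) → (fmod S V).GoodE' x (Wg B k)) := by
  have hac := acyc (E := E) S x hx (KFB ∅ B) hK hB (k + 1) (by omega)
  refine c1_step (fmod S V) (fmod S V) x (suppG (KFB ∅ B) (k + 1))
    (fun e φ hφ => suppG_smul _ _ e φ hφ) (fun g φ hφ => suppG_rho S _ hK _ g φ hφ)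
    (fun φ hφ => suppG_T S _ _ φ hφ) hac.1 hac.2
    (dK ∅ B : (Finset V → E) →ₗ[E] (Finset V → E)).toAddMonoidHom
    (fun e φ => map_smul (dK ∅ B : (Finset V → E) →ₗ[E] (Finset V → E)) e φ)
    (fun g φ => dK_rho S.act B hK g φ) (fun φ => dK_tX S.t ∅ B φ) (Wg B k) ?_ (Wg B (k + 1)) ?_
  · intro φ
    constructor
    · rintro ⟨ψ, hψ, rfl⟩
      exact ⟨dK_supp B k ψ hψ, dK_dK B ψ⟩
    · rintro ⟨h1, h2⟩
      obtain ⟨ψ, h3, h4⟩ := exact B ∅ hP (k + 1) φ h1 h2 fun h5 => absurd h5 (by omega)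
      refine ⟨ψ, fun A hA => ⟨(h3 A hA).1, ?_⟩, h4⟩
      have := (h3 A hA).2
      omega
  · intro ψ
    exact AddSubgroup.mem_map

end

end Pool.Agent.H66Q
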