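import Pool.Agent.Lib.H66Q.M2
import Pool.Agent.Lib.H66Q.M5
import Pool.Agent.Lib.H66Q.Y3
import Pool.Agent.Lib.H66Q.X5

set_option autoImplicit false
set_option linter.unusedVariables false
set_option linter.unusedSectionVars false

open scoped Pointwise

namespace Pool.Agent.H66Q

private theorem C2_sg_single {P : Type} [Group P] {V : Type} [LinearOrder V] [MulAction P V] (g : P) (v : V) :
    sg g ({v} : Finset V) = 1 := by
  rw [sg]
  refine Finset.prod_eq_one fun w hw => ?_
  rw [Finset.mem_singleton] at hw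
  refine Finset.prod_eq_one fun u hu => ?_
  have h1 := Finset.mem_filter.mp hu
  rw [Finset.mem_singleton] at h1
  exfalso
  have h2 := h1.2
  rw [hw, h1.1] at h2
  exact lt_irrefl _ h2

private theorem C2_sg_empty {P : Type} [Group P] {V : Type} [LinearOrder V] [MulAction P V] (g : P) :
    sg g (∅ : Finset V) = 1 := by
  rw [sg, Finset.prod_empty]

private theorem C2_inv_single {P : Type} [Group P] {V : Type} [LinearOrder V] [MulAction P V] (g : P) (v : V) :
    g⁻¹ • ({g • v} : Finset V) = {v} := by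
  rw [Finset.smul_finset_singleton, inv_smul_smul]

open Classical in
/-- The function with the value `e` at the empty set and 0 elsewhere. -/
private noncomputable def C2_dl {V : Type} {E : Type} [Ring E] (e : E) : Finset V → E :=
  fun A => if A = ∅ then e else 0

private theorem C2_dl_empty {V : Type} {E : Type} [Ring E] (e : E) :
    C2_dl e (∅ : Finset V) = e := by
  unfold C2_dl
  rw [if_pos rfl]

private theorem C2_dl_ne {V : Type} {E : Type} [Ring E] (e : E) (A : Finset V) (hA : A ≠ ∅) :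
    C2_dl e A = 0 := by
  unfold C2_dl
  rw [if_neg hA]

private theorem C2_dl_smul {V : Type} {E : Type} [Ring E] (h e : E) :
    (C2_dl (h * e) : Finset V → E) = h • C2_dl e := by
  funext A
  by_cases hA : A = ∅
  · subst hA
    rw [C2_dl_empty, Pi.smul_apply, C2_dl_empty, smul_eq_mul]
  · rw [C2_dl_ne _ _ hA, Pi.smul_apply, C2_dl_ne _ _ hA, smul_zero]

private theorem C2_dl_add {V : Type} {E : Type} [Ring E] (h e : E) :
    (C2_dl (h + e) : Finset V → E) = C2_dl h + C2_dl e := by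
  funext A
  by_cases hA : A = ∅
  · subst hA
    rw [C2_dl_empty, Pi.add_apply, C2_dl_empty, C2_dl_empty]
  · rw [C2_dl_ne _ _ hA, Pi.add_apply, C2_dl_ne _ _ hA, C2_dl_ne _ _ hA, add_zero]

private theorem C2_dl_zero {V : Type} {E : Type} [Ring E] :
    (C2_dl (0 : E) : Finset V → E) = 0 := by
  funext A
  by_cases hA : A = ∅
  · subst hA
    rw [C2_dl_empty, Pi.zero_apply]
  · rw [C2_dl_ne _ _ hA, Pi.zero_apply]

private theorem C2_dl_sum {V : Type} {E : Type} [Ring E] (n : ℕ) (f : ℕ → E) :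
    (C2_dl (∑ i ∈ Finset.range n, f i) : Finset V → E) = ∑ i ∈ Finset.range n, C2_dl (f i) := by
  induction n with
  | zero => rw [Finset.sum_range_zero, Finset.sum_range_zero, C2_dl_zero]
  | succ n ih => rw [Finset.sum_range_succ, Finset.sum_range_succ, C2_dl_add, ih]

private theorem C2_tau_dl {p : ℕ} {E : Type} [Ring E] {P : Type} [Group P] [Fintype P] (S : Sys p E P)
    {V : Type} [LinearOrder V] [MulAction P V] (x : P) (e : E) :
    (fmod S V).tau x (C2_dl e) = C2_dl (S.tau x e) := by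
  funext A
  change S.t (sg x (x⁻¹ • A) • S.act x (C2_dl e (x⁻¹ • A))) = C2_dl (S.t (S.act x e)) A
  by_cases hA : A = ∅
  · subst hA
    rw [Finset.smul_finset_empty, C2_sg_empty, C2_dl_empty, C2_dl_empty, one_smul]
  · have h1 : x⁻¹ • A ≠ ∅ := by
      intro h0
      apply hA
      have h2 := congrArg (fun D : Finset V => x • D) h0
      simpa using h2
    rw [C2_dl_ne _ _ h1, C2_dl_ne _ _ hA, map_zero, smul_zero, map_zero]

private theorem C2_iter_dl {p : ℕ} {E : Type} [Ring E] {P : Type} [Group P] [Fintype P] (S : Sys p E P)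
    {V : Type} [LinearOrder V] [MulAction P V] (x : P) (e : E) (i : ℕ) :
    ((fmod S V).tau x)^[i] (C2_dl e) = C2_dl ((⇑(S.tau x))^[i] e) := by
  induction i with
  | zero => rfl
  | succ i ih =>
    rw [Function.iterate_succ_apply', Function.iterate_succ_apply', ih, C2_tau_dl]

private theorem C2_nrm_dl {p : ℕ} {E : Type} [Ring E] {P : Type} [Group P] [Fintype P] (S : Sys p E P)
    {V : Type} [LinearOrder V] [MulAction P V] (x : P) (e : E) (q : ℕ) :
    nrm q ((fmod S V).tau x) (C2_dl e) = C2_dl (nrm q (S.tau x) e) := by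
  unfold nrm
  rw [C2_dl_sum]
  exact Finset.sum_congr rfl fun i _ => C2_iter_dl S x e i

private theorem C2_dK_tau {p : ℕ} {E : Type} [Ring E] {P : Type} [Group P] [Fintype P] (S : Sys p E P)
    {V : Type} [Fintype V] [LinearOrder V] [MulAction P V] (x : P) (B : List (Finset V))
    (hK : ∀ (g : P) (A : Finset V), KFB ∅ B (g • A) ↔ KFB ∅ B A) (φ : Finset V → E) :
    dK ∅ B ((fmod S V).tau x φ) = (fmod S V).tau x (dK ∅ B φ) := by
  change dK ∅ B (tX S.t (rho S.act x φ)) = tX S.t (rho S.act x (dK ∅ B φ))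
  rw [dK_tX, dK_rho S.act B hK]

private theorem C2_dK_nrm {p : ℕ} {E : Type} [Ring E] {P : Type} [Group P] [Fintype P] (S : Sys p E P)
    {V : Type} [Fintype V] [LinearOrder V] [MulAction P V] (x : P) (B : List (Finset V))
    (hK : ∀ (g : P) (A : Finset V), KFB ∅ B (g • A) ↔ KFB ∅ B A) (φ : Finset V → E) (q : ℕ) :
    dK ∅ B (nrm q ((fmod S V).tau x) φ) = nrm q ((fmod S V).tau x) (dK ∅ B φ) := by
  have h1 : ∀ i : ℕ, dK ∅ B (((fmod S V).tau x)^[i] φ) = ((fmod S V).tau x)^[i] (dK ∅ B φ) := by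
    intro i
    induction i with
    | zero => rfl
    | succ i ih =>
      rw [Function.iterate_succ_apply', Function.iterate_succ_apply', C2_dK_tau S x B hK, ih]
  unfold nrm
  rw [map_sum]
  exact Finset.sum_congr rfl fun i _ => h1 i

private theorem C2_dK_single {V : Type} [Fintype V] [LinearOrder V] {E : Type} [Ring E] (B : List (Finset V))
    (h1 : ∀ v : V, KFB ∅ B {v}) (φ : Finset V → E) (v : V) : dK ∅ B φ {v} = φ ∅ := by
  change res (KFB ∅ B) (Dl Finset.univ φ) {v} = φ ∅
  rw [res_apply, if_pos (h1 v), Dl_apply, Finset.univ_inter, Finset.sum_singleton,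
    Finset.erase_singleton]
  unfold eps
  rw [Finset.filter_empty, Finset.card_empty, pow_zero, one_smul]

/-- Bottom of the chain. `M = fmod S V`. Assume `GoodE'` for `Wg B 0`, and that all singletons are faces (`h1`), `V` nonempty. Let `z = dK ∅ B φ`, `φ ∈ suppG (KFB ∅ B) 0`, be the good element; `a = φ ∅`.
For every `v`: `z {v} = eps v ∅ • φ ∅ = a` (`Dl_apply`, `KFB ∅ B {v}`). `S.act g a = a` from `M.r g z = z` evaluated at `{g • v}` (`rho_apply`, `g⁻¹ • {g • v} = {v}`, `sg g {v} = 1`); `S.t a = a` from `M.T z = z` at `{v}`;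
`a = nrm p S.t (y {v})` from `z = nrm p M.T y` at `{v}` (`(M.T^[i] y) A = S.t^[i] (y A)`). `Inj`: if `S.tau x h = h` and `h * a = nrm p (S.tau x) e`, let `δ e : Finset V → E` be the function `e` at `∅`, 0
elsewhere (`δ e ∈ suppG (KFB ∅ B) 0`, since `KFB ∅ B ∅` follows from `h1`). `φ = δ a` (support: only `∅` has 0 elements). Then `h • z = dK ∅ B (δ (h * a)) = dK ∅ B (δ (nrm p (S.tau x) e))
= nrm p (M.tau x) (dK ∅ B (δ e))` because `M.tau x (δ e) = δ (S.tau x e)` (`sg g ∅ = 1`, `g⁻¹ • ∅ = ∅`) and `dK ∅ B` commutes with `M.tau x` (`dK_rho`, `dK_tX`). As `dK ∅ B (δ e) ∈ Wg B 0`, `h` is a relative trace. -/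
theorem chain_bottom {p : ℕ} [Fact p.Prime] {E : Type} [Ring E] {P : Type} [Group P] [Fintype P] (S : Sys p E P)
    {V : Type} [Fintype V] [LinearOrder V] [MulAction P V] [Nonempty V] (x : P) (B : List (Finset V))
    (hK : ∀ (g : P) (A : Finset V), KFB ∅ B (g • A) ↔ KFB ∅ B A) (h1 : ∀ v : V, KFB ∅ B {v})
    (hG : (fmod S V).GoodE' x (Wg B 0)) :
    ∃ a : E, (∀ g : P, S.act g a = a) ∧ S.t a = a ∧ (∃ e : E, a = nrm p S.t e) ∧
      ∀ h : E, S.tau x h = h → (∃ e : E, h * a = nrm p (S.tau x) e) → ∃ e : E, h = nrm p (S.tau x) e := by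
  obtain ⟨z, hz, hr, hT, ⟨y, hy⟩, hinj⟩ := hG
  obtain ⟨φ, hφ, hφz⟩ := hz
  have hφz' : dK ∅ B φ = z := hφz
  have hempty : KFB ∅ B (∅ : Finset V) := by
    obtain ⟨v⟩ := ‹Nonempty V›
    exact ⟨Finset.empty_subset _, fun O hO hsub =>
      (h1 v).2 O hO (hsub.trans (Finset.empty_subset _))⟩
  have hzv : ∀ v : V, z {v} = φ ∅ := fun v => by
    rw [← hφz', C2_dK_single B h1]
  have hdl : ∀ e : E, (C2_dl e : Finset V → E) ∈ suppG (KFB ∅ B) 0 := by
    intro e A hA
    by_cases h0 : A = ∅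
    · subst h0
      exact ⟨hempty, Finset.card_empty⟩
    · exact absurd (C2_dl_ne e A h0) hA
  have hφdl : φ = C2_dl (φ ∅) := by
    funext A
    by_cases h0 : A = ∅
    · subst h0
      rw [C2_dl_empty]
    · rw [C2_dl_ne _ _ h0]
      by_contra h2
      exact h0 (Finset.card_eq_zero.mp (hφ A h2).2)
  obtain ⟨v0⟩ := ‹Nonempty V›
  refine ⟨φ ∅, ?_, ?_, ?_, ?_⟩
  · intro g
    have h2 := congrArg (fun f : Finset V → E => f {g • v0}) (hr g)
    change sg g (g⁻¹ • ({g • v0} : Finset V)) • S.act g (z (g⁻¹ • ({g • v0} : Finset V))) =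
      z {g • v0} at h2
    rw [C2_inv_single, C2_sg_single, one_smul, hzv, hzv] at h2
    exact h2
  · have h2 := congrArg (fun f : Finset V → E => f {v0}) hT
    change S.t (z {v0}) = z {v0} at h2
    rw [hzv] at h2
    exact h2
  · refine ⟨y {v0}, ?_⟩
    have h2 := congrArg (fun f : Finset V → E => f {v0}) hy
    have h3 : ∀ i : ℕ, ((fmod S V).T^[i] y) {v0} = (⇑S.t)^[i] (y {v0}) := by
      intro i
      induction i with
      | zero => rfl
      | succ i ih =>
        rw [Function.iterate_succ_apply', Function.iterate_succ_apply', ← ih]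
        rfl
    have h4 : (nrm p (fmod S V).T y) {v0} = nrm p S.t (y {v0}) := by
      unfold nrm
      rw [Finset.sum_apply]
      exact Finset.sum_congr rfl fun i _ => h3 i
    rw [← hzv v0, ← h4]
    exact h2
  · intro h hh ⟨e, he⟩
    refine hinj h hh ⟨dK ∅ B (C2_dl e), ⟨C2_dl e, hdl e, rfl⟩, ?_⟩
    rw [← C2_dK_nrm S x B hK, C2_nrm_dl, ← he, C2_dl_smul, ← hφdl, map_smul, hφz']

end Pool.Agent.H66Q
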