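import Pool.Agent.Lib.H66Q.Y1

set_option autoImplicit false
set_option linter.unusedVariables false
set_option linter.unusedSectionVars false

open scoped Pointwise

namespace Pool.Agent.H66Q

/-- Criterion for `Part`: a list of nonempty, pairwise disjoint finsets, disjoint from `F`, which together with `F` cover `V`. Induction on `B` for all `F`. -/
theorem part_of {V : Type} [Fintype V] [LinearOrder V] (B : List (Finset V)) : ∀ (F : Finset V)
    (h1 : ∀ O ∈ B, O.Nonempty) (h2 : ∀ O ∈ B, Disjoint F O) (h3 : B.Pairwise Disjoint)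
    (h4 : ∀ v : V, v ∈ F ∨ ∃ O ∈ B, v ∈ O), Part F B := by
  induction B with
  | nil =>
    intro F h1 h2 h3 h4
    change F = Finset.univ
    rw [Finset.eq_univ_iff_forall]
    intro v
    rcases h4 v with h | ⟨O, hO, -⟩
    · exact h
    · simp at hO
  | cons O B ih =>
    intro F h1 h2 h3 h4
    change O.Nonempty ∧ Disjoint F O ∧ Part (F ∪ O) B
    rw [List.pairwise_cons] at h3
    refine ⟨h1 O (by simp), h2 O (by simp), ih (F ∪ O) ?_ ?_ h3.2 ?_⟩
    · exact fun O' hO' => h1 O' (List.mem_cons_of_mem _ hO')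
    · intro O' hO'
      rw [Finset.disjoint_union_left]
      exact ⟨h2 O' (List.mem_cons_of_mem _ hO'), h3.1 O' hO'⟩
    · intro v
      rcases h4 v with h | ⟨O', hO', hv⟩
      · exact Or.inl (Finset.mem_union_left _ h)
      · rcases List.mem_cons.1 hO' with rfl | hO''
        · exact Or.inl (Finset.mem_union_right _ hv)
        · exact Or.inr ⟨O', hO'', hv⟩

section

variable {Y : Type} [Fintype Y] [LinearOrder Y] {P : Type} [Group P] [MulAction P Y] {p : ℕ} [Fact p.Prime]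

/-- Orbits in the doubled set. -/
theorem orb_dmk (x : P) (i : Fin 2) (y : Y) : orb p x (dmk i y : Dbl Y) = cpy i (orb p x y) := by
  unfold orb cpy
  rw [Finset.image_image]
  rfl

/-- Every element of the doubled set is `dmk i y`. -/
theorem dbl_cases (v : Dbl Y) : ∃ (i : Fin 2) (y : Y), v = dmk i y :=
  ⟨(ofLex v).1, (ofLex v).2, rfl⟩

private theorem Y2_dmk_inj {i j : Fin 2} {y z : Y} (h : (dmk i y : Dbl Y) = dmk j z) :
    i = j ∧ y = z := by
  have h1 : (i, y) = (j, z) := toLex.injective h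
  exact ⟨congrArg Prod.fst h1, congrArg Prod.snd h1⟩

private theorem Y2_mem_cpy {i : Fin 2} {O : Finset Y} {v : Dbl Y} :
    v ∈ cpy i O ↔ ∃ y ∈ O, dmk i y = v := by
  unfold cpy
  exact Finset.mem_image

private theorem Y2_disj {i j : Fin 2} {O O' : Finset Y} (h : i ≠ j ∨ Disjoint O O') :
    Disjoint (cpy i O) (cpy j O') := by
  rw [Finset.disjoint_left]
  intro v hv hv'
  obtain ⟨y, hy, rfl⟩ := Y2_mem_cpy.1 hv
  obtain ⟨z, hz, hzy⟩ := Y2_mem_cpy.1 hv'
  obtain ⟨h1, h2⟩ := Y2_dmk_inj hzy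
  rcases h with h | h
  · exact h h1.symm
  · exact Finset.disjoint_left.1 h hy (h2 ▸ hz)

theorem mem_dblL (L : List (Finset Y)) (O : Finset (Dbl Y)) :
    O ∈ dblL L ↔ ∃ (i : Fin 2), ∃ O' ∈ L, O = cpy i O' := by
  induction L with
  | nil => simp [dblL]
  | cons A L ih =>
    change O ∈ cpy 0 A :: cpy 1 A :: dblL L ↔ _
    rw [List.mem_cons, List.mem_cons, ih]
    constructor
    · rintro (h | h | ⟨i, O', hO', h⟩)
      · exact ⟨0, A, by simp, h⟩
      · exact ⟨1, A, by simp, h⟩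
      · exact ⟨i, O', List.mem_cons_of_mem _ hO', h⟩
    · rintro ⟨i, O', hO', h⟩
      rcases List.mem_cons.1 hO' with rfl | hO''
      · have hi : i = 0 ∨ i = 1 := by
          fin_cases i
          · exact Or.inl rfl
          · exact Or.inr rfl
        rcases hi with rfl | rfl
        · exact Or.inl h
        · exact Or.inr (Or.inl h)
      · exact Or.inr (Or.inr ⟨i, O', hO'', h⟩)

theorem dblL_length (L : List (Finset Y)) : (dblL L).length = 2 * L.length := by
  induction L with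
  | nil => rfl
  | cons A L ih =>
    change (cpy 0 A :: cpy 1 A :: dblL L).length = _
    rw [List.length_cons, List.length_cons, List.length_cons, ih]
    ring

theorem card_dbl : Fintype.card (Dbl Y) = 2 * Fintype.card Y := by
  have h : Fintype.card (Dbl Y) = Fintype.card (Fin 2 × Y) := rfl
  rw [h, Fintype.card_prod, Fintype.card_fin]

private theorem Y2_pw (L : List (Finset Y)) (h : L.Pairwise Disjoint) :
    (dblL L).Pairwise Disjoint := by
  induction L with
  | nil => exact List.Pairwise.nil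
  | cons A L ih =>
    rw [List.pairwise_cons] at h
    change (cpy 0 A :: cpy 1 A :: dblL L).Pairwise Disjoint
    rw [List.pairwise_cons, List.pairwise_cons]
    refine ⟨?_, ?_, ih h.2⟩
    · intro O hO
      rcases List.mem_cons.1 hO with rfl | hO'
      · exact Y2_disj (Or.inl (by decide))
      · obtain ⟨i, O', hO'', rfl⟩ := (mem_dblL L O).1 hO'
        exact Y2_disj (Or.inr (h.1 O' hO''))
    · intro O hO
      obtain ⟨i, O', hO'', rfl⟩ := (mem_dblL L O).1 hO
      exact Y2_disj (Or.inr (h.1 O' hO''))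

/-- The copies of the orbits form a partition of the doubled set (`part_of`, `orb_disj`, `orb_dmk`; the list `dblL L` is pairwise disjoint because `L` is a nodup list of orbits and the
copies are different). -/
theorem part_dbl (x : P) (hx : x ^ p = 1) (L : List (Finset Y)) (hL : L.Nodup)
    (hL' : ∀ O : Finset Y, O ∈ L ↔ ∃ y : Y, O = orb p x y) : Part ∅ (dblL L) := by
  refine part_of (dblL L) ∅ ?_ ?_ ?_ ?_
  · intro O hO
    obtain ⟨i, O', hO', rfl⟩ := (mem_dblL L O).1 hO
    obtain ⟨y, rfl⟩ := (hL' O').1 hO'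
    exact ⟨dmk i y, Y2_mem_cpy.2 ⟨y, mem_orb_self x y, rfl⟩⟩
  · intro O _
    exact Finset.disjoint_empty_left O
  · refine Y2_pw L ?_
    refine List.Pairwise.imp_of_mem ?_ hL
    intro A B hA hB hne
    obtain ⟨y, rfl⟩ := (hL' A).1 hA
    obtain ⟨z, rfl⟩ := (hL' B).1 hB
    exact orb_disj x hx y z hne
  · intro v
    obtain ⟨i, y, rfl⟩ := dbl_cases v
    refine Or.inr ⟨cpy i (orb p x y), (mem_dblL L _).2 ⟨i, orb p x y, (hL' _).2 ⟨y, rfl⟩, rfl⟩, ?_⟩
    exact Y2_mem_cpy.2 ⟨y, mem_orb_self x y, rfl⟩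

/-- Faces. -/
theorem face_dbl (x : P) (L : List (Finset Y)) (hL' : ∀ O : Finset Y, O ∈ L ↔ ∃ y : Y, O = orb p x y)
    (A : Finset (Dbl Y)) : KFB ∅ (dblL L) A ↔ ∀ v : Dbl Y, ¬ orb p x v ⊆ A := by
  constructor
  · rintro ⟨-, h⟩ v
    obtain ⟨i, y, rfl⟩ := dbl_cases v
    rw [orb_dmk]
    exact h _ ((mem_dblL L _).2 ⟨i, orb p x y, (hL' _).2 ⟨y, rfl⟩, rfl⟩)
  · intro h
    refine ⟨Finset.empty_subset _, fun O hO => ?_⟩
    obtain ⟨i, O', hO', rfl⟩ := (mem_dblL L O).1 hO
    obtain ⟨y, rfl⟩ := (hL' O').1 hO'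
    rw [← orb_dmk]
    exact h _

/-- The family of faces is invariant. (`face_dbl`, `smul_orb` on `Dbl Y`: `hcomm` holds there too by `smul_dmk`; `orb p x v ⊆ g • A ↔ g⁻¹ • orb p x v ⊆ A`.) -/
theorem face_smul (x : P) (hcomm : ∀ (g : P) (v : Y), g • x • v = x • g • v) (L : List (Finset Y))
    (hL' : ∀ O : Finset Y, O ∈ L ↔ ∃ y : Y, O = orb p x y) (g : P) (A : Finset (Dbl Y)) :
    KFB ∅ (dblL L) (g • A) ↔ KFB ∅ (dblL L) A := by
  have hc : ∀ (g : P) (v : Dbl Y), g • x • v = x • g • v := by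
    intro g v
    obtain ⟨i, y, rfl⟩ := dbl_cases v
    rw [smul_dmk, smul_dmk, smul_dmk, smul_dmk, hcomm]
  rw [face_dbl x L hL', face_dbl x L hL']
  have key : ∀ v : Dbl Y, orb p x v ⊆ g • A ↔ orb p x (g⁻¹ • v) ⊆ A := by
    intro v
    rw [Finset.subset_smul_finset_iff, smul_orb x hc]
  constructor
  · intro h v hv
    refine h (g • v) ?_
    rw [key, inv_smul_smul]
    exact hv
  · intro h v hv
    exact h _ ((key v).1 hv)

/-- Degrees: `card (Dbl Y) = (dblL L).length + 2 * m` with `m ≥ 1`: `m = (p - 1) * L.length` (`orbits_length`; `L` is nonempty because `Y` is). -/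
theorem degree_dbl [Nonempty Y] (x : P) (hx : x ^ p = 1) (hfree : ∀ v : Y, x • v ≠ v) (L : List (Finset Y)) (hL : L.Nodup)
    (hL' : ∀ O : Finset Y, O ∈ L ↔ ∃ y : Y, O = orb p x y) :
    ∃ m : ℕ, 1 ≤ m ∧ 2 * m + (dblL L).length = Fintype.card (Dbl Y) := by
  have hp : 2 ≤ p := (Fact.out : p.Prime).two_le
  have h1 := orbits_length x hx hfree L hL hL'
  have h2 : 1 ≤ L.length := by
    obtain ⟨y⟩ := ‹Nonempty Y›
    exact List.length_pos_of_mem ((hL' _).2 ⟨y, rfl⟩)
  refine ⟨(p - 1) * L.length, ?_, ?_⟩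
  · exact Nat.one_le_iff_ne_zero.2 (Nat.mul_ne_zero (by omega) (by omega))
  · rw [dblL_length, card_dbl, ← h1]
    obtain ⟨q, rfl⟩ : ∃ q, p = q + 1 := ⟨p - 1, by omega⟩
    simp only [Nat.add_sub_cancel]
    ring

end

end Pool.Agent.H66Q
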