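import Pool.Agent.Lib.H66Q.C1
import Pool.Agent.Lib.H66Q.C2
import Pool.Agent.Lib.H66Q.Y2

set_option autoImplicit false
set_option linter.unusedVariables false
set_option linter.unusedSectionVars false

open scoped Pointwise

namespace Pool.Agent.H66Q

private theorem C3_free {P : Type} [Group P] {Y : Type} [LinearOrder Y] [MulAction P Y] (x : P)
    (hfree : ∀ y : Y, x • y ≠ y) (v : Dbl Y) : x • v ≠ v := by
  intro h
  obtain ⟨i, y, rfl⟩ : ∃ (i : Fin 2) (y : Y), v = dmk i y := ⟨(ofLex v).1, (ofLex v).2, rfl⟩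
  rw [smul_dmk] at h
  have h1 : (i, x • y) = (i, y) := toLex.injective h
  exact hfree y (congrArg Prod.snd h1)

/-- (A1) for a finite `P`-set `Y` on which `x` acts without fixed points and commutes with `P`. Proof. `L` from `exists_orbits p x`, `V = Dbl Y`, `B = dblL L`. `part_dbl`, `face_smul`, `face_dbl` give the hypotheses of
`chain_top`, `chain_mid`, and `Phi_rho` with `orbits_perm` the equivariance `hPhi`. `degree_dbl`: `2 * m + B.length = card V`, `m ≥ 1`. `chain_top` with `n = 2 * m - 1`: `GoodO x (Wg B (2m-1))`. Induction on `j ≤ m - 1`: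
`GoodO x (Wg B (2m - 1 - 2j))` (two middle steps: `GoodO → GoodE' → GoodE → GoodO`, all degrees `k + 1` with `k + 1 + B.length < card V`). For `j = m - 1`: `GoodO x (Wg B 1)`, and one more middle step (`k = 0`, `1 < 2m`): `GoodE' x (Wg B 0)`.
`chain_bottom`: singletons are faces since an orbit has `p ≥ 2` elements (`orb_card` on `Dbl Y`, or two different elements `v`, `x • v` of the orbit). `Dbl Y` is nonempty. -/
theorem a1Y {p : ℕ} [Fact p.Prime] {E : Type} [Ring E] {P : Type} [Group P] [Fintype P] (S : Sys p E P) (x : P)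
    (hx : x ^ p = 1) {Y : Type} [Fintype Y] [LinearOrder Y] [Nonempty Y] [MulAction P Y]
    (hfree : ∀ y : Y, x • y ≠ y) (hcomm : ∀ (g : P) (y : Y), g • x • y = x • g • y) :
    ∃ a : E, (∀ g : P, S.act g a = a) ∧ S.t a = a ∧ (∃ e : E, a = nrm p S.t e) ∧
      ∀ h : E, S.tau x h = h → (∃ e : E, h * a = nrm p (S.tau x) e) → ∃ e : E, h = nrm p (S.tau x) e := by
  obtain ⟨L, hLn, hLm⟩ := exists_orbits (Y := Y) p x
  have hP : Part ∅ (dblL L) := part_dbl x hx L hLn hLm
  have hK : ∀ (g : P) (A : Finset (Dbl Y)), KFB ∅ (dblL L) (g • A) ↔ KFB ∅ (dblL L) A :=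
    fun g A => face_smul x hcomm L hLm g A
  have hB : ∀ A : Finset (Dbl Y), KFB ∅ (dblL L) A → ∀ v : Dbl Y, ¬ orb p x v ⊆ A :=
    fun A hA => (face_dbl x L hLm A).1 hA
  have hPhi : ∀ (g : P) (φ : Finset (Dbl Y) → E),
      Phi (dblL L) (rho S.act g φ) = S.act g (Phi (dblL L) φ) :=
    fun g φ => Phi_rho S.act L g (orbits_perm x hcomm L hLn hLm g) φ
  obtain ⟨m, hm1, hm⟩ := degree_dbl x hx hfree L hLn hLm
  have hchain : ∀ j k : ℕ, k + 2 * j + 1 = 2 * m →
      (fmod S (Dbl Y)).GoodO x (Wg (dblL L) k) := by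
    intro j
    induction j with
    | zero =>
      intro k hk
      exact chain_top S x hx (dblL L) hP hK hB hPhi k (by omega)
    | succ j ih =>
      intro k hk
      have h1 := ih (k + 2) (by omega)
      have h2 := (chain_mid S x hx (dblL L) hP hK hB (k + 1) (by omega)).2 h1
      exact (chain_mid S x hx (dblL L) hP hK hB k (by omega)).1 h2.toGoodE
  have h1 := hchain (m - 1) 1 (by omega)
  have h0 := (chain_mid S x hx (dblL L) hP hK hB 0 (by omega)).2 h1
  have hne : Nonempty (Dbl Y) := by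
    obtain ⟨y⟩ := ‹Nonempty Y›
    exact ⟨dmk 0 y⟩
  refine chain_bottom S x (dblL L) hK ?_ h0
  intro v
  rw [face_dbl x L hLm]
  intro w hw
  have h2 := Finset.card_le_card hw
  rw [orb_card x hx (C3_free x hfree) w, Finset.card_singleton] at h2
  have h3 := (Fact.out : p.Prime).two_le
  omega

end Pool.Agent.H66Q
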