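import Pool.Agent.Lib.H66Q.Defs

set_option autoImplicit false
set_option linter.unusedVariables false
set_option linter.unusedSectionVars false

open scoped Pointwise

namespace Pool.Agent.H66Q

/-- Let `P` be a finite `p`-group, `x ≠ 1`. There is a normal subgroup `N`, `x ∉ N`, with `x` central modulo `N`. Proof. Among the normal subgroups not containing `x` (finitely many, `⊥` is one) choose a maximal one `N`
(`Set.Finite.exists_maximal` or maximal cardinality). `Q = P ⧸ N` is a nontrivial finite `p`-group (`IsPGroup.to_quotient`), so its center is nontrivial (`IsPGroup.center_nontrivial`). The preimage `N'` of the center in `P` is normal and strictly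
larger than `N`, so `x ∈ N'` by maximality: the image of `x` is central. -/
theorem exists_normal {p : ℕ} [Fact p.Prime] {P : Type} [Group P] [Fintype P] (hP : IsPGroup p P) (x : P) (hx : x ≠ 1) :
    ∃ N : Subgroup P, N.Normal ∧ x ∉ N ∧ ∀ g : P, (x * g)⁻¹ * (g * x) ∈ N := by
  have hfin : {N : Subgroup P | N.Normal ∧ x ∉ N}.Finite := Set.toFinite _
  have hne : {N : Subgroup P | N.Normal ∧ x ∉ N}.Nonempty :=
    ⟨⊥, Subgroup.normal_bot, fun h => hx (Subgroup.mem_bot.1 h)⟩
  obtain ⟨N, ⟨hN, hxN⟩, hmax⟩ := hfin.exists_maximal hne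
  refine ⟨N, hN, hxN, fun g => ?_⟩
  have hnt : Nontrivial (P ⧸ N) :=
    ⟨(x : P ⧸ N), 1, fun h => hxN ((QuotientGroup.eq_one_iff x).1 h)⟩
  have hQ : IsPGroup p (P ⧸ N) := hP.to_quotient N
  have hc : Nontrivial (Subgroup.center (P ⧸ N)) := hQ.center_nontrivial
  obtain ⟨z, hz⟩ := exists_ne (1 : Subgroup.center (P ⧸ N))
  obtain ⟨y, hy⟩ := QuotientGroup.mk_surjective (z : P ⧸ N)
  have hle : N ≤ (Subgroup.center (P ⧸ N)).comap (QuotientGroup.mk' N) := by
    intro w hw
    rw [Subgroup.mem_comap, QuotientGroup.mk'_apply, (QuotientGroup.eq_one_iff w).2 hw]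
    exact Subgroup.one_mem _
  have hyN' : y ∈ (Subgroup.center (P ⧸ N)).comap (QuotientGroup.mk' N) := by
    rw [Subgroup.mem_comap, QuotientGroup.mk'_apply, hy]
    exact z.2
  have hyN : y ∉ N := by
    intro h
    apply hz
    ext
    rw [← hy]
    exact (QuotientGroup.eq_one_iff y).2 h
  have hxN' : x ∈ (Subgroup.center (P ⧸ N)).comap (QuotientGroup.mk' N) := by
    by_contra hcon
    exact hyN (hmax ⟨inferInstance, hcon⟩ hle hyN')
  rw [Subgroup.mem_comap, QuotientGroup.mk'_apply, Subgroup.mem_center_iff] at hxN'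
  have h1 := hxN' (g : P ⧸ N)
  exact QuotientGroup.eq.1 h1.symm

end Pool.Agent.H66Q
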