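import Pool.Agent.Lib.H66Q.C3
import Pool.Agent.Lib.H66Q.G1

set_option autoImplicit false
set_option linter.unusedVariables false
set_option linter.unusedSectionVars false

open scoped Pointwise

namespace Pool.Agent.H66Q

/-- (A1). `N` from `exists_normal`, `Y = P ⧸ N` with the action of `P` by left multiplication, any linear order (e.g. `LinearOrder.lift'` of `Fintype.equivFin`, classical). `x • y = y` with `y = gN` would give `g⁻¹ * x * g ∈ N`, so `x ∈ N`.
`g • x • (hN) = x • g • (hN)`: `(x g h)⁻¹ (g x h) = h⁻¹ ((x g)⁻¹ (g x)) h ∈ N` by normality. Apply `a1Y`. -/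
theorem a1 {p : ℕ} [Fact p.Prime] {E : Type} [Ring E] {P : Type} [Group P] [Fintype P] (S : Sys p E P) (hP : IsPGroup p P) (x : P)
    (hx : orderOf x = p) :
    ∃ a : E, (∀ g : P, S.act g a = a) ∧ S.t a = a ∧ (∃ e : E, a = nrm p S.t e) ∧
      ∀ h : E, S.tau x h = h → (∃ e : E, h * a = nrm p (S.tau x) e) → ∃ e : E, h = nrm p (S.tau x) e := by
  classical
  have hp : p.Prime := Fact.out
  have hx1 : x ≠ 1 := by
    rintro rfl
    rw [orderOf_one] at hx
    exact hp.one_lt.ne hx
  obtain ⟨N, hN, hxN, hc⟩ := exists_normal hP x hx1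
  let _i : Fintype (P ⧸ N) := Fintype.ofFinite _
  let _i : LinearOrder (P ⧸ N) :=
    LinearOrder.lift' (Fintype.equivFin (P ⧸ N)) (Fintype.equivFin (P ⧸ N)).injective
  have hxp : x ^ p = 1 := by
    rw [← hx]
    exact pow_orderOf_eq_one x
  refine a1Y S x hxp (Y := P ⧸ N) ?_ ?_
  · intro y
    induction y using QuotientGroup.induction_on with
    | H g =>
      intro h0
      have h1 : ((x * g : P) : P ⧸ N) = (g : P ⧸ N) := h0
      rw [QuotientGroup.eq] at h1
      apply hxN
      have h2 := hN.conj_mem _ h1 g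
      have h3 : g * ((x * g)⁻¹ * g) * g⁻¹ = x⁻¹ := by group
      rw [h3] at h2
      have h4 := N.inv_mem h2
      rwa [inv_inv] at h4
  · intro g y
    induction y using QuotientGroup.induction_on with
    | H h =>
      have h1 : ((g * (x * h) : P) : P ⧸ N) = ((x * (g * h) : P) : P ⧸ N) := by
        rw [QuotientGroup.eq]
        have h2 := hN.conj_mem _ (N.inv_mem (hc g)) h⁻¹
        have h3 : h⁻¹ * ((x * g)⁻¹ * (g * x))⁻¹ * h⁻¹⁻¹ = (g * (x * h))⁻¹ * (x * (g * h)) := by
          group
        rwa [h3] at h2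
      exact h1

end Pool.Agent.H66Q
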