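import Mathlib

/-!
# Prime graph question (MP_ed2cdf_al): definitions

All definitions of the library H66Q. See PROOF.md for the mathematics.
-/

set_option autoImplicit false
set_option linter.unusedVariables false
set_option linter.unusedSectionVars false

open scoped Pointwise

namespace Pool.Agent.H66Q

/-- Relative trace: the sum of the first `q` iterates of `τ` at `z` (starting with `z` itself). -/
def nrm {X : Type} [AddCommMonoid X] (q : ℕ) (τ : X → X) (z : X) : X :=
  ∑ i ∈ Finset.range q, τ^[i] z

/-- Conjugation with a unit, as a homomorphism to the ring automorphisms: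
`conjR v z = v * z * v⁻¹`. -/
def conjR {E : Type} [Ring E] : Eˣ →* RingAut E where
  toFun v :=
    { toFun := fun z => (v : E) * z * ((v⁻¹ : Eˣ) : E)
      invFun := fun z => ((v⁻¹ : Eˣ) : E) * z * (v : E)
      left_inv := fun z => by simp [mul_assoc]
      right_inv := fun z => by simp [mul_assoc]
      map_mul' := fun y z => by simp [mul_assoc]
      map_add' := fun y z => by simp [mul_add, add_mul] }
  map_one' := by ext z; simp
  map_mul' := fun v w => by ext z; simp [mul_assoc, RingAut.mul_apply]

theorem conjR_apply {E : Type} [Ring E] (v : Eˣ) (z : E) :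
    conjR v z = (v : E) * z * ((v⁻¹ : Eˣ) : E) := rfl

/-- A ring `E` with a finite group `G` acting by ring automorphisms, an automorphism `t` with `t ^ p = 1`
commuting with `G`, and an element `b` with `∑ g, g • b = 1`. -/
structure Sys (p : ℕ) (E : Type) [Ring E] (G : Type) [Group G] [Fintype G] where
  act : G →* RingAut E
  t : RingAut E
  htp : t ^ p = 1
  comm : ∀ g : G, Commute (act g) t
  b : E
  hb : ∑ g : G, act g b = 1

namespace Sys

variable {p : ℕ} {E : Type} [Ring E] {G : Type} [Group G] [Fintype G]

/-- The automorphism `τ_x = t ∘ x`. -/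
def tau (S : Sys p E G) (x : G) : RingAut E := S.t * S.act x

/-- Restriction to a subgroup. -/
def restrict (S : Sys p E G) (H : Subgroup G) [Fintype H] (b' : E) (hb' : ∑ h : H, S.act h b' = 1) :
    Sys p E H where
  act := S.act.comp H.subtype
  t := S.t
  htp := S.htp
  comm h := S.comm h
  b := b'
  hb := hb'

end Sys

/-- A left `E`-module `X` with compatible (semilinear, additive) actions `r` of the group and `T` of `t`. -/
structure EMod {p : ℕ} {E : Type} [Ring E] {P : Type} [Group P] [Fintype P] (S : Sys p E P)
    (X : Type) [AddCommGroup X] [Module E X] where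
  r : P → X →+ X
  T : X →+ X
  r_one : ∀ φ : X, r 1 φ = φ
  r_mul : ∀ (g h : P) (φ : X), r (g * h) φ = r g (r h φ)
  r_smul : ∀ (g : P) (e : E) (φ : X), r g (e • φ) = (S.act g e) • r g φ
  T_smul : ∀ (e : E) (φ : X), T (e • φ) = (S.t e) • T φ
  T_pow : ∀ φ : X, T^[p] φ = φ
  comm : ∀ (g : P) (φ : X), T (r g φ) = r g (T φ)

namespace EMod

variable {p : ℕ} {E : Type} [Ring E] {P : Type} [Group P] [Fintype P] {S : Sys p E P}
  {X : Type} [AddCommGroup X] [Module E X]

/-- `τ_x = T ∘ r x` on the module. -/
def tau (M : EMod S X) (x : P) : X →+ X := M.T.comp (M.r x)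

/-- The even condition for an additive subgroup `Z` of `X`. -/
def GoodE (M : EMod S X) (x : P) (Z : AddSubgroup X) : Prop :=
  ∃ z ∈ Z, (∀ g : P, M.r g z = z) ∧ M.T z = z ∧
    ∀ h : E, S.tau x h = h → (∃ w ∈ Z, h • z = nrm p (M.tau x) w) → ∃ e : E, h = nrm p (S.tau x) e

/-- The even condition, where moreover the good element is a relative trace for `T`. -/
def GoodE' (M : EMod S X) (x : P) (Z : AddSubgroup X) : Prop :=
  ∃ z ∈ Z, (∀ g : P, M.r g z = z) ∧ M.T z = z ∧ (∃ y : X, z = nrm p M.T y) ∧
    ∀ h : E, S.tau x h = h → (∃ w ∈ Z, h • z = nrm p (M.tau x) w) → ∃ e : E, h = nrm p (S.tau x) e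

theorem GoodE'.toGoodE {M : EMod S X} {x : P} {Z : AddSubgroup X} (h : M.GoodE' x Z) : M.GoodE x Z := by
  obtain ⟨z, hz, h1, h2, -, h4⟩ := h
  exact ⟨z, hz, h1, h2, h4⟩

/-- The odd condition for an additive subgroup `Z` of `X`. -/
def GoodO (M : EMod S X) (x : P) (Z : AddSubgroup X) : Prop :=
  ∃ z ∈ Z, (∀ g : P, M.r g z = z) ∧ nrm p M.T z = 0 ∧
    ∀ h : E, S.tau x h = h → (∃ w ∈ Z, h • z = M.tau x w - w) → ∃ e : E, h = nrm p (S.tau x) e

/-- The ring itself as an `EMod`. -/
def self (S : Sys p E P) : EMod S E where
  r g := (S.act g : E ≃+* E).toAddEquiv.toAddMonoidHom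
  T := (S.t : E ≃+* E).toAddEquiv.toAddMonoidHom
  r_one φ := by simp
  r_mul g h φ := by simp [RingAut.mul_apply]
  r_smul g e φ := by simp
  T_smul e φ := by simp
  T_pow φ := by
    have h : ∀ n : ℕ, ((S.t : E ≃+* E).toAddEquiv.toAddMonoidHom)^[n] φ = (S.t ^ n) φ := by
      intro n
      induction n with
      | zero => simp
      | succ n ih => rw [Function.iterate_succ_apply', ih, pow_succ']; rfl
    rw [h, S.htp]; rfl
  comm g φ := by
    have := congrArg (fun f : RingAut E => f φ) (S.comm g).eq
    simp only [RingAut.mul_apply] at this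
    exact this.symm

end EMod

/-! ### Signs and operators on functions `Finset V → E` -/

section Signs

variable {V : Type} [LinearOrder V]

/-- `(-1)` to the number of elements of `S` smaller than `v`. -/
def eps (v : V) (S : Finset V) : ℤ := (-1) ^ (S.filter (fun w => w < v)).card

variable {E : Type} [Ring E]

/-- Insertion of the vertex `v`. -/
def ins (v : V) : (Finset V → E) →ₗ[E] (Finset V → E) where
  toFun φ S := if v ∈ S then eps v (S.erase v) • φ (S.erase v) else 0
  map_add' φ ψ := by
    funext S; by_cases h : v ∈ S <;> simp [h]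
  map_smul' e φ := by
    funext S
    by_cases h : v ∈ S
    · simp only [h, if_true, Pi.smul_apply, RingHom.id_apply]
      rw [smul_comm]
    · simp [h]

theorem ins_apply (v : V) (φ : Finset V → E) (S : Finset V) :
    ins v φ S = if v ∈ S then eps v (S.erase v) • φ (S.erase v) else 0 := rfl

/-- Contraction with the vertex `v`. -/
def con (v : V) : (Finset V → E) →ₗ[E] (Finset V → E) where
  toFun φ S := if v ∈ S then 0 else eps v S • φ (insert v S)
  map_add' φ ψ := by
    funext S; by_cases h : v ∈ S <;> simp [h]
  map_smul' e φ := by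
    funext S
    by_cases h : v ∈ S
    · simp [h]
    · simp only [h, if_false, Pi.smul_apply, RingHom.id_apply]
      rw [smul_comm]

theorem con_apply (v : V) (φ : Finset V → E) (S : Finset V) :
    con v φ S = if v ∈ S then 0 else eps v S • φ (insert v S) := rfl

/-- Sum of the insertions of the vertices in `O`. -/
def Dl (O : Finset V) : (Finset V → E) →ₗ[E] (Finset V → E) := ∑ v ∈ O, ins v

open Classical in
/-- Restriction of a function to the sets with the property `K`. -/
noncomputable def res (K : Finset V → Prop) : (Finset V → E) →ₗ[E] (Finset V → E) where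
  toFun φ S := if K S then φ S else 0
  map_add' φ ψ := by
    funext S; by_cases h : K S <;> simp [h]
  map_smul' e φ := by
    funext S; by_cases h : K S <;> simp [h]

open Classical in
theorem res_apply (K : Finset V → Prop) (φ : Finset V → E) (S : Finset V) :
    res K φ S = if K S then φ S else 0 := rfl

/-- `S` contains `F` and contains no member of the list `B`. -/
def KFB (F : Finset V) (B : List (Finset V)) (S : Finset V) : Prop :=
  F ⊆ S ∧ ∀ O ∈ B, ¬ O ⊆ S

/-- The restricted coboundary. -/
noncomputable def dK [Fintype V] (F : Finset V) (B : List (Finset V)) :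
    (Finset V → E) →ₗ[E] (Finset V → E) := (res (KFB F B)).comp (Dl Finset.univ)

/-- `φ` is supported on the sets with the property `K` and with exactly `k` elements. -/
def Supp (K : Finset V → Prop) (k : ℕ) (φ : Finset V → E) : Prop :=
  ∀ S, φ S ≠ 0 → K S ∧ S.card = k

/-- The functions with `Supp K k`, as an additive subgroup. -/
def suppG (K : Finset V → Prop) (k : ℕ) : AddSubgroup (Finset V → E) where
  carrier := {φ | Supp K k φ}
  zero_mem' := by intro S hS; simp at hS
  add_mem' := by
    intro φ ψ hφ hψ S hS
    by_cases h : φ S = 0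
    · refine hψ S (fun h' => hS ?_)
      simp [h, h']
    · exact hφ S h
  neg_mem' := by
    intro φ hφ S hS
    exact hφ S (fun h => hS (by simp [h]))

/-- The evaluation functional: apply `Dl O` for the members of the list one after the other (the head first)
and evaluate at the full set. -/
def Phi [Fintype V] : List (Finset V) → (Finset V → E) → E
  | [], φ => φ Finset.univ
  | O :: B, φ => Phi B (Dl O φ)

/-- `F` and the members of the list `B` form a partition of `V`. -/
def Part [Fintype V] : Finset V → List (Finset V) → Prop
  | F, [] => F = Finset.univ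
  | F, O :: B => O.Nonempty ∧ Disjoint F O ∧ Part (F ∪ O) B

variable {P : Type} [Group P] [MulAction P V]

/-- The sign of `g` on the set `S`: `(-1)` to the number of pairs `v < w` in `S` with `g w < g v`. -/
def sg (g : P) (S : Finset V) : ℤ :=
  ∏ v ∈ S, ∏ w ∈ S.filter (fun w => v < w), (if g • w < g • v then (-1 : ℤ) else 1)

/-- The signed action of `g` on the functions `Finset V → E`. -/
def rho (act : P →* RingAut E) (g : P) : (Finset V → E) →+ (Finset V → E) where
  toFun φ S := sg g (g⁻¹ • S) • act g (φ (g⁻¹ • S))
  map_zero' := by funext S; simp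
  map_add' φ ψ := by funext S; simp

theorem rho_apply (act : P →* RingAut E) (g : P) (φ : Finset V → E) (S : Finset V) :
    rho act g φ S = sg g (g⁻¹ • S) • act g (φ (g⁻¹ • S)) := rfl

/-- The action of `t` on functions, pointwise. -/
def tX (t : RingAut E) : (Finset V → E) →+ (Finset V → E) where
  toFun φ S := t (φ S)
  map_zero' := by funext S; simp
  map_add' φ ψ := by funext S; simp

/-- The orbit of `v` under the powers of `x`, as a finset (`x ^ p = 1`). -/
def orb (p : ℕ) (x : P) (v : V) : Finset V := (Finset.range p).image (fun i => x ^ i • v)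

end Signs

/-! ### The doubled set -/

/-- Two copies of `Y`, ordered lexicographically (the copy first). -/
def Dbl (Y : Type) : Type := Fin 2 ×ₗ Y

instance (Y : Type) [Fintype Y] : Fintype (Dbl Y) := inferInstanceAs (Fintype (Fin 2 × Y))

instance (Y : Type) [LinearOrder Y] : LinearOrder (Dbl Y) := inferInstanceAs (LinearOrder (Fin 2 ×ₗ Y))

/-- Element of the doubled set. -/
def dmk {Y : Type} (i : Fin 2) (y : Y) : Dbl Y := toLex (i, y)

instance (Y : Type) (P : Type) [Group P] [MulAction P Y] : MulAction P (Dbl Y) where
  smul g v := dmk (ofLex v).1 (g • (ofLex v).2)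
  one_smul v := by
    change toLex ((ofLex v).1, (1 : P) • (ofLex v).2) = v
    rw [one_smul]; rfl
  mul_smul g h v := by
    change toLex ((ofLex v).1, (g * h) • (ofLex v).2) = toLex ((ofLex v).1, g • h • (ofLex v).2)
    rw [mul_smul]

theorem smul_dmk {Y : Type} {P : Type} [Group P] [MulAction P Y] (g : P) (i : Fin 2) (y : Y) :
    g • (dmk i y : Dbl Y) = dmk i (g • y) := rfl

/-- The copy number `i` of a finset of `Y` in the doubled set. -/
def cpy {Y : Type} [LinearOrder Y] (i : Fin 2) (O : Finset Y) : Finset (Dbl Y) :=
  O.image (dmk i)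

/-- From a list of finsets of `Y` the list of the copies, in pairs. -/
def dblL {Y : Type} [LinearOrder Y] : List (Finset Y) → List (Finset (Dbl Y))
  | [] => []
  | O :: L => cpy 0 O :: cpy 1 O :: dblL L

/-! ### Matrices indexed by a group -/

section Mat

variable {G : Type} [Group G] [Fintype G] [DecidableEq G] (R : Type) [CommRing R]

/-- The permutation matrix of the right multiplication by `g`. -/
def Pm (g : G) : Matrix G G R := Matrix.of fun a b => if b = a * g then 1 else 0

/-- `G` acts on matrices by reindexing: `(actM g M) a b = M (a g) (b g)`. -/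
def actM : G →* RingAut (Matrix G G R) where
  toFun g :=
    { toFun := fun M => Matrix.of fun a b => M (a * g) (b * g)
      invFun := fun M => Matrix.of fun a b => M (a * g⁻¹) (b * g⁻¹)
      left_inv := fun M => by ext a b; simp
      right_inv := fun M => by ext a b; simp
      map_mul' := fun M N => by
        ext a b
        simp only [Matrix.of_apply, Matrix.mul_apply]
        exact (Equiv.sum_comp (Equiv.mulRight g) (fun c => M (a * g) c * N c (b * g))).symm
      map_add' := fun M N => by ext a b; simp }
  map_one' := by ext M a b; simp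
  map_mul' := fun g h => by ext M a b; simp [RingAut.mul_apply, mul_assoc]

theorem actM_apply (g : G) (M : Matrix G G R) (a b : G) : actM R g M a b = M (a * g) (b * g) := rfl

/-- Invariant matrices = matrices of left multiplications: `M (a g) (b g) = M a b`. -/
def Inv (M : Matrix G G R) : Prop := ∀ g a b : G, M (a * g) (b * g) = M a b

end Mat

end Pool.Agent.H66Q
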