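import Pool.Agent.Lib.H66Q.LD

set_option autoImplicit false
set_option linter.unusedVariables false
set_option linter.unusedSectionVars false

namespace Pool.Agent.H66Q

/-! Chunk L3 (S/M). Class sums and augmentation. -/

/-- Proof. Swap the sums: `∑_g [p ∤ |g|] ∑_b y(b g b⁻¹) = ∑_b ∑_g [p ∤ |g|] y(b g b⁻¹)`, substitute `g' = b g b⁻¹` (same order: `orderOf_injective` with
`MulAut.conj b`, or `SemiconjBy`), so every `b` contributes `theta p y`. (`theta` is defined with `open Classical`; use `simp only`/`convert`-free rewriting of the decidability instance if needed: `if` on both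
sides may carry different instances of `Decidable`, `split_ifs` works.) -/
theorem sum_theta {G : Type} [Group G] [Fintype G] (p : ℕ) (y : MonoidAlgebra ℤ G) :
    (∑ g : G, if p ∣ orderOf g then 0 else ∑ b : G, y.coeff (b * g * b⁻¹)) =
      (Fintype.card G : ℤ) * theta p y := by
  have h1 : (∑ g : G, if p ∣ orderOf g then 0 else ∑ b : G, y.coeff (b * g * b⁻¹)) =
      ∑ g : G, ∑ b : G, if p ∣ orderOf g then 0 else y.coeff (b * g * b⁻¹) := by
    refine Finset.sum_congr rfl fun g _ => ?_
    by_cases h : p ∣ orderOf g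
    · simp only [if_pos h, Finset.sum_const_zero]
    · simp only [if_neg h]
  rw [h1, Finset.sum_comm]
  have h2 : ∀ b : G, (∑ g : G, if p ∣ orderOf g then 0 else y.coeff (b * g * b⁻¹)) = theta p y := by
    intro b
    unfold theta
    refine Fintype.sum_equiv (MulAut.conj b).toEquiv _ _ fun g => ?_
    have h3 : orderOf ((MulAut.conj b).toEquiv g) = orderOf g :=
      orderOf_injective (MulAut.conj b).toMonoidHom (MulAut.conj b).injective g
    have h4 : (MulAut.conj b).toEquiv g = b * g * b⁻¹ := rfl
    by_cases h : p ∣ orderOf g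
    · rw [if_pos h, if_pos (h3 ▸ h)]
    · rw [if_neg h, if_neg (fun h' => h (h3 ▸ h')), h4]
  rw [Finset.sum_congr rfl fun b _ => h2 b, Finset.sum_const, Finset.card_univ, nsmul_eq_mul]

/-- A ring homomorphism which is `1` on the group is `aug`. Proof: `y = ∑_g single g (y.coeff g)`, `single g n = n • single g 1`, `ε` additive
(`MonoidAlgebra.induction_on` or `Finsupp` sums). -/
theorem aug_eq {G : Type} [Group G] [Fintype G] (ε : MonoidAlgebra ℤ G →+* ℤ)
    (hε : ∀ g : G, ε (MonoidAlgebra.single g (1 : ℤ)) = 1) (y : MonoidAlgebra ℤ G) : ε y = aug y := by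
  have hadd : ∀ a b : MonoidAlgebra ℤ G, aug (a + b) = aug a + aug b := by
    intro a b
    unfold aug
    rw [← Finset.sum_add_distrib]
    rfl
  induction y using MonoidAlgebra.induction_linear with
  | zero =>
    rw [map_zero]
    unfold aug
    simp
  | add a b ha hb => rw [map_add, hadd, ha, hb]
  | single g n =>
    have h1 : MonoidAlgebra.single g n = n • MonoidAlgebra.single g (1 : ℤ) := by
      rw [MonoidAlgebra.smul_single, smul_eq_mul, mul_one]
    have h2 : aug (MonoidAlgebra.single g n) = n := by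
      classical
      unfold aug
      simp only [MonoidAlgebra.coeff_single_apply]
      rw [Finset.sum_ite_eq, if_pos (Finset.mem_univ _)]
    rw [h2, h1, map_zsmul, hε, smul_eq_mul, mul_one]

/-- `aug` is multiplicative. Proof: the ring homomorphism `ε` of `MonoidAlgebra.lift ℤ ℤ G (1 : G →* ℤ)` (any order of arguments) satisfies the hypothesis of `aug_eq`. -/
theorem aug_mul {G : Type} [Group G] [Fintype G] (y z : MonoidAlgebra ℤ G) :
    aug (y * z) = aug y * aug z := by
  have hε : ∀ g : G, (MonoidAlgebra.lift ℤ ℤ G (1 : G →* ℤ) : MonoidAlgebra ℤ G →+* ℤ) (MonoidAlgebra.single g (1 : ℤ)) = 1 := by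
    intro g
    simp
  rw [← aug_eq _ hε, ← aug_eq _ hε, ← aug_eq _ hε, map_mul]

theorem aug_one {G : Type} [Group G] [Fintype G] : aug (1 : MonoidAlgebra ℤ G) = 1 := by
  have hε : ∀ g : G, (MonoidAlgebra.lift ℤ ℤ G (1 : G →* ℤ) : MonoidAlgebra ℤ G →+* ℤ) (MonoidAlgebra.single g (1 : ℤ)) = 1 := by
    intro g
    simp
  rw [← aug_eq _ hε, map_one]

end Pool.Agent.H66Q
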