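import Pool.Agent.Lib.H66Q.L1b
import Pool.Agent.Lib.H66Q.L3

set_option autoImplicit false
set_option linter.unusedVariables false
set_option linter.unusedSectionVars false

namespace Pool.Agent.H66Q

/-! Chunk F1 (M). (F) of PROOF.md: Berman-Higman.

Proof. `classical`. `A = LM ℂ y` satisfies `A ^ k = 1`, `trace A = |G| y_1` (`trace_LP` with `g = 1`, `Pm_one`). The roots of `A.charpoly` (over `ℂ`) are `|G|` numbers `z` with `z^k = 1` (each root is
an eigenvalue: `A x = z x`, `x ≠ 0`, `x = A^k x = z^k x`), and `trace A` is their sum (`Matrix.trace_eq_sum_roots_charpoly`). So `|G| |y_1| ≤ |G|`. Suppose `y_1 ≠ 0`. Then `|y_1| = 1` (integer), `ε := y_1 = ±1`, and the real parts of the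
numbers `z / ε` are `≤ 1` and sum to `|G|`, so all are `1` and every root is `ε`: `A.charpoly = (X - ε)^|G|`, so `(A - ε)^|G| = 0` (Cayley-Hamilton, `Matrix.aeval_self_charpoly`).
`X^k - 1` is separable with `X - ε` as a factor (a root `z = ε` exists as `|G| ≥ 1`, so `ε^k = 1`): `X^k - 1 = (X - ε) Q`, `Q` coprime to `(X - ε)^|G|`, so from `(A - ε) Q(A) = 0` and `(A - ε)^|G| = 0`: `A - ε = 0`
(alternatively: `B = ε A` is unipotent of finite order `2k`, `B = 1 + N`, `N` nilpotent, `N^2 = 0` may be assumed by replacing..., or `minpoly` divides both polynomials: squarefree and a power of `X - ε`).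
So `LM ℂ y = ε • 1`; reading entries: `y.coeff g = 0` for `g ≠ 1`, `y.coeff 1 = ε`, so `aug y = ε = 1` and `y = 1`, contradiction. -/

/-- A complex matrix with `A ^ k = 1` all of whose eigenvalues are `ε` is `ε • 1`. -/
private theorem f1_scalar {n : Type} [Fintype n] [DecidableEq n] [Nonempty n] (A : Matrix n n ℂ) {k : ℕ}
    (hk : 0 < k) (hA : A ^ k = 1) (ε : ℂ) (hε : ε ^ k = 1) (hr : ∀ z ∈ A.charpoly.roots, z = ε) :
    A = ε • (1 : Matrix n n ℂ) := by
  have hε0 : ε ≠ 0 := by
    intro h
    rw [h, zero_pow hk.ne'] at hε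
    exact zero_ne_one hε
  have hcp : A.charpoly = (Polynomial.X - Polynomial.C ε) ^ (Multiset.card A.charpoly.roots) := by
    have h1 := (IsAlgClosed.splits A.charpoly).eq_prod_roots_of_monic A.charpoly_monic
    have h2 : A.charpoly.roots = Multiset.replicate (Multiset.card A.charpoly.roots) ε :=
      Multiset.eq_replicate.mpr ⟨rfl, hr⟩
    rw [h2, Multiset.map_replicate, Multiset.prod_replicate] at h1
    exact h1
  obtain ⟨Q, hQ⟩ : (Polynomial.X - Polynomial.C ε) ∣ (Polynomial.X ^ k - 1 : Polynomial ℂ) := by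
    rw [Polynomial.dvd_iff_isRoot, Polynomial.IsRoot.def, Polynomial.eval_sub, Polynomial.eval_pow, Polynomial.eval_X,
      Polynomial.eval_one, hε, sub_self]
  have hQε : Polynomial.eval ε Q ≠ 0 := by
    have h1 := congrArg (fun P => Polynomial.eval ε (Polynomial.derivative P)) hQ
    simp only [Polynomial.derivative_sub, Polynomial.derivative_X_pow, Polynomial.derivative_one,
      Polynomial.derivative_mul, Polynomial.derivative_X, Polynomial.derivative_C, Polynomial.eval_sub,
      Polynomial.eval_mul, Polynomial.eval_pow, Polynomial.eval_X, Polynomial.eval_C, Polynomial.eval_add,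
      sub_zero, sub_self, zero_mul, add_zero, one_mul] at h1
    rw [← h1]
    exact mul_ne_zero (by simpa using hk.ne') (pow_ne_zero _ hε0)
  have hcop : IsCoprime ((Polynomial.X - Polynomial.C ε) ^ (Multiset.card A.charpoly.roots)) Q := by
    apply IsCoprime.pow_left
    rw [(Polynomial.irreducible_X_sub_C ε).coprime_iff_not_dvd, Polynomial.dvd_iff_isRoot]
    exact hQε
  obtain ⟨a, b, hab⟩ := hcop
  have h1 : (Polynomial.X - Polynomial.C ε : Polynomial ℂ) =
      (a * (Polynomial.X - Polynomial.C ε)) * A.charpoly + b * (Polynomial.X ^ k - 1) := by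
    rw [hQ]
    calc (Polynomial.X - Polynomial.C ε : Polynomial ℂ) = (Polynomial.X - Polynomial.C ε) * 1 := by rw [mul_one]
      _ = (Polynomial.X - Polynomial.C ε) * (a * (Polynomial.X - Polynomial.C ε) ^ (Multiset.card A.charpoly.roots) + b * Q) := by
          rw [hab]
      _ = (a * (Polynomial.X - Polynomial.C ε)) * (Polynomial.X - Polynomial.C ε) ^ (Multiset.card A.charpoly.roots) +
          b * ((Polynomial.X - Polynomial.C ε) * Q) := by ring
      _ = _ := by rw [← hcp]
  have h2 := congrArg (Polynomial.aeval A) h1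
  rw [map_add, map_mul, map_mul _ b, Matrix.aeval_self_charpoly, mul_zero, zero_add, map_sub, map_sub, map_pow, Polynomial.aeval_X,
    Polynomial.aeval_C, map_one, hA, sub_self, mul_zero, sub_eq_zero] at h2
  rw [h2, Algebra.algebraMap_eq_smul_one]

/-- Real parts: numbers of norm `1` whose sum times `ε` is at least the number of them are all `ε`. -/
private theorem f1_roots (s : Multiset ℂ) (hs : ∀ z ∈ s, ‖z‖ = 1) (ε : ℂ) (hε : ε * ε = 1) (hε' : ‖ε‖ = 1)
    (h : (Multiset.card s : ℝ) ≤ (ε * s.sum).re) : ∀ z ∈ s, z = ε := by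
  intro z hz
  obtain ⟨t, rfl⟩ := Multiset.exists_cons_of_mem hz
  have hle : ∀ w : Multiset ℂ, (∀ z ∈ w, ‖z‖ = 1) → (ε * w.sum).re ≤ Multiset.card w := by
    intro w
    induction w using Multiset.induction_on with
    | empty => intro _; simp
    | cons a w ih =>
      intro hw
      rw [Multiset.sum_cons, mul_add, Complex.add_re, Multiset.card_cons]
      push_cast
      have h1 : (ε * a).re ≤ 1 := by
        calc (ε * a).re ≤ ‖ε * a‖ := Complex.re_le_norm _
          _ = 1 := by rw [norm_mul, hε', hw a (Multiset.mem_cons_self a w), one_mul]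
      have h2 := ih fun z hz => hw z (Multiset.mem_cons_of_mem hz)
      linarith
  rw [Multiset.sum_cons, mul_add, Complex.add_re, Multiset.card_cons] at h
  push_cast at h
  have h2 := hle t fun z hz => hs z (Multiset.mem_cons_of_mem hz)
  have h3 : 1 ≤ (ε * z).re := by linarith
  have h4 : ‖ε * z‖ = 1 := by rw [norm_mul, hε', hs z (Multiset.mem_cons_self z t), one_mul]
  have h5 : (ε * z).re = 1 := le_antisymm (by rw [← h4]; exact Complex.re_le_norm _) h3
  have h6 : (ε * z).im = 0 := by
    have h7 := Complex.sq_norm (ε * z)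
    rw [h4, Complex.normSq_apply, h5] at h7
    have h8 : (ε * z).im * (ε * z).im = 0 := by linarith
    exact mul_self_eq_zero.mp h8
  have h7 : ε * z = 1 := Complex.ext (by rw [h5, Complex.one_re]) (by rw [h6, Complex.one_im])
  calc z = (ε * ε) * z := by rw [hε, one_mul]
    _ = ε * (ε * z) := by ring
    _ = ε := by rw [h7, mul_one]

theorem berman_higman {G : Type} [Group G] [Fintype G] (y : (MonoidAlgebra ℤ G)ˣ) {k : ℕ}
    (hk : 0 < k) (hy : y ^ k = 1) (haug : aug (y : MonoidAlgebra ℤ G) = 1) (h1 : y ≠ 1) :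
    (y : MonoidAlgebra ℤ G).coeff 1 = 0 := by
  classical
  by_contra hc
  set c : ℤ := (y : MonoidAlgebra ℤ G).coeff 1 with hcdef
  set A : Matrix G G ℂ := LM ℂ (y : MonoidAlgebra ℤ G) with hAdef
  have hA : A ^ k = 1 := by
    rw [hAdef, ← map_pow, ← Units.val_pow_eq_pow_val, hy, Units.val_one, map_one]
  have htr : A.trace = (Fintype.card G : ℂ) * (c : ℂ) := by
    rw [Matrix.trace]
    have h2 : ∀ a : G, A.diag a = (c : ℂ) := by
      intro a
      rw [Matrix.diag_apply, hAdef, LM_apply, mul_inv_cancel]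
    rw [Finset.sum_congr rfl fun a _ => h2 a, Finset.sum_const, Finset.card_univ, nsmul_eq_mul]
  have hrk : ∀ z ∈ A.charpoly.roots, z ^ k = 1 := by
    intro z hz
    have h2 : A.charpoly.IsRoot z := (Polynomial.mem_roots'.mp hz).2
    rw [Polynomial.IsRoot.def, Matrix.eval_charpoly] at h2
    obtain ⟨x, hx, hx2⟩ := Matrix.exists_mulVec_eq_zero_iff.mpr h2
    rw [Matrix.sub_mulVec, sub_eq_zero] at hx2
    have hx3 : A.mulVec x = z • x := by
      rw [← hx2]
      rw [Matrix.scalar_apply, ← Matrix.smul_one_eq_diagonal, Matrix.smul_mulVec, Matrix.one_mulVec]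
    have hx4 : ∀ j : ℕ, (A ^ j).mulVec x = z ^ j • x := by
      intro j
      induction j with
      | zero => rw [pow_zero, pow_zero, Matrix.one_mulVec, one_smul]
      | succ j ih => rw [pow_succ, ← Matrix.mulVec_mulVec, hx3, Matrix.mulVec_smul, ih, smul_smul, ← pow_succ']
    have h5 := hx4 k
    rw [hA, Matrix.one_mulVec] at h5
    obtain ⟨g, hg⟩ := Function.ne_iff.mp hx
    have h6 := congrFun h5 g
    rw [Pi.smul_apply, smul_eq_mul] at h6
    rw [Pi.zero_apply] at hg
    have h7 : (z ^ k - 1) * x g = 0 := by rw [sub_mul, one_mul, ← h6, sub_self]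
    exact sub_eq_zero.mp ((mul_eq_zero.mp h7).resolve_right hg)
  have hnorm : ∀ z ∈ A.charpoly.roots, ‖z‖ = 1 := fun z hz => Complex.norm_eq_one_of_pow_eq_one (hrk z hz) hk.ne'
  have hcard : Multiset.card A.charpoly.roots = Fintype.card G := by
    rw [← (IsAlgClosed.splits A.charpoly).natDegree_eq_card_roots, Matrix.charpoly_natDegree_eq_dim]
  obtain ⟨e, he, hec⟩ : ∃ e : ℤ, (e = 1 ∨ e = -1) ∧ 1 ≤ e * c := by
    rcases lt_or_gt_of_ne hc with h | h
    · exact ⟨-1, Or.inr rfl, by omega⟩
    · exact ⟨1, Or.inl rfl, by omega⟩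
  have hee : (e : ℂ) * (e : ℂ) = 1 := by
    rcases he with h | h <;> rw [h] <;> norm_num
  have hen : ‖(e : ℂ)‖ = 1 := by
    rcases he with h | h <;> rw [h] <;> simp
  have hall : ∀ z ∈ A.charpoly.roots, z = (e : ℂ) := by
    apply f1_roots _ hnorm _ hee hen
    rw [← Matrix.trace_eq_sum_roots_charpoly, htr, hcard]
    have h1 : ((e : ℂ) * ((Fintype.card G : ℂ) * (c : ℂ))) = (((Fintype.card G : ℝ) * ((e * c : ℤ) : ℝ) : ℝ) : ℂ) := by
      push_cast
      ring
    rw [h1, Complex.ofReal_re]
    have h2 : (1 : ℝ) ≤ ((e * c : ℤ) : ℝ) := by exact_mod_cast hec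
    have h3 : (0 : ℝ) ≤ (Fintype.card G : ℝ) := Nat.cast_nonneg _
    calc (Fintype.card G : ℝ) = (Fintype.card G : ℝ) * 1 := by rw [mul_one]
      _ ≤ (Fintype.card G : ℝ) * ((e * c : ℤ) : ℝ) := mul_le_mul_of_nonneg_left h2 h3
  have hek : (e : ℂ) ^ k = 1 := by
    have h1 : 0 < Multiset.card A.charpoly.roots := by
      rw [hcard]
      exact Fintype.card_pos
    obtain ⟨z, hz⟩ := Multiset.card_pos_iff_exists_mem.mp h1
    have h2 := hrk z hz
    rw [hall z hz] at h2
    exact h2
  have hsc := f1_scalar A hk hA (e : ℂ) hek hall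
  have hcoeff : ∀ g : G, (y : MonoidAlgebra ℤ G).coeff g = if g = 1 then e else 0 := by
    intro g
    have h1 := congrFun (congrFun hsc g) 1
    rw [hAdef, LM_apply, inv_one, mul_one, Matrix.smul_apply, Matrix.one_apply, smul_eq_mul] at h1
    by_cases hg : g = 1
    · rw [if_pos hg, mul_one] at h1
      rw [if_pos hg]
      exact_mod_cast h1
    · rw [if_neg hg, mul_zero] at h1
      rw [if_neg hg]
      exact_mod_cast h1
  have he1 : e = 1 := by
    rw [aug, Finset.sum_congr rfl fun g _ => hcoeff g, Finset.sum_ite_eq' Finset.univ (1 : G) fun _ => e,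
      if_pos (Finset.mem_univ _)] at haug
    exact haug
  apply h1
  apply Units.ext
  rw [Units.val_one]
  have h2 : (y : MonoidAlgebra ℤ G).coeff = (1 : MonoidAlgebra ℤ G).coeff := by
    ext g
    rw [hcoeff, he1, MonoidAlgebra.one_def, MonoidAlgebra.coeff_single, Finsupp.single_apply]
    by_cases hg : g = 1
    · rw [if_pos hg, if_pos hg.symm]
    · rw [if_neg hg, if_neg (Ne.symm hg)]
  exact MonoidAlgebra.ext h2

end Pool.Agent.H66Q
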