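import Pool.Agent.Lib.H66Q.LD

set_option autoImplicit false
set_option linter.unusedVariables false
set_option linter.unusedSectionVars false

namespace Pool.Agent.H66Q

/-! Chunk L1b (S/M). Traces. -/

section

variable {G : Type} [Group G] [Fintype G] [DecidableEq G] (R : Type) [CommRing R]

/-- The trace of `x ↦ y x g⁻¹`. Proof: `∑_a ∑_c y(a c⁻¹) [a = c g]` `= ∑_c y(c g c⁻¹)`. -/
theorem trace_LP (y : MonoidAlgebra ℤ G) (g : G) :
    Matrix.trace (LM R y * Pm R g) = (((∑ b : G, y.coeff (b * g * b⁻¹) : ℤ)) : R) := by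
  have h1 : Matrix.trace (LM R y * Pm R g) =
      ∑ a : G, ∑ c : G, LM R y a c * Pm R g c a := by
    rw [Matrix.trace]
    refine Finset.sum_congr rfl fun a _ => ?_
    rw [Matrix.diag_apply, Matrix.mul_apply]
  rw [h1, Finset.sum_comm, Int.cast_sum]
  refine Finset.sum_congr rfl fun c _ => ?_
  rw [Finset.sum_eq_single (c * g)]
  · have h2 : Pm R g c (c * g) = 1 := if_pos rfl
    rw [h2, mul_one, LM_apply]
  · intro a _ ha
    have h2 : Pm R g c a = 0 := if_neg ha
    rw [h2, mul_zero]
  · intro h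
    exact absurd (Finset.mem_univ _) h

/-- The sum of all `Pm g` is the all-ones matrix. Proof: `trace (M * Pm g) = ∑_a ∑_c M a c [a = c g]`; for all `a, c` there is exactly one `g`. -/
theorem sum_trace_Pm (M : Matrix G G R) :
    ∑ g : G, Matrix.trace (M * Pm R g) = ∑ a : G, ∑ b : G, M a b := by
  have h1 : ∀ g : G, Matrix.trace (M * Pm R g) = ∑ a : G, ∑ c : G, M a c * Pm R g c a := by
    intro g
    rw [Matrix.trace]
    refine Finset.sum_congr rfl fun a _ => ?_
    rw [Matrix.diag_apply, Matrix.mul_apply]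
  rw [Finset.sum_congr rfl fun g _ => h1 g, Finset.sum_comm]
  refine Finset.sum_congr rfl fun a _ => ?_
  rw [Finset.sum_comm]
  refine Finset.sum_congr rfl fun c _ => ?_
  rw [Finset.sum_eq_single (c⁻¹ * a)]
  · have h2 : Pm R (c⁻¹ * a) c a = 1 := if_pos (mul_inv_cancel_left c a).symm
    rw [h2, mul_one]
  · intro g _ hg
    have h2 : Pm R g c a = 0 := if_neg fun h => hg (by rw [h, inv_mul_cancel_left])
    rw [h2, mul_zero]
  · intro h
    exact absurd (Finset.mem_univ _) h

end

end Pool.Agent.H66Q
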