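import Pool.Agent.Lib.H66Q.LD

set_option autoImplicit false
set_option linter.unusedVariables false
set_option linter.unusedSectionVars false

namespace Pool.Agent.H66Q

/-! Chunk L6 (S/M). The `p`-part and the `p'`-part of an element.

Proof. `n = orderOf g = p ^ j * l`, `¬ p ∣ l` (`Nat.exists_eq_pow_mul_and_not_dvd`). Bezout: there are naturals `k1, k2` with `k1 ≡ 1 mod p^j`, `k1 ≡ 0 mod l`, `k2 ≡ 0 mod p^j`,
`k2 ≡ 1 mod l` (`Nat.chineseRemainder`), `k1 + k2 ≡ 1 mod n`. `g1 = g^k1`, `g2 = g^k2` (orders by `orderOf_pow'`, or `orderOf_eq_of_pow_and_...`/ divisibility both ways: `g1^(p^j) = 1`, `g2^l = 1`, and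
`n = orderOf (g1 g2)` divides `orderOf g1 * orderOf g2 ∣ p^j l = n`, so both are equalities). -/

theorem split_order {G : Type} [Group G] (g : G) {p : ℕ} (hp : p.Prime) (hfin : 0 < orderOf g) :
    ∃ (j l : ℕ) (g1 g2 : G), g = g1 * g2 ∧ Commute g1 g2 ∧ orderOf g1 = p ^ j ∧ orderOf g2 = l ∧
      ¬ p ∣ l ∧ (p ∣ orderOf g → 1 ≤ j) ∧ (∃ k : ℕ, g1 = g ^ k) ∧ (∃ k : ℕ, g2 = g ^ k) := by
  obtain ⟨j, l, hl, hn⟩ := Nat.exists_eq_pow_mul_and_not_dvd hfin.ne' p hp.ne_one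
  have hcop : Nat.Coprime (p ^ j) l := Nat.Coprime.pow_left j ((Nat.Prime.coprime_iff_not_dvd hp).2 hl)
  have hfo : IsOfFinOrder g := orderOf_pos_iff.1 hfin
  obtain ⟨k1, hk11, hk12⟩ := Nat.chineseRemainder hcop 1 0
  obtain ⟨k2, hk21, hk22⟩ := Nat.chineseRemainder hcop 0 1
  have hp0 : 0 < p ^ j := pow_pos hp.pos j
  have hl0 : 0 < l := Nat.pos_of_ne_zero (by rintro rfl; exact hl (dvd_zero p))
  have hc1 : Nat.Coprime (p ^ j) k1 := by
    have h1 := hk11.gcd_eq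
    rw [Nat.gcd_one_left] at h1
    exact (Nat.coprime_comm.1 h1)
  have hc2 : Nat.Coprime l k2 := by
    have h1 := hk22.gcd_eq
    rw [Nat.gcd_one_left] at h1
    exact (Nat.coprime_comm.1 h1)
  have hd1 : l ∣ k1 := (Nat.modEq_zero_iff_dvd).1 hk12
  have hd2 : p ^ j ∣ k2 := (Nat.modEq_zero_iff_dvd).1 hk21
  refine ⟨j, l, g ^ k1, g ^ k2, ?_, ?_, ?_, ?_, hl, ?_, ⟨k1, rfl⟩, ⟨k2, rfl⟩⟩
  · rw [← pow_add]
    have h1 : k1 + k2 ≡ 1 [MOD orderOf g] := by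
      rw [hn, ← Nat.modEq_and_modEq_iff_modEq_mul hcop]
      exact ⟨by simpa using hk11.add hk21, by simpa using hk12.add hk22⟩
    have h2 := pow_eq_pow_iff_modEq.2 h1
    rw [h2, pow_one]
  · exact (Commute.refl g).pow_pow k1 k2
  · rw [hfo.orderOf_pow, hn, Nat.Coprime.gcd_mul_left_cancel l hc1, Nat.gcd_eq_left hd1,
      Nat.mul_div_cancel _ hl0]
  · rw [hfo.orderOf_pow, hn, Nat.Coprime.gcd_mul_right_cancel (p ^ j) hc2, Nat.gcd_eq_left hd2,
      Nat.mul_div_cancel_left _ hp0]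
  · intro hpg
    by_contra hj
    have hj0 : j = 0 := by omega
    rw [hn, hj0, pow_zero, one_mul] at hpg
    exact hl hpg

end Pool.Agent.H66Q
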