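import Pool.Agent.Lib.H66Q.Defs

set_option autoImplicit false
set_option linter.unusedVariables false
set_option linter.unusedSectionVars false

open scoped Pointwise

namespace Pool.Agent.H66Q

/-! Basic lemmas on `nrm`, for ring automorphisms and for additive endomorphisms of modules. -/

section Ring

variable {E : Type} [Ring E]

/-- Iterates of an automorphism are the powers (induction on `n`, `Function.iterate_succ_apply'`, `pow_succ'`, `RingAut.mul_apply`). -/
theorem iterR (τ : RingAut E) (n : ℕ) (z : E) : (⇑τ)^[n] z = (τ ^ n) z := by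
  induction n with
  | zero => rfl
  | succ n ih =>
    rw [Function.iterate_succ_apply', ih, pow_succ', RingAut.mul_apply]

theorem nrmR_eq (q : ℕ) (τ : RingAut E) (z : E) : nrm q τ z = ∑ i ∈ Finset.range q, (τ ^ i) z := by
  unfold nrm
  exact Finset.sum_congr rfl fun i _ => iterR τ i z

theorem nrmR_zero (q : ℕ) (τ : RingAut E) : nrm q τ 0 = 0 := by
  rw [nrmR_eq]
  exact Finset.sum_eq_zero fun i _ => map_zero _

theorem nrmR_add (q : ℕ) (τ : RingAut E) (y z : E) : nrm q τ (y + z) = nrm q τ y + nrm q τ z := by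
  rw [nrmR_eq, nrmR_eq, nrmR_eq, ← Finset.sum_add_distrib]
  exact Finset.sum_congr rfl fun i _ => map_add _ _ _

theorem nrmR_neg (q : ℕ) (τ : RingAut E) (z : E) : nrm q τ (-z) = - nrm q τ z := by
  rw [nrmR_eq, nrmR_eq, ← Finset.sum_neg_distrib]
  exact Finset.sum_congr rfl fun i _ => map_neg _ _

theorem nrmR_sum {ι : Type} (s : Finset ι) (q : ℕ) (τ : RingAut E) (f : ι → E) :
    nrm q τ (∑ i ∈ s, f i) = ∑ i ∈ s, nrm q τ (f i) := by
  simp only [nrmR_eq]
  rw [Finset.sum_comm]
  exact Finset.sum_congr rfl fun i _ => map_sum _ _ _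

/-- `τ h = h`: then `τ^i (e h) = τ^i(e) h`. -/
theorem nrmR_mul_right (q : ℕ) (τ : RingAut E) (e h : E) (hh : τ h = h) :
    nrm q τ (e * h) = nrm q τ e * h := by
  have h1 : ∀ i : ℕ, (τ ^ i) h = h := by
    intro i
    induction i with
    | zero => rfl
    | succ i ih => rw [pow_succ, RingAut.mul_apply, hh, ih]
  rw [nrmR_eq, nrmR_eq, Finset.sum_mul]
  refine Finset.sum_congr rfl fun i _ => ?_
  rw [map_mul, h1]

theorem nrmR_mul_left (q : ℕ) (τ : RingAut E) (e h : E) (hh : τ h = h) :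
    nrm q τ (h * e) = h * nrm q τ e := by
  have h1 : ∀ i : ℕ, (τ ^ i) h = h := by
    intro i
    induction i with
    | zero => rfl
    | succ i ih => rw [pow_succ, RingAut.mul_apply, hh, ih]
  rw [nrmR_eq, nrmR_eq, Finset.mul_sum]
  refine Finset.sum_congr rfl fun i _ => ?_
  rw [map_mul, h1]

/-- `τ^q = 1`: the relative trace is fixed (`Finset.sum_range_succ`, `Finset.sum_range_succ'`: shift of the range). -/
theorem nrmR_fix (q : ℕ) (τ : RingAut E) (hq : τ ^ q = 1) (e : E) : τ (nrm q τ e) = nrm q τ e := by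
  rw [nrmR_eq, map_sum]
  have h1 : ∀ i : ℕ, τ ((τ ^ i) e) = (τ ^ (i + 1)) e := by
    intro i
    rw [pow_succ', RingAut.mul_apply]
  simp only [h1]
  have h2 := Finset.sum_range_succ (fun i => (τ ^ i) e) q
  have h3 := Finset.sum_range_succ' (fun i => (τ ^ i) e) q
  rw [h2, hq, pow_zero] at h3
  exact (add_right_cancel h3).symm

/-- If `σ τ = τ' σ` then `σ (nrm q τ e) = nrm q τ' (σ e)`. -/
theorem nrmR_equiv (q : ℕ) (σ τ τ' : RingAut E) (h : σ * τ = τ' * σ) (e : E) :
    σ (nrm q τ e) = nrm q τ' (σ e) := by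
  have h1 : ∀ i : ℕ, σ ((τ ^ i) e) = (τ' ^ i) (σ e) := by
    intro i
    induction i with
    | zero => rfl
    | succ i ih =>
      have h2 : ∀ z : E, σ (τ z) = τ' (σ z) := by
        intro z
        have h3 := congrArg (fun f : RingAut E => f z) h
        simpa only [RingAut.mul_apply] using h3
      rw [pow_succ', pow_succ', RingAut.mul_apply, RingAut.mul_apply, h2, ih]
  rw [nrmR_eq, nrmR_eq, map_sum]
  exact Finset.sum_congr rfl fun i _ => h1 i

/-- Integer multiples. -/
theorem nrmR_zsmul (q : ℕ) (τ : RingAut E) (n : ℤ) (z : E) : nrm q τ (n • z) = n • nrm q τ z := by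
  rw [nrmR_eq, nrmR_eq, Finset.smul_sum]
  exact Finset.sum_congr rfl fun i _ => map_zsmul _ _ _

end Ring

section Mod

variable {X : Type} [AddCommGroup X]

theorem nrmM_zero (q : ℕ) (τ : X →+ X) : nrm q τ 0 = 0 := by
  unfold nrm
  exact Finset.sum_eq_zero fun i _ => iterate_map_zero τ i

theorem nrmM_add (q : ℕ) (τ : X →+ X) (y z : X) : nrm q τ (y + z) = nrm q τ y + nrm q τ z := by
  unfold nrm
  rw [← Finset.sum_add_distrib]
  exact Finset.sum_congr rfl fun i _ => iterate_map_add τ i y z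

theorem nrmM_sub (q : ℕ) (τ : X →+ X) (y z : X) : nrm q τ (y - z) = nrm q τ y - nrm q τ z := by
  unfold nrm
  rw [← Finset.sum_sub_distrib]
  exact Finset.sum_congr rfl fun i _ => iterate_map_sub τ i y z

/-- Telescoping: `nrm q τ (τ z - z) = τ^[q] z - z` (`Finset.sum_range_sub`). -/
theorem nrmM_tele (q : ℕ) (τ : X →+ X) (z : X) : nrm q τ (τ z - z) = τ^[q] z - z := by
  rw [nrmM_sub]
  unfold nrm
  rw [← Finset.sum_sub_distrib]
  have h1 := Finset.sum_range_sub (fun i => (⇑τ)^[i] z) q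
  rw [← (show (⇑τ)^[0] z = z from rfl)]
  exact (Finset.sum_congr rfl fun i _ => rfl).trans h1

/-- `τ^[q] e = e`: the relative trace is fixed. -/
theorem nrmM_fix (q : ℕ) (τ : X →+ X) (e : X) (h : τ^[q] e = e) : τ (nrm q τ e) = nrm q τ e := by
  have h1 : τ (nrm q τ e) - nrm q τ e = 0 := by
    have h2 : τ (nrm q τ e) = nrm q τ (τ e) := by
      unfold nrm
      rw [map_sum]
      refine Finset.sum_congr rfl fun i _ => ?_
      exact (Function.iterate_succ_apply' τ i e).symm.trans (Function.iterate_succ_apply τ i e)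
    rw [h2, ← nrmM_sub, nrmM_tele, h, sub_self]
  exact sub_eq_zero.mp h1

end Mod

end Pool.Agent.H66Q
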