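import Pool.Agent.Lib.H66Q.T4
import Pool.Agent.Lib.H66Q.N1
import Pool.Agent.Lib.H66Q.I1

set_option autoImplicit false
set_option linter.unusedVariables false
set_option linter.unusedSectionVars false

open scoped Pointwise

namespace Pool.Agent.H66Q

/-- (TV) Proof. `n = p^(N+1)`, `z = z^n` (idempotent, `n ≥ 1`). With `pow_eq_Wd`: `tr (τ w z^n) = ∑ s, tr (A 1 * w * W n s * A (-s)) = ∑ s, tr (w * (A (1 - s) * W n s)) = ∑ s, tr (w * W n 1)` (cyclic property, `w` commutes with `A`, `Wd_shift`; `A 1 = τ` because `p^j ≥ 2`), a sum of `p^j` equal terms, each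
`(p^(N+1)) • β = 0` by `tr_Wd` and `hB`. -/
theorem tv {p : ℕ} [Fact p.Prime] {A : Type} [Ring A] {B : Type} [AddCommGroup B] (tr : A →+ B) (htr : ∀ x y, tr (x * y) = tr (y * x))
    (N : ℕ) (hB : ∀ β : B, (p ^ N) • β = 0) (j : ℕ) (hj : 1 ≤ j) (τ : Aˣ) (hτ : τ ^ (p ^ j) = 1) (e z w : A)
    (hz : z = nrm (p ^ j) (conjR τ) e) (hzz : z * z = z) (hwτ : Commute w (τ : A)) (hwe : Commute w e) :
    tr ((τ : A) * w * z) = 0 := by
  have hp : p.Prime := Fact.out
  have : NeZero (p ^ j) := ⟨pow_ne_zero _ hp.ne_zero⟩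
  obtain ⟨m, hm⟩ : ∃ m, p ^ (N + 1) = m + 1 :=
    ⟨p ^ (N + 1) - 1, (Nat.succ_pred_eq_of_pos (pow_pos hp.pos _)).symm⟩
  have hzn : z ^ (m + 1) = z := IsIdempotentElem.pow_succ_eq m hzz
  have hA1 : Apow (p ^ j) τ 1 = (τ : A) := by
    have : Fact (1 < p ^ j) := ⟨Nat.one_lt_pow (by omega) hp.one_lt⟩
    unfold Apow
    rw [ZMod.val_one, pow_one]
  have hwA : ∀ d : ZMod (p ^ j), Commute w (Apow (p ^ j) τ d) := by
    intro d
    unfold Apow
    rw [Units.val_pow_eq_pow_val]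
    exact hwτ.pow_right _
  have key : tr ((τ : A) * w * z) = ∑ s : ZMod (p ^ j), tr (w * Wd (p ^ j) τ e (m + 1) 1) := by
    conv_lhs => rw [← hzn, pow_eq_Wd (p ^ j) τ hτ e m z hz, Finset.mul_sum, map_sum]
    refine Finset.sum_congr rfl fun s _ => ?_
    rw [← hA1]
    have h1 : tr (Apow (p ^ j) τ 1 * w * (Wd (p ^ j) τ e (m + 1) s * Apow (p ^ j) τ (-s)))
        = tr (Apow (p ^ j) τ (-s) * (Apow (p ^ j) τ 1 * w * Wd (p ^ j) τ e (m + 1) s)) := by
      rw [← mul_assoc, htr]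
    rw [h1]
    congr 1
    have h2 := Wd_shift (p ^ j) τ hτ e m (1 - s) s
    rw [add_sub_cancel] at h2
    rw [← h2]
    have h3 : (1 : ZMod (p ^ j)) - s = -s + 1 := by ring
    rw [h3, Apow_add (p ^ j) τ hτ]
    calc Apow (p ^ j) τ (-s) * (Apow (p ^ j) τ 1 * w * Wd (p ^ j) τ e (m + 1) s)
        = (Apow (p ^ j) τ (-s) * Apow (p ^ j) τ 1) * w * Wd (p ^ j) τ e (m + 1) s := by
          simp only [mul_assoc]
      _ = w * (Apow (p ^ j) τ (-s) * Apow (p ^ j) τ 1) * Wd (p ^ j) τ e (m + 1) s := by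
          rw [((hwA (-s)).mul_right (hwA 1)).eq]
      _ = _ := by simp only [mul_assoc]
  rw [key]
  obtain ⟨β, hβ⟩ := tr_Wd (p := p) tr htr N j hj τ e w hwτ hwe
  have h0 : tr (w * Wd (p ^ j) τ e (m + 1) 1) = 0 := by
    rw [← hm, hβ, pow_succ', mul_smul, hB, smul_zero]
  rw [h0]
  simp

/-- (TV) with averaging. `w^M = 1`, `p` prime to `M`. `c : ℤ` with `(c * M : A) = 1` (`exists_inv`); `e' = c • ∑ i in range M, w^i * e * w^(-i)`: it commutes with `w`, and `nrm (p^j) (conjR τ) e' = c • ∑ w^i z w^(-i) = z` since `w` commutes with `τ` and `z`. Apply `tv` with `e'`. -/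
theorem tr_zero {p : ℕ} [Fact p.Prime] {A : Type} [Ring A] (K : ℕ) (hK : (p : A) ^ K = 0) {B : Type} [AddCommGroup B] (tr : A →+ B)
    (htr : ∀ x y, tr (x * y) = tr (y * x)) (hB : ∀ β : B, (p ^ K) • β = 0) (j : ℕ) (hj : 1 ≤ j) (τ : Aˣ) (hτ : τ ^ (p ^ j) = 1)
    (w : Aˣ) (M : ℕ) (hw : w ^ M = 1) (hM : Nat.Coprime p M) (hτw : Commute τ w) (z : A) (hzz : z * z = z)
    (hzw : Commute z (w : A)) (hz : ∃ e : A, z = nrm (p ^ j) (conjR τ) e) :
    tr ((τ : A) * (w : A) * z) = 0 := by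
  obtain ⟨e, he⟩ := hz
  obtain ⟨c, hc⟩ := exists_inv (E := A) K hK M hM
  have hcz : ∀ y : A, (c * M : ℤ) • y = y := by
    intro y
    rw [zsmul_eq_mul, hc, one_mul]
  have hwz : conjR w z = z := by
    rw [conjR_apply, ← hzw.eq, mul_assoc, Units.mul_inv, mul_one]
  have hcomm : ∀ i : ℕ, conjR w ^ i * conjR τ = conjR τ * conjR w ^ i := by
    intro i
    have : Commute (conjR w) (conjR τ) := by
      have := (hτw.symm).map (conjR (E := A))
      exact this
    exact (this.pow_left i).eq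
  set e' : A := c • ∑ i ∈ Finset.range M, (conjR w ^ i) e with he'
  have hnz : z = nrm (p ^ j) (conjR τ) e' := by
    rw [he', nrmR_zsmul, nrmR_sum]
    have h1 : ∀ i ∈ Finset.range M, nrm (p ^ j) (conjR τ) ((conjR w ^ i) e) = z := by
      intro i _
      rw [← nrmR_equiv (p ^ j) (conjR w ^ i) (conjR τ) (conjR τ) (hcomm i), ← he]
      have h7 : ∀ i : ℕ, (conjR w ^ i) z = z := by
        intro i
        induction i with
        | zero => simp
        | succ i ih => rw [pow_succ', RingAut.mul_apply, ih, hwz]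
      exact h7 i
    rw [Finset.sum_congr rfl h1, Finset.sum_const, Finset.card_range, ← natCast_zsmul, smul_smul, hcz]
  have hwe' : conjR w e' = e' := by
    rw [he', map_zsmul, map_sum]
    congr 1
    have hM0 : (conjR w ^ M) e = e := by
      rw [← map_pow, hw, map_one]; rfl
    have h2 : ∀ i, conjR w ((conjR w ^ i) e) = (conjR w ^ (i + 1)) e := by
      intro i
      rw [pow_succ', RingAut.mul_apply]
    simp only [h2]
    have h3 := Finset.sum_range_succ' (fun i => (conjR w ^ i) e) M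
    have h4 := Finset.sum_range_succ (fun i => (conjR w ^ i) e) M
    rw [hM0] at h4
    rw [h4] at h3
    simp only [pow_zero] at h3
    have h5 : (1 : RingAut A) e = e := rfl
    rw [h5] at h3
    exact (add_right_cancel h3).symm
  have hcw : Commute (w : A) e' := by
    rw [conjR_apply] at hwe'
    have h6 : (w : A) * e' = e' * (w : A) := by
      calc (w : A) * e' = (w : A) * e' * ((w⁻¹ : Aˣ) : A) * (w : A) := by
            rw [mul_assoc ((w : A) * e'), Units.inv_mul, mul_one]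
        _ = e' * (w : A) := by rw [hwe']
    exact h6
  refine tv tr htr K hB j hj τ hτ e' z w hnz hzz ?_ hcw
  have := hτw.symm
  exact (congrArg (fun v : Aˣ => (v : A)) this.eq)

end Pool.Agent.H66Q
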