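import Pool.Agent.Lib.H66Q.LS
import Pool.Agent.Lib.H66Q.L1b
import Pool.Agent.Lib.H66Q.L6
import Pool.Agent.Lib.H66Q.T5
import Pool.Agent.Lib.H66Q.B1

set_option autoImplicit false
set_option linter.unusedVariables false
set_option linter.unusedSectionVars false

namespace Pool.Agent.H66Q

/-! Chunk L10 (M). (E) of PROOF.md: vanishing of the class sums at elements of order prime to the order of `y`.

Proof. `classical`. Let `l` be a prime dividing `orderOf g` (`g ≠ 1`), `l ∤ k`. Fix `K`, `R = ZMod (l^K)`. `split_order` for the prime `l`: `g = g1 g2`, `orderOf g1 = l^j`, `j ≥ 1`,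
`l ∤ orderOf g2`. `tr_zero` (T5, prime `l`, `tr` = trace) with `τ = PmU g1`, `w = LMu y * PmU g2` (`M = k * orderOf g2`, coprime to `l`), `z = 1`:
`1 = nrm (l^j) (conjR (PmU g1)) e0` by `exists_cyc` (B1; for `actM`, `b_sum`, `actM_eq`, the element `g1`, `orderOf g1 = l^j`). So
`trace (LM y * Pm g) = 0` in `ZMod (l^K)`, i.e. `l^K` divides `∑_b y(b g b⁻¹)` (`trace_LP`) for all `K`; so the sum is `0`. -/

private theorem L10_dvd {G : Type} [Group G] [Fintype G] (y : (MonoidAlgebra ℤ G)ˣ) {k : ℕ}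
    (hy : y ^ k = 1) (g : G) {l : ℕ} (hl : l.Prime) (hlg : l ∣ orderOf g) (hk : Nat.Coprime k (orderOf g)) (K : ℕ) :
    ((l ^ K : ℕ) : ℤ) ∣ ∑ b : G, (y : MonoidAlgebra ℤ G).coeff (b * g * b⁻¹) := by
  classical
  haveI : Fact l.Prime := ⟨hl⟩
  obtain ⟨j, m, g1, g2, hg, hcomm, ho1, ho2, hlm, hj, -, -⟩ := split_order g hl (orderOf_pos g)
  have hj1 := hj hlg
  have hlk : ¬ l ∣ k := fun h => by
    have h1 : l ∣ Nat.gcd k (orderOf g) := Nat.dvd_gcd h hlg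
    rw [hk.gcd_eq_one] at h1
    exact hl.one_lt.ne' (Nat.dvd_one.1 h1)
  have hM : Nat.Coprime l (k * m) :=
    Nat.Coprime.mul_right ((Nat.Prime.coprime_iff_not_dvd hl).2 hlk) ((Nat.Prime.coprime_iff_not_dvd hl).2 hlm)
  have hK : ((l : Matrix G G (ZMod (l ^ K)))) ^ K = 0 := by
    rw [← Nat.cast_pow, ← map_natCast (algebraMap (ZMod (l ^ K)) (Matrix G G (ZMod (l ^ K)))),
      ZMod.natCast_self, map_zero]
  have hB : ∀ β : ZMod (l ^ K), (l ^ K) • β = 0 := by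
    intro β
    rw [nsmul_eq_mul, ZMod.natCast_self, zero_mul]
  have hcU : Commute (LMu (ZMod (l ^ K)) y) (PmU (ZMod (l ^ K)) g2) := by
    ext1
    exact (LM_Pm_comm (ZMod (l ^ K)) (y : MonoidAlgebra ℤ G) g2).eq
  have hcU1 : Commute (PmU (ZMod (l ^ K)) g1) (LMu (ZMod (l ^ K)) y) := by
    ext1
    exact (LM_Pm_comm (ZMod (l ^ K)) (y : MonoidAlgebra ℤ G) g1).symm.eq
  have hτ : (PmU (ZMod (l ^ K)) g1) ^ (l ^ j) = 1 := by
    rw [← map_pow, ← ho1, pow_orderOf_eq_one, map_one]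
  have hw : (LMu (ZMod (l ^ K)) y * PmU (ZMod (l ^ K)) g2) ^ (k * m) = 1 := by
    rw [hcU.mul_pow, ← map_pow, ← map_pow, pow_mul, hy, one_pow, map_one, mul_comm k m, pow_mul, ← ho2,
      pow_orderOf_eq_one, one_pow, map_one, one_mul]
  obtain ⟨e0, he0⟩ := exists_cyc (actM (ZMod (l ^ K))) (Matrix.single (1 : G) (1 : G) (1 : ZMod (l ^ K)))
    (b_sum (ZMod (l ^ K))) g1
  rw [ho1, actM_eq] at he0
  have key := tr_zero (p := l) K hK (Matrix.traceAddMonoidHom G (ZMod (l ^ K)))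
    (fun x y => Matrix.trace_mul_comm x y) hB j hj1 (PmU (ZMod (l ^ K)) g1) hτ
    (LMu (ZMod (l ^ K)) y * PmU (ZMod (l ^ K)) g2) (k * m) hw hM
    (hcU1.mul_right (hcomm.map (PmU (ZMod (l ^ K))))) 1 (one_mul 1) (Commute.one_left _) ⟨e0, he0⟩
  have e1 : ((PmU (ZMod (l ^ K)) g1 : (Matrix G G (ZMod (l ^ K)))ˣ) : Matrix G G (ZMod (l ^ K))) *
      ((LMu (ZMod (l ^ K)) y * PmU (ZMod (l ^ K)) g2 : (Matrix G G (ZMod (l ^ K)))ˣ) :
        Matrix G G (ZMod (l ^ K))) * 1 = LM (ZMod (l ^ K)) (y : MonoidAlgebra ℤ G) * Pm (ZMod (l ^ K)) g := by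
    rw [mul_one, Units.val_mul, LMu_coe, PmU_coe, PmU_coe, ← mul_assoc,
      ← (LM_Pm_comm (ZMod (l ^ K)) (y : MonoidAlgebra ℤ G) g1).eq, mul_assoc, ← Pm_mul, ← hg]
  rw [e1] at key
  have key2 : Matrix.trace (LM (ZMod (l ^ K)) (y : MonoidAlgebra ℤ G) * Pm (ZMod (l ^ K)) g) = 0 := key
  rw [trace_LP, ZMod.intCast_zmod_eq_zero_iff_dvd] at key2
  exact key2

theorem class_vanish {G : Type} [Group G] [Fintype G] (y : (MonoidAlgebra ℤ G)ˣ) {k : ℕ}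
    (hy : y ^ k = 1) (g : G) (hg : g ≠ 1) (hk : Nat.Coprime k (orderOf g)) :
    ∑ b : G, (y : MonoidAlgebra ℤ G).coeff (b * g * b⁻¹) = 0 := by
  have hog : orderOf g ≠ 1 := fun h => hg (orderOf_eq_one_iff.1 h)
  obtain ⟨l, hl, hlg⟩ := Nat.exists_prime_and_dvd hog
  set T : ℤ := ∑ b : G, (y : MonoidAlgebra ℤ G).coeff (b * g * b⁻¹) with hT
  have h1 := L10_dvd y hy g hl hlg hk T.natAbs
  rw [← hT] at h1
  refine Int.eq_zero_of_abs_lt_dvd h1 ?_
  rw [Int.abs_eq_natAbs]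
  exact_mod_cast Nat.lt_pow_self hl.one_lt

end Pool.Agent.H66Q
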