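import Pool.Agent.Lib.H66Q.L9
import Pool.Agent.Lib.H66Q.L10
import Pool.Agent.Lib.H66Q.F1

set_option autoImplicit false
set_option linter.unusedVariables false
set_option linter.unusedSectionVars false

namespace Pool.Agent.H66Q

/-! Chunk F2 (S/M). Vanishing sums. -/

/-- Class by class: the sum of the coefficients over a conjugation invariant set of elements all of whose class sums vanish is `0`.
Proof: `|G| ∑_{g ∈ P} y_g = ∑_{g ∈ P} ∑_b y(b g b⁻¹) = 0` (swap the sums and substitute `g' = b g b⁻¹`, as in `sum_theta`), `|G| ≠ 0`. -/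
theorem sum_zero_of_class {G : Type} [Group G] [Fintype G] (y : MonoidAlgebra ℤ G) (P : G → Prop)
    [DecidablePred P] (hP : ∀ b g : G, P (b * g * b⁻¹) ↔ P g)
    (h : ∀ g, P g → ∑ b : G, y.coeff (b * g * b⁻¹) = 0) :
    ∑ g : G, (if P g then y.coeff g else 0) = 0 := by
  classical
  have h1 : ∀ b : G, ∑ g : G, (if P g then y.coeff (b * g * b⁻¹) else 0) = ∑ g : G, (if P g then y.coeff g else 0) := by
    intro b
    rw [← Equiv.sum_comp (MulAut.conj b).toEquiv fun g => if P g then y.coeff g else 0]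
    refine Finset.sum_congr rfl fun g _ => ?_
    have e : (MulAut.conj b).toEquiv g = b * g * b⁻¹ := MulAut.conj_apply b g
    rw [e]
    by_cases hg : P g
    · rw [if_pos hg, if_pos ((hP b g).mpr hg)]
    · rw [if_neg hg, if_neg fun hh => hg ((hP b g).mp hh)]
  have h2 : (Fintype.card G : ℤ) * ∑ g : G, (if P g then y.coeff g else 0) = 0 := by
    calc (Fintype.card G : ℤ) * ∑ g : G, (if P g then y.coeff g else 0)
        = ∑ b : G, ∑ g : G, (if P g then y.coeff (b * g * b⁻¹) else 0) := by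
          rw [Finset.sum_congr rfl fun b _ => h1 b, Finset.sum_const, Finset.card_univ, nsmul_eq_mul]
      _ = ∑ g : G, ∑ b : G, (if P g then y.coeff (b * g * b⁻¹) else 0) := Finset.sum_comm
      _ = 0 := by
          refine Finset.sum_eq_zero fun g _ => ?_
          by_cases hg : P g
          · rw [← h g hg]
            exact Finset.sum_congr rfl fun b _ => if_pos hg
          · exact Finset.sum_eq_zero fun b _ => if_neg hg
  exact (mul_eq_zero.mp h2).resolve_left (by exact_mod_cast Fintype.card_ne_zero)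

/-- `θ(v) = 0` for `v ≠ 1` of order `p`. Proof: `theta p v = ∑_{p ∤ |g|} v_g = v_1 + ∑_{g ≠ 1, p ∤ |g|} v_g`, `v_1 = 0` (`berman_higman`), and the second
sum vanishes by `sum_zero_of_class` and `class_vanish` (`k = p`; conjugate elements have the same order). -/
theorem theta_zero {G : Type} [Group G] [Fintype G] {p : ℕ} [Fact p.Prime]
    (v : (MonoidAlgebra ℤ G)ˣ) (hv : v ^ p = 1) (h1 : v ≠ 1)
    (haug : aug (v : MonoidAlgebra ℤ G) = 1) : theta p (v : MonoidAlgebra ℤ G) = 0 := by
  classical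
  have hp : p.Prime := Fact.out
  have h0 : (v : MonoidAlgebra ℤ G).coeff 1 = 0 := berman_higman v hp.pos hv haug h1
  have hcl := sum_zero_of_class (v : MonoidAlgebra ℤ G) (fun g => ¬ p ∣ orderOf g ∧ g ≠ 1)
    (fun b g => by
      have e1 : orderOf (b * g * b⁻¹) = orderOf g :=
        orderOf_injective (MulAut.conj b).toMonoidHom (MulAut.conj b).injective g
      have e2 : b * g * b⁻¹ = 1 ↔ g = 1 := conj_eq_one_iff
      rw [e1, Ne, e2])
    (fun g hg => class_vanish v hv g hg.2 ((Nat.Prime.coprime_iff_not_dvd hp).mpr hg.1))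
  rw [← hcl, theta]
  refine Finset.sum_congr rfl fun g _ => ?_
  by_cases hg : g = 1
  · subst hg
    rw [if_neg (fun hh : ¬ p ∣ orderOf (1 : G) ∧ (1 : G) ≠ 1 => hh.2 rfl), h0, ite_self]
  · by_cases hd : p ∣ orderOf g
    · rw [if_pos hd, if_neg (fun hh : ¬ p ∣ orderOf g ∧ g ≠ 1 => hh.1 hd)]
    · rw [if_neg hd, if_pos (show ¬ p ∣ orderOf g ∧ g ≠ 1 from ⟨hd, hg⟩)]

end Pool.Agent.H66Q
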