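import Pool.Agent.Lib.H66Q.F2

set_option autoImplicit false
set_option linter.unusedVariables false
set_option linter.unusedSectionVars false

namespace Pool.Agent.H66Q

/-! Chunk F3 (M). Theorem T => prime graph question. -/

private theorem F3_aug_pow {G : Type} [Group G] [Fintype G] (u : (MonoidAlgebra ℤ G)ˣ)
    (h : aug (u : MonoidAlgebra ℤ G) = 1) (k : ℕ) :
    aug ((u ^ k : (MonoidAlgebra ℤ G)ˣ) : MonoidAlgebra ℤ G) = 1 := by
  induction k with
  | zero => rw [pow_zero, Units.val_one, aug_one]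
  | succ k ih => rw [pow_succ, Units.val_mul, aug_mul, ih, h, mul_one]

private theorem F3_theta {G : Type} [Group G] [Fintype G] (p q : ℕ) (hp : p.Prime) (hq : q.Prime)
    (hpq : p ≠ q) (u : (MonoidAlgebra ℤ G)ˣ) (haug : aug (u : MonoidAlgebra ℤ G) = 1)
    (hu : orderOf u = p * q) : theta p (u : MonoidAlgebra ℤ G) = 0 := by
  haveI := Fact.mk hp
  have hcop : Nat.Coprime p q := (Nat.coprime_primes hp hq).2 hpq
  obtain ⟨k1, hk1p, hk1q⟩ : ∃ k, k ≡ 1 [MOD p] ∧ k ≡ 0 [MOD q] :=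
    ⟨_, (Nat.chineseRemainder hcop 1 0).2⟩
  obtain ⟨k2, hk2p, hk2q⟩ : ∃ k, k ≡ 0 [MOD p] ∧ k ≡ 1 [MOD q] :=
    ⟨_, (Nat.chineseRemainder hcop 0 1).2⟩
  have h12 : k1 + k2 ≡ 1 [MOD p * q] :=
    (Nat.modEq_and_modEq_iff_modEq_mul hcop).1 ⟨hk1p.add hk2p, hk1q.add hk2q⟩
  have huv : u = u ^ k1 * u ^ k2 := by
    rw [← pow_add]
    have h1 : u ^ (k1 + k2) = u ^ 1 := by
      rw [pow_eq_pow_iff_modEq, hu]
      exact h12
    rw [h1, pow_one]
  have hvp : (u ^ k1) ^ p = 1 := by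
    rw [← pow_mul, ← orderOf_dvd_iff_pow_eq_one, hu, mul_comm p q]
    exact mul_dvd_mul ((Nat.modEq_zero_iff_dvd).1 hk1q) dvd_rfl
  have hcq : (u ^ k2) ^ q = 1 := by
    rw [← pow_mul, ← orderOf_dvd_iff_pow_eq_one, hu]
    exact mul_dvd_mul ((Nat.modEq_zero_iff_dvd).1 hk2p) dvd_rfl
  have hv1 : u ^ k1 ≠ 1 := by
    intro h
    rw [← orderOf_dvd_iff_pow_eq_one, hu] at h
    have h1 : p ∣ k1 := (dvd_mul_right p q).trans h
    have h2 : (1 : ℕ) ≡ 0 [MOD p] := hk1p.symm.trans ((Nat.modEq_zero_iff_dvd).2 h1)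
    exact hp.one_lt.ne' (Nat.dvd_one.1 ((Nat.modEq_zero_iff_dvd).1 h2))
  have h1 := theta_eq (p := p) (m := q) (u ^ k1) (u ^ k2) (Commute.pow_pow_self u k1 k2) hvp hcq hcop
    (F3_aug_pow u haug k1) (F3_aug_pow u haug k2)
  rw [← huv] at h1
  rw [h1]
  exact theta_zero (u ^ k1) hvp hv1 (F3_aug_pow u haug k1)

private theorem F3_order {G : Type} [Group G] [Fintype G] (p q : ℕ) (hp : p.Prime) (hq : q.Prime)
    (hpq : p ≠ q) (g : G) (h1 : p ∣ orderOf g) (h2 : q ∣ orderOf g) : ∃ g : G, orderOf g = p * q := by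
  have hcop : Nat.Coprime p q := (Nat.coprime_primes hp hq).2 hpq
  obtain ⟨n, hn⟩ := hcop.mul_dvd_of_dvd_of_dvd h1 h2
  have hpos : 0 < orderOf g := orderOf_pos g
  have hn0 : n ≠ 0 := by
    rintro rfl
    rw [mul_zero] at hn
    omega
  refine ⟨g ^ n, ?_⟩
  rw [orderOf_pow_of_dvd hn0 ⟨p * q, by rw [hn, mul_comm]⟩, hn]
  exact Nat.mul_div_cancel _ (Nat.pos_of_ne_zero hn0)

/-- Proof. Let `u` have order `p q` and suppose that no `g` has order `p q`. `split_order` (L6, for the group of units and the prime `p`) or Bezout: `u = v c = c v` with powers `v` of order `p`, `c` of order `q`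
(`aug = 1` for all powers by `aug_mul`, `aug_one`); by `theta_eq` and `theta_zero` (`Fact p.Prime`): `theta p u = theta p v = 0`, in the same way `theta q u = 0` (roles of `v, c` exchanged, `u = c * v`).
For every `g`: `p ∤ |g|` or `q ∤ |g|` (otherwise `p q ∣ |g|` and `g^(|g|/(pq))` has order `p q`, `orderOf_pow_of_dvd`). So
`1 = aug u = ∑_g u_g = theta p u + theta q u - ∑_{p ∤ |g|, q ∤ |g|} u_g` and the last sum is `u_1 + ∑_{g ≠ 1, |g| prime to pq} u_g = 0` by `berman_higman`,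
`sum_zero_of_class`, `class_vanish` (`k = p q`). So `1 = 0`, contradiction. -/
theorem pq_main (G : Type) [Group G] [Fintype G] (p q : ℕ) (hp : p.Prime) (hq : q.Prime)
    (hpq : p ≠ q) (u : (MonoidAlgebra ℤ G)ˣ) (haug : aug (u : MonoidAlgebra ℤ G) = 1)
    (hu : orderOf u = p * q) : ∃ g : G, orderOf g = p * q := by
  classical
  by_contra hno
  have hboth : ∀ g : G, p ∣ orderOf g → q ∣ orderOf g → False := fun g h1 h2 =>
    hno (F3_order p q hp hq hpq g h1 h2)
  have hth1 : theta p (u : MonoidAlgebra ℤ G) = 0 := F3_theta p q hp hq hpq u haug hu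
  have hth2 : theta q (u : MonoidAlgebra ℤ G) = 0 :=
    F3_theta q p hq hp hpq.symm u haug (hu.trans (mul_comm p q))
  have hsum : aug (u : MonoidAlgebra ℤ G) = theta p (u : MonoidAlgebra ℤ G) +
      theta q (u : MonoidAlgebra ℤ G) -
      ∑ g : G, (if ¬ p ∣ orderOf g ∧ ¬ q ∣ orderOf g then (u : MonoidAlgebra ℤ G).coeff g else 0) := by
    unfold aug theta
    rw [← Finset.sum_add_distrib, ← Finset.sum_sub_distrib]
    refine Finset.sum_congr rfl fun g _ => ?_
    by_cases h1 : p ∣ orderOf g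
    · by_cases h2 : q ∣ orderOf g
      · exact (hboth g h1 h2).elim
      · rw [if_pos h1, if_neg h2, if_neg fun h => h.1 h1]
        ring
    · by_cases h2 : q ∣ orderOf g
      · rw [if_neg h1, if_pos h2, if_neg fun h => h.2 h2]
        ring
      · rw [if_neg h1, if_neg h2, if_pos ⟨h1, h2⟩]
        ring
  have hu1 : u ≠ 1 := by
    rintro rfl
    rw [orderOf_one] at hu
    exact hp.one_lt.ne' (Nat.eq_one_of_mul_eq_one_right hu.symm)
  have hpow : u ^ (p * q) = 1 := by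
    rw [← hu]
    exact pow_orderOf_eq_one u
  have hB : (u : MonoidAlgebra ℤ G).coeff 1 = 0 :=
    berman_higman u (Nat.mul_pos hp.pos hq.pos) hpow haug hu1
  have hS : ∑ g : G, (if ¬ p ∣ orderOf g ∧ ¬ q ∣ orderOf g then (u : MonoidAlgebra ℤ G).coeff g else 0) =
      ∑ g : G, (if (¬ p ∣ orderOf g ∧ ¬ q ∣ orderOf g) ∧ g ≠ 1 then
        (u : MonoidAlgebra ℤ G).coeff g else 0) := by
    refine Finset.sum_congr rfl fun g _ => ?_
    by_cases hg : g = 1
    · subst hg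
      rw [hB, ite_self, ite_self]
    · by_cases h1 : ¬ p ∣ orderOf g ∧ ¬ q ∣ orderOf g
      · rw [if_pos h1, if_pos ⟨h1, hg⟩]
      · rw [if_neg h1, if_neg fun h => h1 h.1]
  have hZ : ∑ g : G, (if (¬ p ∣ orderOf g ∧ ¬ q ∣ orderOf g) ∧ g ≠ 1 then
        (u : MonoidAlgebra ℤ G).coeff g else 0) = 0 := by
    refine sum_zero_of_class (u : MonoidAlgebra ℤ G)
      (fun g => (¬ p ∣ orderOf g ∧ ¬ q ∣ orderOf g) ∧ g ≠ 1) ?_ ?_
    · intro b g
      have h1 : orderOf (b * g * b⁻¹) = orderOf g := by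
        rw [← MulAut.conj_apply]
        exact orderOf_injective (MulAut.conj b).toMonoidHom (MulAut.conj b).injective g
      have h2 : b * g * b⁻¹ ≠ 1 ↔ g ≠ 1 := not_congr conj_eq_one_iff
      rw [h1, h2]
    · intro g hg
      refine class_vanish u hpow g hg.2 ?_
      exact Nat.Coprime.mul_left ((Nat.Prime.coprime_iff_not_dvd hp).2 hg.1.1)
        ((Nat.Prime.coprime_iff_not_dvd hq).2 hg.1.2)
  rw [hth1, hth2, hS, hZ, haug] at hsum
  norm_num at hsum

/-- The frozen statement S03479 (complete, from `pq_main` and `aug_eq`). -/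
theorem prime_graph :
    ∀ (G : Type) [Group G] [Fintype G] (p q : ℕ), p.Prime → q.Prime → p ≠ q →
      (∃ u : (MonoidAlgebra ℤ G)ˣ,
          (∃ ε : MonoidAlgebra ℤ G →+* ℤ,
              (∀ g : G, ε (MonoidAlgebra.single g (1 : ℤ)) = 1) ∧
              ε (u : MonoidAlgebra ℤ G) = 1) ∧
          orderOf u = p * q) →
      ∃ g : G, orderOf g = p * q := by
  intro G _ _ p q hp hq hpq ⟨u, ⟨ε, hε, hu⟩, ho⟩
  exact pq_main G p q hp hq hpq u (by rw [← aug_eq ε hε]; exact hu) ho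

end Pool.Agent.H66Q
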