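import Pool.Agent.Lib.H66Q.LD

set_option autoImplicit false
set_option linter.unusedVariables false
set_option linter.unusedSectionVars false

namespace Pool.Agent.H66Q

/-! Chunk L1a (S/M). Elementary facts on the matrices `LM`, `Pm`. -/

section

variable {G : Type} [Group G] [Fintype G] [DecidableEq G] (R : Type) [CommRing R]

private theorem L1a_left (g : G) (M : Matrix G G R) (a c : G) :
    (Pm R g * M) a c = M (a * g) c := by
  rw [Matrix.mul_apply, Finset.sum_eq_single (a * g)]
  · simp [Pm]
  · intro d _ hd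
    simp [Pm, hd]
  · intro h
    exact absurd (Finset.mem_univ _) h

private theorem L1a_right (g : G) (M : Matrix G G R) (a b : G) :
    (M * Pm R g) a b = M a (b * g⁻¹) := by
  rw [Matrix.mul_apply, Finset.sum_eq_single (b * g⁻¹)]
  · simp [Pm]
  · intro d _ hd
    have h1 : ¬ b = d * g := fun h => hd (by rw [h]; group)
    simp [Pm, h1]
  · intro h
    exact absurd (Finset.mem_univ _) h

/-- The action by reindexing is conjugation with `Pm g`. Proof: entrywise; `(Pm g * M) a c = M (a g) c`, `(M * Pm g⁻¹) a b = M a (b g)`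
(`Pm R g a b = if b = a * g then 1 else 0`, `Matrix.mul_apply`, `Finset.sum_eq_single`). -/
theorem actM_eq (g : G) : actM R g = conjR (PmU R g) := by
  refine RingEquiv.ext fun M => ?_
  ext a b
  have h1 : (((PmU R g)⁻¹ : (Matrix G G R)ˣ) : Matrix G G R) = Pm R g⁻¹ := rfl
  rw [actM_apply, conjR_apply, h1, PmU_coe, L1a_right, L1a_left, inv_inv]

/-- `M` is free over `1 × G`. Proof: the summand at `g` is `1` exactly at the place `(g⁻¹, g⁻¹)`. -/
theorem b_sum : ∑ g : G, actM R g (Matrix.single (1 : G) (1 : G) (1 : R)) = 1 := by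
  ext a b
  rw [Matrix.sum_apply]
  simp only [actM_apply, Matrix.single_apply]
  rw [Matrix.one_apply]
  by_cases h : a = b
  · subst h
    rw [if_pos rfl, Finset.sum_eq_single a⁻¹]
    · simp
    · intro g _ hg
      rw [if_neg]
      rintro ⟨h1, _⟩
      exact hg (eq_inv_of_mul_eq_one_right h1.symm)
    · intro h1
      exact absurd (Finset.mem_univ _) h1
  · rw [if_neg h]
    refine Finset.sum_eq_zero fun g _ => ?_
    rw [if_neg]
    rintro ⟨h1, h2⟩
    exact h (mul_right_cancel (h1.symm.trans h2))

/-- Left and right multiplications commute. Proof: `actM g (LM y) = LM y` entrywise (`(a g)(b g)⁻¹ = a b⁻¹`) and `actM_eq`, or directly entrywise. -/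
theorem LM_Pm_comm (y : MonoidAlgebra ℤ G) (g : G) : Commute (LM R y) (Pm R g) := by
  show LM R y * Pm R g = Pm R g * LM R y
  ext a b
  rw [L1a_right, L1a_left, LM_apply, LM_apply, mul_inv_rev, inv_inv, mul_assoc]

end

end Pool.Agent.H66Q
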