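import Pool.Agent.Lib.H66Q.L1b

set_option autoImplicit false
set_option linter.unusedVariables false
set_option linter.unusedSectionVars false

namespace Pool.Agent.H66Q

/-! Chunk L2 (S/M). (D) of PROOF.md.

Proof. By `sum_trace_Pm` the left side is `∑_a ∑_b (LM y * (1 - M)) a b = ∑_b ∑_c (∑_a y(a c⁻¹)) (1 - M) c b = aug y * ∑_b ∑_c (1 - M) c b`
(`a ↦ a c⁻¹` is a bijection), and `∑_c (1 - M) c b = 1 - ∑_c M c b = 1 - ∑_c M c 1` by `Inv` (`M (c b) (1 b) = M c 1`, `c ↦ c b` is a bijection). -/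

theorem sum_D {G : Type} [Group G] [Fintype G] [DecidableEq G] (R : Type) [CommRing R]
    (y : MonoidAlgebra ℤ G) (M : Matrix G G R) (hM : Inv R M) :
    ∑ g : G, Matrix.trace (LM R y * (1 - M) * Pm R g) =
      (Fintype.card G : R) * ((aug y : ℤ) : R) * (1 - ∑ c : G, M c 1) := by
  rw [sum_trace_Pm, Finset.sum_comm]
  have h1 : ∀ c : G, ∑ a : G, LM R y a c = ((aug y : ℤ) : R) := by
    intro c
    unfold aug
    rw [Int.cast_sum, ← Equiv.sum_comp (Equiv.mulRight c⁻¹) (fun a => ((y.coeff a : ℤ) : R))]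
    refine Finset.sum_congr rfl fun a _ => ?_
    rw [LM_apply, Equiv.coe_mulRight]
  have h2 : ∀ b : G, ∑ c : G, (1 - M) c b = 1 - ∑ c : G, M c 1 := by
    intro b
    simp only [Matrix.sub_apply, Finset.sum_sub_distrib]
    congr 1
    · simp only [Matrix.one_apply, Finset.sum_ite_eq', Finset.mem_univ, if_true]
    · rw [← Equiv.sum_comp (Equiv.mulRight b⁻¹) (fun c => M c 1)]
      refine Finset.sum_congr rfl fun c _ => ?_
      have h := hM b (c * b⁻¹) 1
      rw [inv_mul_cancel_right, one_mul] at h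
      rw [h, Equiv.coe_mulRight]
  have h3 : ∀ b : G, ∑ a : G, (LM R y * (1 - M)) a b = ((aug y : ℤ) : R) * (1 - ∑ c : G, M c 1) := by
    intro b
    simp only [Matrix.mul_apply]
    rw [Finset.sum_comm, ← h2 b, Finset.mul_sum]
    refine Finset.sum_congr rfl fun c _ => ?_
    rw [← Finset.sum_mul, h1 c]
  rw [Finset.sum_congr rfl fun b _ => h3 b, Finset.sum_const, Finset.card_univ, nsmul_eq_mul, mul_assoc]

end Pool.Agent.H66Q
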