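import Pool.Agent.Lib.H66Q.LS
import Pool.Agent.Lib.H66Q.A4

set_option autoImplicit false
set_option linter.unusedVariables false
set_option linter.unusedSectionVars false

namespace Pool.Agent.H66Q

/-! Chunk L4 (M). The idempotent matrix `a` for `u = v c`: existence with all properties used below. -/

section

variable {G : Type} [Group G] [Fintype G] [DecidableEq G] {p m : ℕ} [Fact p.Prime]

/-- The properties of the idempotent. -/
structure IdemG (p K : ℕ) (v c : (MonoidAlgebra ℤ G)ˣ) (a : Matrix G G (ZMod (p ^ K))) : Prop where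
  idem : a * a = a
  inv : Inv (ZMod (p ^ K)) a
  commv : Commute (LM (ZMod (p ^ K)) (v : MonoidAlgebra ℤ G)) a
  commc : Commute (LM (ZMod (p ^ K)) (c : MonoidAlgebra ℤ G)) a
  commP : ∀ g : G, Commute (Pm (ZMod (p ^ K)) g) a
  nt : ∃ e, a = nrm p (conjR (LMu (ZMod (p ^ K)) v)) e
  nx : ∀ x : G, orderOf x = p →
    ∃ e, 1 - a = nrm p (conjR (LMu (ZMod (p ^ K)) v * PmU (ZMod (p ^ K)) x)) e

private theorem L4_commute {E : Type} [Ring E] {w : Eˣ} {z : E} (h : conjR w z = z) :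
    Commute (w : E) z := by
  rw [conjR_apply, Units.mul_inv_eq_iff_eq_mul] at h
  exact h

/-- Proof. `thmA` with `S = sysG (ZMod (p^K)) v hv`, `γ = conjR (LMu c)`, `γ^m = 1` (`map_pow`, `hc`), `Commute γ S.t` from `hvc`, `Commute γ (S.act g)` from `conj_LM_act` (symmetric);
`(p : Matrix)^K = 0` (entrywise or `Nat.cast` through `ZMod (p^K)`: `((p^K : ℕ) : ZMod (p^K)) = 0`; `Matrix` is an algebra). `Finite (Matrix G G (ZMod (p^K)))`: `NeZero (p^K)`. `S.act g a = a` for all `g` is `Inv`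
(`actM_apply`), and with `actM_eq` it is `Commute (Pm g) a` (`conjR v z = z ↔ v z = z v`, `conjR_apply`); `S.t a = a` is `commv`, `γ a = a` is `commc`.
`S.tau x = S.t * S.act x = conjR (LMu v * PmU x)` (`actM_eq`, `map_mul`). -/
theorem exists_idemG (v c : (MonoidAlgebra ℤ G)ˣ) (hvc : Commute v c) (hv : v ^ p = 1)
    (hc : c ^ m = 1) (hm : Nat.Coprime p m) (K : ℕ) :
    ∃ a : Matrix G G (ZMod (p ^ K)), IdemG p K v c a := by
  have hne : NeZero (p ^ K) := ⟨pow_ne_zero _ (Fact.out : p.Prime).ne_zero⟩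
  have hpK : ((p : ℕ) : Matrix G G (ZMod (p ^ K))) ^ K = 0 := by
    have h1 : ((p ^ K : ℕ) : Matrix G G (ZMod (p ^ K))) = 0 := by
      rw [← map_natCast (Matrix.scalar G : ZMod (p ^ K) →+* Matrix G G (ZMod (p ^ K))) (p ^ K),
        ZMod.natCast_self, map_zero]
    rw [← Nat.cast_pow]
    exact h1
  obtain ⟨a, h1, h2, h3, h4, h5, h6⟩ := thmA K hpK (sysG (ZMod (p ^ K)) v hv)
    (conjR (LMu (ZMod (p ^ K)) c)) m
    (by rw [← map_pow, ← map_pow, hc, map_one, map_one]) hm
    ((hvc.symm.map (LMu (ZMod (p ^ K)))).map conjR)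
    (fun g => (conj_LM_act (ZMod (p ^ K)) c g).symm)
  have h3' : ∀ g : G, actM (ZMod (p ^ K)) g a = a := h3
  refine ⟨a, h1, fun g x y => ?_, ?_, ?_, fun g => ?_, h5, fun x hx => ?_⟩
  · have h := congrFun (congrFun (h3' g) x) y
    rwa [actM_apply] at h
  · have h4' : conjR (LMu (ZMod (p ^ K)) v) a = a := h4
    exact L4_commute h4'
  · exact L4_commute h2
  · have h := h3' g
    rw [actM_eq] at h
    exact L4_commute h
  · obtain ⟨e, he⟩ := h6 x hx
    refine ⟨e, ?_⟩
    have h7 : (sysG (ZMod (p ^ K)) v hv).tau x =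
        conjR (LMu (ZMod (p ^ K)) v * PmU (ZMod (p ^ K)) x) := by
      rw [map_mul, ← actM_eq]
      rfl
    rw [h7] at he
    exact he

end

end Pool.Agent.H66Q
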