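import Pool.Agent.Lib.H66Q.L4
import Pool.Agent.Lib.H66Q.T5

set_option autoImplicit false
set_option linter.unusedVariables false
set_option linter.unusedSectionVars false

namespace Pool.Agent.H66Q

/-! Chunk L5 (S/M). (B) of PROOF.md.

Proof. `tr_zero` (T5) with `A = Matrix G G (ZMod (p^K))`, `tr = Matrix.traceAddMonoidHom G (ZMod (p^K))` (`Matrix.trace_mul_comm`), `j = 1` (`p^1 = p`), `τ = LMu v`, `w = LMu c' * PmU g`,
`M = m * orderOf g` (coprime to `p`), `z = a`. `w` commutes with `τ` (`hvc`, `LM_Pm_comm`), `w ^ M = 1` (the two factors commute, `mul_pow`), `w` commutes with `a` (`h.commP`, `hca`). Finally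
`LM (v c') * a * Pm g = LM v * (LM c' * Pm g) * a` because `a` commutes with `Pm g`. -/

theorem tr_B {G : Type} [Group G] [Fintype G] [DecidableEq G] {p K m : ℕ} [Fact p.Prime]
    (v c c' : (MonoidAlgebra ℤ G)ˣ) (hvc : Commute v c') (hv : v ^ p = 1) (hc : c' ^ m = 1)
    (hm : Nat.Coprime p m) (a : Matrix G G (ZMod (p ^ K))) (h : IdemG p K v c a)
    (hca : Commute (LM (ZMod (p ^ K)) (c' : MonoidAlgebra ℤ G)) a) (g : G) (hg : ¬ p ∣ orderOf g) :
    Matrix.trace (LM (ZMod (p ^ K)) ((v * c' : (MonoidAlgebra ℤ G)ˣ) : MonoidAlgebra ℤ G) * a *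
      Pm (ZMod (p ^ K)) g) = 0 := by
  have hne : NeZero (p ^ K) := ⟨pow_ne_zero _ (Fact.out : p.Prime).ne_zero⟩
  have hpK : ((p : ℕ) : Matrix G G (ZMod (p ^ K))) ^ K = 0 := by
    have h1 : ((p ^ K : ℕ) : Matrix G G (ZMod (p ^ K))) = 0 := by
      rw [← map_natCast (Matrix.scalar G : ZMod (p ^ K) →+* Matrix G G (ZMod (p ^ K))) (p ^ K),
        ZMod.natCast_self, map_zero]
    rw [← Nat.cast_pow]
    exact h1
  have hB : ∀ β : ZMod (p ^ K), (p ^ K) • β = 0 := by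
    intro β
    rw [nsmul_eq_mul, ZMod.natCast_self, zero_mul]
  have hcP : Commute (LMu (ZMod (p ^ K)) c') (PmU (ZMod (p ^ K)) g) := by
    show LMu (ZMod (p ^ K)) c' * PmU (ZMod (p ^ K)) g = PmU (ZMod (p ^ K)) g * LMu (ZMod (p ^ K)) c'
    ext1
    exact (LM_Pm_comm (ZMod (p ^ K)) (c' : MonoidAlgebra ℤ G) g).eq
  have hvP : Commute (LMu (ZMod (p ^ K)) v) (PmU (ZMod (p ^ K)) g) := by
    show LMu (ZMod (p ^ K)) v * PmU (ZMod (p ^ K)) g = PmU (ZMod (p ^ K)) g * LMu (ZMod (p ^ K)) v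
    ext1
    exact (LM_Pm_comm (ZMod (p ^ K)) (v : MonoidAlgebra ℤ G) g).eq
  have hg0 : 0 < orderOf g := orderOf_pos g
  have hM : Nat.Coprime p (m * orderOf g) :=
    Nat.Coprime.mul_right hm (((Fact.out : p.Prime).coprime_iff_not_dvd).2 hg)
  have hw : (LMu (ZMod (p ^ K)) c' * PmU (ZMod (p ^ K)) g) ^ (m * orderOf g) = 1 := by
    rw [hcP.mul_pow, ← map_pow, ← map_pow, pow_mul, hc, one_pow, mul_comm m, pow_mul,
      pow_orderOf_eq_one, one_pow, map_one, map_one, one_mul]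
  have hzw : Commute a ((LMu (ZMod (p ^ K)) c' * PmU (ZMod (p ^ K)) g :
      (Matrix G G (ZMod (p ^ K)))ˣ) : Matrix G G (ZMod (p ^ K))) := by
    rw [Units.val_mul]
    exact (hca.symm).mul_right (h.commP g).symm
  have hz : ∃ e, a = nrm (p ^ 1) (conjR (LMu (ZMod (p ^ K)) v)) e := by
    rw [pow_one]
    exact h.nt
  have key := tr_zero K hpK (Matrix.traceAddMonoidHom G (ZMod (p ^ K)))
    (fun x y => Matrix.trace_mul_comm x y) hB 1 le_rfl (LMu (ZMod (p ^ K)) v)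
    (by rw [pow_one, ← map_pow, hv, map_one]) (LMu (ZMod (p ^ K)) c' * PmU (ZMod (p ^ K)) g)
    (m * orderOf g) hw hM ((hvc.map (LMu (ZMod (p ^ K)))).mul_right hvP) a h.idem hzw hz
  have heq : LM (ZMod (p ^ K)) ((v * c' : (MonoidAlgebra ℤ G)ˣ) : MonoidAlgebra ℤ G) * a *
      Pm (ZMod (p ^ K)) g = (LMu (ZMod (p ^ K)) v : Matrix G G (ZMod (p ^ K))) *
        ((LMu (ZMod (p ^ K)) c' * PmU (ZMod (p ^ K)) g : (Matrix G G (ZMod (p ^ K)))ˣ) :
          Matrix G G (ZMod (p ^ K))) * a := by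
    rw [Units.val_mul, Units.val_mul, map_mul, LMu_coe, LMu_coe, PmU_coe]
    rw [mul_assoc _ a, ← (h.commP g).eq]
    simp only [mul_assoc]
  rw [heq]
  exact key

end Pool.Agent.H66Q
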