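import Pool.Agent.Lib.H66Q.M3

set_option autoImplicit false
set_option linter.unusedVariables false
set_option linter.unusedSectionVars false

open scoped Pointwise

namespace Pool.Agent.H66Q

/-- (CD) Let `q = p^j`, `h = τ^q`, `h^p = 1`, and `1` a relative trace for `h`. Then `1` is a relative trace for `τ` (with `p^(j+1)` terms). Proof (no reduction modulo `p` needed). Write `N_h = nrm p h`, `N_τ = nrm (p^(j+1)) τ`, `N' = nrm q τ`; `N_τ z = N_h (N' z)` (sum over `i + q l`), `h z - z = τ (N' z) - N' z`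
(telescoping). (0) `1 = N_h e`. If `h z = z` then `z = N_h (e z)` (`nrmR_mul_right`). If `N_h z = 0` then `z = h z' - z'` for some `z'`: `acyc_abstract` with `C = ⊤`, `χ = left multiplication by e`
(`∑_{i<p} h^i (e * h^(p-i) z) = (N_h e) * z = z`). (1) CLAIM: if `τ v = v` there are `w'`, `v'` with `τ v' = v'` and `v = N_τ w' + p v'`. Proof: `h v = v`, so `v = N_h w`. `N_h (τ w - w) = τ v - v = 0`, so `τ w - w = h w' - w' = τ (N' w') - N' w'`. So `v' := w - N' w'` is fixed by
`τ`, hence by `h`, `N_h v' = p v'`, and `v = N_h w = N_h (N' w') + N_h v' = N_τ w' + p v'`. (2) Iterate `K` times starting with `v = 1`: `1 = N_τ (w) + p^K v = N_τ w`. -/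
theorem cd {p : ℕ} [Fact p.Prime] {E : Type} [Ring E] (K : ℕ) (hK : (p : E) ^ K = 0) (τ : RingAut E) (j : ℕ)
    (hτ : τ ^ (p ^ (j + 1)) = 1) (h1 : ∃ e : E, 1 = nrm p (τ ^ (p ^ j)) e) : ∃ e : E, 1 = nrm (p ^ (j + 1)) τ e := by
  classical
  have hp : 0 < p := (Fact.out : p.Prime).pos
  obtain ⟨e, he⟩ := h1
  obtain ⟨q, hq⟩ : ∃ q, q = p ^ j := ⟨_, rfl⟩
  rw [← hq] at he
  obtain ⟨h, hh⟩ : ∃ h : RingAut E, h = τ ^ q := ⟨_, rfl⟩
  rw [← hh] at he
  have hqp : p ^ (j + 1) = q * p := by rw [hq, pow_succ]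
  have hhp : h ^ p = 1 := by rw [hh, ← pow_mul, ← hqp]; exact hτ
  -- the powers of `h`
  have hfixpow : ∀ (σ : RingAut E) (z : E), σ z = z → ∀ i : ℕ, (σ ^ i) z = z := by
    intro σ z hz i
    induction i with
    | zero => rfl
    | succ i ih => rw [pow_succ, RingAut.mul_apply, hz, ih]
  -- F1
  have F1 : ∀ z : E, nrm (p ^ (j + 1)) τ z = nrm p h (nrm q τ z) := by
    intro z
    have key : ∀ n : ℕ, ∑ i ∈ Finset.range (q * n), (τ ^ i) z =
        ∑ l ∈ Finset.range n, (h ^ l) (∑ i ∈ Finset.range q, (τ ^ i) z) := by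
      intro n
      induction n with
      | zero => simp
      | succ n ih =>
        rw [Nat.mul_succ, Finset.sum_range_add, ih, Finset.sum_range_succ]
        congr 1
        rw [map_sum]
        refine Finset.sum_congr rfl fun i _ => ?_
        rw [hh, ← pow_mul, pow_add, RingAut.mul_apply]
    rw [nrmR_eq, nrmR_eq, nrmR_eq, hqp, key]
  -- F2
  have F2 : ∀ z : E, h z - z = τ (nrm q τ z) - nrm q τ z := by
    intro z
    have h2 := Finset.sum_range_sub (fun i => (τ ^ i) z) q
    rw [nrmR_eq, map_sum, ← Finset.sum_sub_distrib, hh]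
    rw [← (show (τ ^ 0) z = z from rfl)]
    rw [show (τ ^ q) ((τ ^ 0) z) = (τ ^ q) z from rfl]
    rw [← h2]
    refine Finset.sum_congr rfl fun i _ => ?_
    rw [pow_succ', RingAut.mul_apply]
    rfl
  -- (0)
  have A1 : ∀ z : E, h z = z → z = nrm p h (e * z) := by
    intro z hz
    rw [nrmR_mul_right p h e z hz, ← he, one_mul]
  have A2 : ∀ z : E, nrm p h z = 0 → ∃ z' : E, z = h z' - z' := by
    intro z hz
    have hit : ∀ (n : ℕ) (y : E),
        (⇑((h : E ≃+* E).toAddEquiv.toAddMonoidHom : E →+ E))^[n] y = (h ^ n) y := by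
      intro n y
      exact iterR h n y
    obtain ⟨z', _, hz'⟩ := (acyc_abstract p hp ((h : E ≃+* E).toAddEquiv.toAddMonoidHom)
      (fun φ => by rw [hit, hhp]; rfl) ⊤ (fun φ _ => AddSubgroup.mem_top _)
      (AddMonoidHom.mulLeft e) (fun φ _ => AddSubgroup.mem_top _)
      (fun φ _ => by
        have h3 : ∀ i ∈ Finset.range p,
            (⇑((h : E ≃+* E).toAddEquiv.toAddMonoidHom : E →+ E))^[i]
              (AddMonoidHom.mulLeft e
                ((⇑((h : E ≃+* E).toAddEquiv.toAddMonoidHom : E →+ E))^[p - i] φ)) =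
              (h ^ i) e * φ := by
          intro i hi
          rw [hit, hit]
          show (h ^ i) (e * (h ^ (p - i)) φ) = (h ^ i) e * φ
          rw [map_mul, ← RingAut.mul_apply, ← pow_add,
            Nat.add_sub_cancel' (Finset.mem_range.1 hi).le, hhp]
          rfl
        rw [Finset.sum_congr rfl h3, ← Finset.sum_mul, ← nrmR_eq, ← he, one_mul])).2 z
      (AddSubgroup.mem_top _) hz
    exact ⟨z', hz'⟩
  -- (1)
  have nrm_sub : ∀ y z : E, nrm p h (y - z) = nrm p h y - nrm p h z := by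
    intro y z
    rw [sub_eq_add_neg, nrmR_add, nrmR_neg, ← sub_eq_add_neg]
  have claim : ∀ v : E, τ v = v → ∃ w' v' : E, τ v' = v' ∧
      v = nrm (p ^ (j + 1)) τ w' + (p : E) * v' := by
    intro v hv
    have hhv : h v = v := by rw [hh]; exact hfixpow τ v hv q
    have hw := A1 v hhv
    obtain ⟨w, hwd⟩ : ∃ w, w = e * v := ⟨_, rfl⟩
    rw [← hwd] at hw
    have hcomm : τ * h = h * τ := by rw [hh, ← pow_succ, ← pow_succ']
    have h2 : nrm p h (τ w - w) = 0 := by
      rw [nrm_sub, ← nrmR_equiv p τ h h hcomm w, ← hw, hv, sub_self]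
    obtain ⟨w', hw'⟩ := A2 _ h2
    rw [F2] at hw'
    have hv' : τ (w - nrm q τ w') = w - nrm q τ w' := by
      rw [map_sub]
      have h3 : τ w = τ (nrm q τ w') - nrm q τ w' + w := by rw [← hw', sub_add_cancel]
      rw [h3]
      abel
    refine ⟨w', w - nrm q τ w', hv', ?_⟩
    have hhv' : h (w - nrm q τ w') = w - nrm q τ w' := by
      rw [hh]
      exact hfixpow τ _ hv' q
    have h4 : nrm p h (w - nrm q τ w') = (p : E) * (w - nrm q τ w') := by
      rw [nrmR_eq, Finset.sum_congr rfl fun i _ => hfixpow h _ hhv' i, Finset.sum_const,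
        Finset.card_range, nsmul_eq_mul]
    rw [← h4, F1, ← nrmR_add, add_sub_cancel]
    exact hw
  -- (2)
  have it : ∀ k : ℕ, ∃ w v : E, τ v = v ∧ 1 = nrm (p ^ (j + 1)) τ w + (p : E) ^ k * v := by
    intro k
    induction k with
    | zero => exact ⟨0, 1, map_one τ, by rw [nrmR_zero, pow_zero, one_mul, zero_add]⟩
    | succ k ih =>
      obtain ⟨w, v, hv, hwv⟩ := ih
      obtain ⟨w', v', hv', hwv'⟩ := claim v hv
      refine ⟨w + (p : E) ^ k * w', v', hv', ?_⟩
      rw [nrmR_add, nrmR_mul_left _ τ w' ((p : E) ^ k) (by rw [map_pow, map_natCast])]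
      calc (1 : E) = nrm (p ^ (j + 1)) τ w + (p : E) ^ k * v := hwv
        _ = nrm (p ^ (j + 1)) τ w + (p : E) ^ k * (nrm (p ^ (j + 1)) τ w' + (p : E) * v') := by
          rw [← hwv']
        _ = _ := by rw [mul_add, pow_succ (p : E) k, mul_assoc, add_assoc]
  obtain ⟨w, v, _, hwv⟩ := it K
  rw [hK, zero_mul, add_zero] at hwv
  exact ⟨w, hwv⟩

end Pool.Agent.H66Q
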