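import Pool.Agent.Lib.H66Q.L4
import Pool.Agent.Lib.H66Q.L6
import Pool.Agent.Lib.H66Q.T1
import Pool.Agent.Lib.H66Q.T5
import Pool.Agent.Lib.H66Q.B1

set_option autoImplicit false
set_option linter.unusedVariables false
set_option linter.unusedSectionVars false

namespace Pool.Agent.H66Q

/-! Chunk L7 (M). (C) of PROOF.md.

Proof. `split_order`: `g = g1 g2`, `orderOf g1 = p ^ j`, `j ≥ 1`, `orderOf g2 = l`, `p ∤ l`. `tr_zero` (T5) with this `j`, `τ = LMu v * PmU g1`, `w = LMu c' * PmU g2`, `M = m * l`, `z = 1 - a`: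
`τ ^ (p ^ j) = 1` (`v ^ p = 1`, commuting factors, `mul_pow`); `τ, w` commute (`hvc`, `LM_Pm_comm`, `g1 g2 = g2 g1`); `w` commutes with `1 - a`; `(1-a)(1-a) = 1-a`.
`z` is a relative trace for `conjR τ`: if `j = 1` this is `h.nx g1`. If `j = i + 2`: `cd` (T1) for the automorphism `conjR τ` (`(p : Matrix)^K = 0`): `(conjR τ)^(p^(i+1)) = conjR (τ^(p^(i+1)))` and
`τ^(p^(i+1)) = PmU x`, `x = g1^(p^(i+1))` of order `p` (`v^(p^(i+1)) = 1` since `p ∣ p^(i+1)`; `orderOf_pow`), `conjR (PmU x) = actM x` (`actM_eq`), and `1 = nrm p (actM x) e` by `exists_cyc` (B1) with `b_sum`.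
So `1 = nrm (p^j) (conjR τ) e`, and `1 - a = nrm (p^j) (conjR τ) (e * (1 - a))` because `τ` commutes with `a` (`h.commv`, `h.commP`; `nrmR_mul_right` of N1 or directly). Finally
`LM (v c') * (1 - a) * Pm g = (LM v * Pm g1) * (LM c' * Pm g2) * (1 - a)` (`Pm_mul`, all commute). -/

/-- `p ^ K = 0` in the matrices over `ZMod (p ^ K)`. -/
private theorem L7_pK {G : Type} [Fintype G] [DecidableEq G] (p K : ℕ) :
    ((p : ℕ) : Matrix G G (ZMod (p ^ K))) ^ K = 0 := by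
  have h1 : ((p : ℕ) : ZMod (p ^ K)) ^ K = 0 := by
    rw [← Nat.cast_pow]
    exact ZMod.natCast_self _
  have h2 : ((p : ℕ) : Matrix G G (ZMod (p ^ K))) =
      Matrix.scalar G ((p : ℕ) : ZMod (p ^ K)) := (map_natCast (Matrix.scalar G) p).symm
  rw [h2, ← map_pow, h1, map_zero]

private theorem L7_fix {E : Type} [Ring E] (t : Eˣ) (z : E) (h : Commute (t : E) z) :
    conjR t z = z := by
  rw [conjR_apply, h.eq, mul_assoc, Units.mul_inv, mul_one]

theorem tr_C {G : Type} [Group G] [Fintype G] [DecidableEq G] {p K m : ℕ} [Fact p.Prime]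
    (v c c' : (MonoidAlgebra ℤ G)ˣ) (hvc : Commute v c') (hv : v ^ p = 1) (hc : c' ^ m = 1)
    (hm : Nat.Coprime p m) (a : Matrix G G (ZMod (p ^ K))) (h : IdemG p K v c a)
    (hca : Commute (LM (ZMod (p ^ K)) (c' : MonoidAlgebra ℤ G)) a) (g : G) (hg : p ∣ orderOf g) :
    Matrix.trace (LM (ZMod (p ^ K)) ((v * c' : (MonoidAlgebra ℤ G)ˣ) : MonoidAlgebra ℤ G) *
      (1 - a) * Pm (ZMod (p ^ K)) g) = 0 := by
  have hp : p.Prime := Fact.out
  obtain ⟨j, l, g1, g2, hg12, hcomm, ho1, ho2, hpl, hj, -, -⟩ := split_order g hp (orderOf_pos g)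
  have hj1 : 1 ≤ j := hj hg
  -- commuting facts
  have cLP : ∀ (y : (MonoidAlgebra ℤ G)ˣ) (x : G),
      Commute (LMu (ZMod (p ^ K)) y) (PmU (ZMod (p ^ K)) x) := by
    intro y x
    apply Units.ext
    rw [Units.val_mul, Units.val_mul, LMu_coe, PmU_coe]
    exact (LM_Pm_comm (ZMod (p ^ K)) (y : MonoidAlgebra ℤ G) x).eq
  have cLL : Commute (LMu (ZMod (p ^ K)) v) (LMu (ZMod (p ^ K)) c') := hvc.map (LMu (ZMod (p ^ K)))
  have cPP : Commute (PmU (ZMod (p ^ K)) g1) (PmU (ZMod (p ^ K)) g2) := hcomm.map (PmU (ZMod (p ^ K)))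
  obtain ⟨τ, hτd⟩ : ∃ τ, τ = LMu (ZMod (p ^ K)) v * PmU (ZMod (p ^ K)) g1 := ⟨_, rfl⟩
  obtain ⟨w, hwd⟩ : ∃ w, w = LMu (ZMod (p ^ K)) c' * PmU (ZMod (p ^ K)) g2 := ⟨_, rfl⟩
  have hτpow : ∀ n : ℕ, τ ^ n = LMu (ZMod (p ^ K)) (v ^ n) * PmU (ZMod (p ^ K)) (g1 ^ n) := by
    intro n
    rw [hτd, (cLP v g1).mul_pow, map_pow, map_pow]
  have hwpow : ∀ n : ℕ, w ^ n = LMu (ZMod (p ^ K)) (c' ^ n) * PmU (ZMod (p ^ K)) (g2 ^ n) := by
    intro n
    rw [hwd, (cLP c' g2).mul_pow, map_pow, map_pow]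
  have hvj : v ^ (p ^ j) = 1 := by
    obtain ⟨i, rfl⟩ := Nat.exists_eq_add_of_le' hj1
    rw [pow_succ', pow_mul, hv, one_pow]
  have hτ1 : τ ^ (p ^ j) = 1 := by
    rw [hτpow, hvj, ← ho1, pow_orderOf_eq_one, map_one, map_one, one_mul]
  have hw1 : w ^ (m * l) = 1 := by
    have e1 : c' ^ (m * l) = 1 := by rw [pow_mul, hc, one_pow]
    have e2 : g2 ^ (m * l) = 1 := by rw [mul_comm, pow_mul, ← ho2, pow_orderOf_eq_one, one_pow]
    rw [hwpow, e1, e2, map_one, map_one, one_mul]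
  have hM : Nat.Coprime p (m * l) := Nat.Coprime.mul_right hm ((hp.coprime_iff_not_dvd).2 hpl)
  have hτw : Commute τ w := by
    rw [hτd, hwd]
    exact (Commute.mul_right cLL (cLP v g2)).mul_left
      (Commute.mul_right (cLP c' g1).symm cPP)
  -- the idempotent `1 - a`
  have hzz : (1 - a) * (1 - a) = 1 - a := by
    rw [mul_sub, sub_mul, sub_mul, h.idem, one_mul, mul_one, one_mul]
    abel
  have hza : ∀ x : Matrix G G (ZMod (p ^ K)), Commute x a → Commute x (1 - a) := by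
    intro x hx
    exact (Commute.one_right x).sub_right hx
  have hzτ : Commute (τ : Matrix G G (ZMod (p ^ K))) (1 - a) := by
    apply hza
    rw [hτd, Units.val_mul, LMu_coe, PmU_coe]
    exact h.commv.mul_left (h.commP g1)
  have hzw : Commute (1 - a) (w : Matrix G G (ZMod (p ^ K))) := by
    apply Commute.symm
    apply hza
    rw [hwd, Units.val_mul, LMu_coe, PmU_coe]
    exact hca.mul_left (h.commP g2)
  -- the relative trace
  have hz : ∃ e : Matrix G G (ZMod (p ^ K)), 1 - a = nrm (p ^ j) (conjR τ) e := by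
    obtain ⟨i, rfl⟩ := Nat.exists_eq_add_of_le' hj1
    rcases Nat.eq_zero_or_pos i with hi | hi
    · subst hi
      have ho : orderOf g1 = p := by rw [ho1, zero_add, pow_one]
      obtain ⟨e, he⟩ := h.nx g1 ho
      refine ⟨e, ?_⟩
      have e1 : p ^ (0 + 1) = p := by rw [zero_add, pow_one]
      have e2 : conjR τ = conjR (LMu (ZMod (p ^ K)) v * PmU (ZMod (p ^ K)) g1) := by rw [hτd]
      rw [e1, e2]
      exact he
    · have hx : orderOf (g1 ^ (p ^ i)) = p := by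
        rw [orderOf_pow, ho1, Nat.gcd_eq_right (pow_dvd_pow p (Nat.le_succ i)), pow_succ,
          Nat.mul_div_cancel_left _ (pow_pos hp.pos i)]
      have hvi : v ^ (p ^ i) = 1 := by
        obtain ⟨i', rfl⟩ := Nat.exists_eq_add_of_le' hi
        rw [pow_succ', pow_mul, hv, one_pow]
      have e3 : (conjR τ) ^ (p ^ i) = actM (ZMod (p ^ K)) (g1 ^ (p ^ i)) := by
        rw [← map_pow, hτpow, hvi, map_one, one_mul, actM_eq]
      obtain ⟨e, he⟩ := exists_cyc (actM (ZMod (p ^ K))) _ (b_sum (G := G) (ZMod (p ^ K)))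
        (g1 ^ (p ^ i))
      rw [hx] at he
      have h1 : ∃ e : Matrix G G (ZMod (p ^ K)), 1 = nrm p ((conjR τ) ^ (p ^ i)) e := by
        refine ⟨e, ?_⟩
        rw [e3]
        exact he
      have hτ2 : (conjR τ) ^ (p ^ (i + 1)) = 1 := by
        rw [← map_pow, hτ1, map_one]
      obtain ⟨e', he'⟩ := cd K (L7_pK p K) (conjR τ) i hτ2 h1
      refine ⟨e' * (1 - a), ?_⟩
      rw [nrmR_mul_right _ _ _ _ (L7_fix τ (1 - a) hzτ), ← he', one_mul]
  have hB : ∀ β : ZMod (p ^ K), (p ^ K) • β = 0 := by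
    intro β
    rw [nsmul_eq_mul, ZMod.natCast_self, zero_mul]
  have key := tr_zero K (L7_pK p K) (Matrix.traceAddMonoidHom G (ZMod (p ^ K)))
    (fun x y => Matrix.trace_mul_comm x y) hB j hj1 τ hτ1 w (m * l) hw1 hM hτw (1 - a) hzz hzw hz
  have e5 : LM (ZMod (p ^ K)) ((v * c' : (MonoidAlgebra ℤ G)ˣ) : MonoidAlgebra ℤ G) *
      (1 - a) * Pm (ZMod (p ^ K)) g =
      (τ : Matrix G G (ZMod (p ^ K))) * (w : Matrix G G (ZMod (p ^ K))) * (1 - a) := by
    have c1 : Commute (1 - a) (Pm (ZMod (p ^ K)) g) := (hza _ (h.commP g)).symm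
    rw [mul_assoc, c1.eq, ← mul_assoc]
    congr 1
    rw [hτd, hwd, hg12, Pm_mul, Units.val_mul, Units.val_mul, Units.val_mul, map_mul, LMu_coe,
      LMu_coe, PmU_coe, PmU_coe]
    rw [mul_assoc, ← mul_assoc (LM (ZMod (p ^ K)) (c' : MonoidAlgebra ℤ G)),
      (LM_Pm_comm (ZMod (p ^ K)) (c' : MonoidAlgebra ℤ G) g1).eq]
    simp only [mul_assoc]
  rw [e5]
  exact key

end Pool.Agent.H66Q
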