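import Pool.Agent.Lib.H66Q.L5
import Pool.Agent.Lib.H66Q.L7
import Pool.Agent.Lib.H66Q.L2
import Pool.Agent.Lib.H66Q.L3
import Pool.Agent.Lib.H66Q.L1b

set_option autoImplicit false
set_option linter.unusedVariables false
set_option linter.unusedSectionVars false

namespace Pool.Agent.H66Q

/-! Chunk L8 (M). Theorem T, first half. -/

/-- One value: `|G| θ(v c') = |G| (1 - s)` in `ZMod (p ^ K)` with `s` depending only on `a`.

Proof. `∑_g trace (LM y * (1 - a) * Pm g) = |G| aug y (1 - s)` (`sum_D`, `h.inv`), `aug y = 1`. The terms with `p ∣ orderOf g` vanish (`tr_C`); for the others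
`trace (LM y (1-a) Pm g) = trace (LM y Pm g) - trace (LM y a Pm g) = trace (LM y Pm g)` (`tr_B`) `= ∑_b y(b g b⁻¹)` (`trace_LP`). So
`|G| (1 - s) = ∑_{p ∤ |g|} ∑_b y(b g b⁻¹) = |G| θ(y)` (`sum_theta`, cast to `ZMod (p^K)`). -/
theorem theta_mod {G : Type} [Group G] [Fintype G] [DecidableEq G] {p K m : ℕ} [Fact p.Prime]
    (v c c' : (MonoidAlgebra ℤ G)ˣ) (hvc : Commute v c') (hv : v ^ p = 1) (hc : c' ^ m = 1)
    (hm : Nat.Coprime p m) (a : Matrix G G (ZMod (p ^ K))) (h : IdemG p K v c a)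
    (hca : Commute (LM (ZMod (p ^ K)) (c' : MonoidAlgebra ℤ G)) a)
    (haug : aug ((v * c' : (MonoidAlgebra ℤ G)ˣ) : MonoidAlgebra ℤ G) = 1) :
    (Fintype.card G : ZMod (p ^ K)) *
      ((theta p ((v * c' : (MonoidAlgebra ℤ G)ˣ) : MonoidAlgebra ℤ G) : ℤ) : ZMod (p ^ K)) =
      (Fintype.card G : ZMod (p ^ K)) * (1 - ∑ d : G, a d 1) := by
  have hB := tr_B v c c' hvc hv hc hm a h hca
  have hC := tr_C v c c' hvc hv hc hm a h hca
  generalize ((v * c' : (MonoidAlgebra ℤ G)ˣ) : MonoidAlgebra ℤ G) = y at haug hB hC ⊢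
  have hD := sum_D (ZMod (p ^ K)) y a h.inv
  have hterm : ∀ g : G,
      Matrix.trace (LM (ZMod (p ^ K)) y * (1 - a) * Pm (ZMod (p ^ K)) g) =
        (((if p ∣ orderOf g then 0 else ∑ b : G, y.coeff (b * g * b⁻¹)) : ℤ) :
          ZMod (p ^ K)) := by
    intro g
    by_cases hg : p ∣ orderOf g
    · rw [hC g hg, if_pos hg, Int.cast_zero]
    · rw [if_neg hg, mul_sub, mul_one, sub_mul, Matrix.trace_sub, hB g hg, sub_zero,
        trace_LP]
  rw [Finset.sum_congr rfl fun g _ => hterm g, ← Int.cast_sum, sum_theta, haug, Int.cast_one,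
    mul_one, Int.cast_mul, Int.cast_natCast] at hD
  exact hD

end Pool.Agent.H66Q
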