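import Pool.Agent.Lib.H66Q.L8

set_option autoImplicit false
set_option linter.unusedVariables false
set_option linter.unusedSectionVars false

namespace Pool.Agent.H66Q

/-! Chunk L9 (S/M). Theorem T, second half: `θ(v c) = θ(v)`.

Proof. `classical`. For every `K` take `a` from `exists_idemG v c` and apply `theta_mod` to `c' = c` (`h.commc`) and to `c' = 1` (`m = 1`, `a` commutes with `LM 1 = 1`); so
`|G| (θ(v c) - θ(v)) = 0` in `ZMod (p^K)` for all `K` (`v * 1 = v`; `aug (v c) = aug v * aug c = 1`), hence `p^K` divides the integer `|G| (θ(vc) - θ(v))` for all `K` (`ZMod.intCast_zmod_eq_zero_iff_dvd` or similar),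
so it is `0` (`Int.natAbs`, `Nat.lt_pow_self`), and `|G| ≠ 0`. -/

theorem theta_eq {G : Type} [Group G] [Fintype G] {p m : ℕ} [Fact p.Prime]
    (v c : (MonoidAlgebra ℤ G)ˣ) (hvc : Commute v c) (hv : v ^ p = 1) (hc : c ^ m = 1)
    (hm : Nat.Coprime p m) (h1 : aug (v : MonoidAlgebra ℤ G) = 1)
    (h2 : aug (c : MonoidAlgebra ℤ G) = 1) :
    theta p ((v * c : (MonoidAlgebra ℤ G)ˣ) : MonoidAlgebra ℤ G) =
      theta p (v : MonoidAlgebra ℤ G) := by
  classical
  have hp : p.Prime := Fact.out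
  have haug : aug ((v * c : (MonoidAlgebra ℤ G)ˣ) : MonoidAlgebra ℤ G) = 1 := by
    rw [Units.val_mul, aug_mul, h1, h2, mul_one]
  have haug1 : aug ((v * 1 : (MonoidAlgebra ℤ G)ˣ) : MonoidAlgebra ℤ G) = 1 := by
    rw [mul_one]
    exact h1
  have key : ∀ K : ℕ, ((p ^ K : ℕ) : ℤ) ∣ (Fintype.card G : ℤ) *
      (theta p ((v * c : (MonoidAlgebra ℤ G)ˣ) : MonoidAlgebra ℤ G) -
        theta p (v : MonoidAlgebra ℤ G)) := by
    intro K
    obtain ⟨a, h⟩ := exists_idemG v c hvc hv hc hm K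
    have e1 := theta_mod v c c hvc hv hc hm a h h.commc haug
    have hone : Commute (LM (ZMod (p ^ K))
        (((1 : (MonoidAlgebra ℤ G)ˣ)) : MonoidAlgebra ℤ G)) a := by
      rw [Units.val_one, map_one]
      exact Commute.one_left a
    have e2 := theta_mod (m := 1) v c 1 (Commute.one_right v) hv (one_pow 1)
      (Nat.coprime_one_right p) a h hone haug1
    rw [mul_one] at e2
    have e3 : (((Fintype.card G : ℤ) *
      (theta p ((v * c : (MonoidAlgebra ℤ G)ˣ) : MonoidAlgebra ℤ G) -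
        theta p (v : MonoidAlgebra ℤ G)) : ℤ) : ZMod (p ^ K)) = 0 := by
      push_cast at e1 e2 ⊢
      rw [mul_sub, e1, e2, sub_self]
    exact (ZMod.intCast_zmod_eq_zero_iff_dvd _ _).mp e3
  have hD : (Fintype.card G : ℤ) *
      (theta p ((v * c : (MonoidAlgebra ℤ G)ˣ) : MonoidAlgebra ℤ G) -
        theta p (v : MonoidAlgebra ℤ G)) = 0 := by
    by_contra hne
    have hK := key (((Fintype.card G : ℤ) *
      (theta p ((v * c : (MonoidAlgebra ℤ G)ˣ) : MonoidAlgebra ℤ G) -
        theta p (v : MonoidAlgebra ℤ G))).natAbs)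
    have h3 := Nat.le_of_dvd (Int.natAbs_pos.mpr hne) (Int.natCast_dvd.mp hK)
    have h4 := Nat.lt_pow_self (n := ((Fintype.card G : ℤ) *
      (theta p ((v * c : (MonoidAlgebra ℤ G)ˣ) : MonoidAlgebra ℤ G) -
        theta p (v : MonoidAlgebra ℤ G))).natAbs) hp.one_lt
    omega
  have hcard : (Fintype.card G : ℤ) ≠ 0 := by
    exact_mod_cast Fintype.card_ne_zero
  rcases mul_eq_zero.mp hD with h3 | h3
  · exact absurd h3 hcard
  · exact sub_eq_zero.mp h3

end Pool.Agent.H66Q
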