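import Pool.Agent.Lib.H66Q.Defs

/-!
# Prime graph question: definitions of the matrix part (group ring)
-/

set_option autoImplicit false
set_option linter.unusedVariables false
set_option linter.unusedSectionVars false

namespace Pool.Agent.H66Q

section Mat

variable {G : Type} [Group G] [Fintype G] [DecidableEq G] (R : Type) [CommRing R]

/-- The matrix of the left multiplication by `y` (`y` an element of the integral group ring, coefficients read in `R`):
the entry `a, b` is the coefficient of `y` at `a b⁻¹`. -/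
def LMf (y : MonoidAlgebra ℤ G) : Matrix G G R := Matrix.of fun a b => ((y.coeff (a * b⁻¹) : ℤ) : R)

theorem LMf_mul (y z : MonoidAlgebra ℤ G) : LMf R (y * z) = LMf R y * LMf R z := by
  ext a b
  rw [Matrix.mul_apply]
  change (((y * z).coeff (a * b⁻¹) : ℤ) : R) =
    ∑ c, ((y.coeff (a * c⁻¹) : ℤ) : R) * ((z.coeff (c * b⁻¹) : ℤ) : R)
  have h : (y * z).coeff (a * b⁻¹) = ∑ c : G, y.coeff (a * c⁻¹) * z.coeff (c * b⁻¹) := by
    rw [MonoidAlgebra.coeff_mul_antidiag y z (a * b⁻¹)
      (Finset.univ.image fun c : G => (a * c⁻¹, c * b⁻¹))]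
    · rw [Finset.sum_image]
      intro c _ d _ h
      have h1 := (Prod.mk.inj h).2
      exact mul_right_cancel h1
    · rintro ⟨m₁, m₂⟩
      constructor
      · intro h
        obtain ⟨c, -, hc⟩ := Finset.mem_image.1 h
        obtain ⟨h1, h2⟩ := Prod.mk.inj hc
        change m₁ * m₂ = a * b⁻¹
        rw [← h1, ← h2]
        group
      · intro h
        change m₁ * m₂ = a * b⁻¹ at h
        refine Finset.mem_image.2 ⟨m₂ * b, Finset.mem_univ _, Prod.ext ?_ ?_⟩
        · change a * (m₂ * b)⁻¹ = m₁
          rw [mul_inv_rev, ← mul_assoc, ← h]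
          group
        · change m₂ * b * b⁻¹ = m₂
          group
  rw [h]
  push_cast
  rfl

/-- `LMf` as a ring homomorphism. -/
noncomputable def LM : MonoidAlgebra ℤ G →+* Matrix G G R where
  toFun := LMf R
  map_one' := by
    ext a b
    change (((1 : MonoidAlgebra ℤ G).coeff (a * b⁻¹) : ℤ) : R) = (1 : Matrix G G R) a b
    rw [MonoidAlgebra.one_def, MonoidAlgebra.coeff_single, Finsupp.single_apply, Matrix.one_apply]
    by_cases h : a = b
    · subst h
      simp
    · have h' : ¬ (1 = a * b⁻¹) := fun h1 => h (mul_inv_eq_one.1 h1.symm)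
      rw [if_neg h', if_neg h]
      simp
  map_mul' y z := LMf_mul R y z
  map_zero' := by
    ext a b
    change (((0 : MonoidAlgebra ℤ G).coeff (a * b⁻¹) : ℤ) : R) = 0
    simp
  map_add' y z := by
    ext a b
    change (((y + z).coeff (a * b⁻¹) : ℤ) : R) = ((y.coeff (a * b⁻¹) : ℤ) : R) + ((z.coeff (a * b⁻¹) : ℤ) : R)
    rw [MonoidAlgebra.coeff_add, Finsupp.add_apply, Int.cast_add]

theorem LM_apply (y : MonoidAlgebra ℤ G) (a b : G) : LM R y a b = ((y.coeff (a * b⁻¹) : ℤ) : R) := rfl

/-- The unit of the matrix ring which belongs to a unit of the group ring. -/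
noncomputable def LMu : (MonoidAlgebra ℤ G)ˣ →* (Matrix G G R)ˣ := Units.map (LM R).toMonoidHom

theorem LMu_coe (y : (MonoidAlgebra ℤ G)ˣ) : ((LMu R y : (Matrix G G R)ˣ) : Matrix G G R) = LM R (y : MonoidAlgebra ℤ G) := rfl

theorem Pm_mul (g h : G) : Pm R (g * h) = Pm R g * Pm R h := by
  ext a b
  rw [Matrix.mul_apply, Finset.sum_eq_single (a * g)]
  · simp [Pm, mul_assoc]
  · intro c _ hc
    simp [Pm, hc]
  · intro h
    exact absurd (Finset.mem_univ _) h

theorem Pm_one : Pm R (1 : G) = 1 := by
  ext a b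
  simp [Pm, Matrix.one_apply, eq_comm]

/-- `Pm` as a homomorphism to the units. -/
def PmU : G →* (Matrix G G R)ˣ where
  toFun g :=
    { val := Pm R g
      inv := Pm R g⁻¹
      val_inv := by rw [← Pm_mul, mul_inv_cancel, Pm_one]
      inv_val := by rw [← Pm_mul, inv_mul_cancel, Pm_one] }
  map_one' := by
    ext a b
    change Pm R (1 : G) a b = (1 : Matrix G G R) a b
    rw [Pm_one]
  map_mul' g h := by
    ext a b
    change Pm R (g * h) a b = (Pm R g * Pm R h) a b
    rw [Pm_mul]

theorem PmU_coe (g : G) : ((PmU R g : (Matrix G G R)ˣ) : Matrix G G R) = Pm R g := rfl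

end Mat

/-- The augmentation of an element of the integral group ring: the sum of the coefficients. -/
def aug {G : Type} [Group G] [Fintype G] (y : MonoidAlgebra ℤ G) : ℤ := ∑ g : G, y.coeff g

open Classical in
/-- The sum of the coefficients of `y` at the elements of order prime to `p`. -/
noncomputable def theta {G : Type} [Group G] [Fintype G] (p : ℕ) (y : MonoidAlgebra ℤ G) : ℤ :=
  ∑ g : G, if p ∣ orderOf g then 0 else y.coeff g

end Pool.Agent.H66Q
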