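import Pool.Agent.Lib.H66Q.L1a

set_option autoImplicit false
set_option linter.unusedVariables false
set_option linter.unusedSectionVars false

namespace Pool.Agent.H66Q

/-! The system of the group ring (definition; complete, uses the statements of L1a). -/

theorem conj_LM_act {G : Type} [Group G] [Fintype G] [DecidableEq G] (R : Type) [CommRing R]
    (v : (MonoidAlgebra ℤ G)ˣ) (g : G) : Commute (actM R g) (conjR (LMu R v)) := by
  rw [actM_eq]
  change conjR (PmU R g) * conjR (LMu R v) = conjR (LMu R v) * conjR (PmU R g)
  rw [← map_mul, ← map_mul]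
  congr 1
  ext1
  exact ((LM_Pm_comm R (v : MonoidAlgebra ℤ G) g).symm).eq

/-- `E = Mat_G(R)`, `G` acts by reindexing, `t` = conjugation with the left multiplication by `v`. -/
noncomputable def sysG {G : Type} [Group G] [Fintype G] [DecidableEq G] (R : Type) [CommRing R] {p : ℕ}
    (v : (MonoidAlgebra ℤ G)ˣ) (hv : v ^ p = 1) : Sys p (Matrix G G R) G where
  act := actM R
  t := conjR (LMu R v)
  htp := by rw [← map_pow, ← map_pow, hv, map_one, map_one]
  comm g := conj_LM_act R v g
  b := Matrix.single 1 1 1
  hb := b_sum R

end Pool.Agent.H66Q
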