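import Pool.Agent.Lib.H66Q.S4
import Pool.Agent.Lib.H66Q.N1

set_option autoImplicit false
set_option linter.unusedVariables false
set_option linter.unusedSectionVars false

open scoped Pointwise

namespace Pool.Agent.H66Q

/-- The functions `Finset V → E` as an `EMod`: `P` acts by `rho`, `t` pointwise. -/
def fmod {p : ℕ} {E : Type} [Ring E] {P : Type} [Group P] [Fintype P] (S : Sys p E P)
    (V : Type) [LinearOrder V] [MulAction P V] : EMod S (Finset V → E) where
  r := rho S.act
  T := tX S.t
  r_one := rho_one S.act
  r_mul := rho_mul S.act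
  r_smul := rho_smul S.act
  T_smul e φ := by
    funext A
    change S.t (e * φ A) = S.t e * S.t (φ A)
    exact map_mul _ _ _
  T_pow φ := by
    have h : ∀ (n : ℕ) (A : Finset V), ((tX S.t)^[n] φ) A = (S.t ^ n) (φ A) := by
      intro n
      induction n with
      | zero => intro A; simp
      | succ n ih =>
        intro A
        rw [Function.iterate_succ_apply', pow_succ']
        change S.t (((tX S.t)^[n] φ) A) = _
        rw [ih]; rfl
    funext A
    rw [h, S.htp]; rfl
  comm g φ := by
    funext A
    change S.t (sg g (g⁻¹ • A) • S.act g (φ (g⁻¹ • A))) = sg g (g⁻¹ • A) • S.act g (S.t (φ (g⁻¹ • A)))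
    rw [map_zsmul]
    have := congrArg (fun f : RingAut E => f (φ (g⁻¹ • A))) (S.comm g).eq
    simp only [RingAut.mul_apply] at this
    rw [this]

/-- The image of the `k`-cochains in degree `k + 1`. -/
noncomputable def Wg {V : Type} [Fintype V] [LinearOrder V] {E : Type} [Ring E] (B : List (Finset V)) (k : ℕ) :
    AddSubgroup (Finset V → E) :=
  (suppG (KFB ∅ B) k).map (dK ∅ B : (Finset V → E) →ₗ[E] (Finset V → E)).toAddMonoidHom

end Pool.Agent.H66Q
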