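import Pool.Agent.Lib.H66Q.N1

set_option autoImplicit false
set_option linter.unusedVariables false
set_option linter.unusedSectionVars false

open scoped Pointwise

namespace Pool.Agent.H66Q

/-- STEP (dimension shifting). `C` is a submodule of `X`, stable under everything and acyclic for `τ = M.tau x`; `π` is linear and equivariant, `Z` is the kernel of `π` on `C`, `Z'` the
image of `C`. Then `GoodE` for `Z'` gives `GoodO` for `Z`, and `GoodO` for `Z'` gives `GoodE'` for `Z` (`GoodE` with a relative trace `z = nrm p M.T y`).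
Proof. Let `z' ∈ Z'` be the good element, `y0 ∈ C` with `π y0 = z'`, and `y = ∑ g, M.r g (S.b • y0)`. Then `y ∈ C`, `M.r g y = y` for all `g` (reindex the sum, `r_mul`), and
`π y = ∑ g, M'.r g (S.b • z') = ∑ g, (S.act g S.b) • M'.r g z' = ∑ g, (S.act g S.b) • z' = (∑ g, S.act g S.b) • z' = z'` (`S.hb`). In particular `M.r x y = y`, so
`M.tau x y = M.T y`, and by induction `(M.tau x)^[i] y = M.T^[i] y` (the iterates `M.T^[i] y` are fixed by `M.r x` by `M.comm`), hence `nrm p (M.tau x) y = nrm p M.T y`. For `h` with `S.tau x h = h`: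
`M.tau x (h • w) = h • M.tau x w` (`T_smul`, `r_smul`), so `h • nrm p (M.tau x) w = nrm p (M.tau x) (h • w)`. Also `M'.tau x (π w) = π (M.tau x w)`, `π (nrm p (M.tau x) w) = nrm p (M'.tau x) (π w)`, same for `T`.
(a) `GoodE → GoodO`: `z = M.T y - y`. `z ∈ C`, `π z = M'.T z' - z' = 0`, `z` is fixed by all `M.r g`, `nrm p M.T z = 0` (`nrmM_tele`, `T_pow`). If `S.tau x h = h` and `h • z = M.tau x w - w` with `w ∈ Z`:
`h • z = M.tau x (h • y) - h • y`, so `M.tau x (h • y - w) = h • y - w`, `h • y - w ∈ C`, so `h • y - w = nrm p (M.tau x) v` with `v ∈ C`; apply `π`: `h • z' = nrm p (M'.tau x) (π v)`, `π v ∈ Z'`. So `h` is a relative trace.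
(b) `GoodO → GoodE'`: `z = nrm p M.T y = nrm p (M.tau x) y`. `z ∈ C`, `π z = nrm p M'.T z' = 0`, `M.T z = z` (`nrmM_fix`, `T_pow`), fixed by `M.r g`. If `h • z = nrm p (M.tau x) w`, `w ∈ Z`: `nrm p (M.tau x) (h • y - w) = 0`, so
`h • y - w = M.tau x v - v` with `v ∈ C`; apply `π`: `h • z' = M'.tau x (π v) - π v`. -/
theorem step {p : ℕ} {E : Type} [Ring E] {P : Type} [Group P] [Fintype P] {S : Sys p E P}
    {X : Type} [AddCommGroup X] [Module E X] {X' : Type} [AddCommGroup X'] [Module E X']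
    (M : EMod S X) (M' : EMod S X') (x : P) (C : AddSubgroup X)
    (hCe : ∀ (e : E), ∀ φ ∈ C, e • φ ∈ C) (hCr : ∀ (g : P), ∀ φ ∈ C, M.r g φ ∈ C)
    (hCT : ∀ φ ∈ C, M.T φ ∈ C)
    (hac1 : ∀ φ ∈ C, M.tau x φ = φ → ∃ ψ ∈ C, φ = nrm p (M.tau x) ψ)
    (hac2 : ∀ φ ∈ C, nrm p (M.tau x) φ = 0 → ∃ ψ ∈ C, φ = M.tau x ψ - ψ)
    (π : X →+ X') (hπe : ∀ (e : E) (φ : X), π (e • φ) = e • π φ)
    (hπr : ∀ (g : P) (φ : X), π (M.r g φ) = M'.r g (π φ)) (hπT : ∀ φ : X, π (M.T φ) = M'.T (π φ))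
    (Z : AddSubgroup X) (hZ : ∀ φ, φ ∈ Z ↔ φ ∈ C ∧ π φ = 0)
    (Z' : AddSubgroup X') (hZ' : ∀ ψ, ψ ∈ Z' ↔ ∃ φ ∈ C, π φ = ψ) :
    (M'.GoodE x Z' → M.GoodO x Z) ∧ (M'.GoodO x Z' → M.GoodE' x Z) := by
  -- the lift
  have hlift : ∀ z' ∈ Z', (∀ g : P, M'.r g z' = z') →
      ∃ y ∈ C, (∀ g : P, M.r g y = y) ∧ π y = z' := by
    intro z' hz' hfix
    obtain ⟨y0, hy0, hπy0⟩ := (hZ' z').1 hz'
    refine ⟨∑ g : P, M.r g (S.b • y0), ?_, ?_, ?_⟩
    · exact AddSubgroup.sum_mem C fun g _ => hCr g _ (hCe _ _ hy0)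
    · intro g
      rw [map_sum]
      have h1 : ∀ h : P, M.r g (M.r h (S.b • y0)) = M.r (g * h) (S.b • y0) := fun h =>
        (M.r_mul g h _).symm
      simp only [h1]
      exact Equiv.sum_comp (Equiv.mulLeft g) (fun h => M.r h (S.b • y0))
    · rw [map_sum]
      have h1 : ∀ g : P, π (M.r g (S.b • y0)) = (S.act g S.b) • z' := by
        intro g
        rw [hπr, hπe, hπy0, M'.r_smul, hfix g]
      simp only [h1]
      rw [← Finset.sum_smul, S.hb, one_smul]
  have hTit : ∀ (g : P) (n : ℕ) (φ : X), M.r g (M.T^[n] φ) = M.T^[n] (M.r g φ) := by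
    intro g n φ
    induction n with
    | zero => rfl
    | succ n ih => rw [Function.iterate_succ_apply', Function.iterate_succ_apply', ← M.comm, ih]
  have htauit : ∀ (y : X), (∀ g : P, M.r g y = y) → ∀ n : ℕ, (M.tau x)^[n] y = M.T^[n] y := by
    intro y hy n
    induction n with
    | zero => rfl
    | succ n ih =>
      rw [Function.iterate_succ_apply', Function.iterate_succ_apply', ih]
      show M.T (M.r x (M.T^[n] y)) = M.T (M.T^[n] y)
      rw [hTit, hy]
  have hnrmy : ∀ (y : X), (∀ g : P, M.r g y = y) → nrm p (M.tau x) y = nrm p M.T y := by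
    intro y hy
    exact Finset.sum_congr rfl fun i _ => htauit y hy i
  have htauy : ∀ (y : X), (∀ g : P, M.r g y = y) → M.tau x y = M.T y := by
    intro y hy
    show M.T (M.r x y) = M.T y
    rw [hy]
  have hsm : ∀ (h : E), S.tau x h = h → ∀ w : X, M.tau x (h • w) = h • M.tau x w := by
    intro h hh w
    show M.T (M.r x (h • w)) = h • M.T (M.r x w)
    rw [M.r_smul, M.T_smul]
    have h1 : S.t (S.act x h) = h := hh
    rw [h1]
  have hsmn : ∀ (h : E), S.tau x h = h → ∀ w : X,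
      nrm p (M.tau x) (h • w) = h • nrm p (M.tau x) w := by
    intro h hh w
    unfold nrm
    rw [Finset.smul_sum]
    refine Finset.sum_congr rfl fun i hi => ?_
    clear hi
    induction i with
    | zero => rfl
    | succ n ih => rw [Function.iterate_succ_apply', Function.iterate_succ_apply', ih, hsm h hh]
  have hπtau : ∀ w : X, π (M.tau x w) = M'.tau x (π w) := by
    intro w
    show π (M.T (M.r x w)) = M'.T (M'.r x (π w))
    rw [hπT, hπr]
  have hπn : ∀ w : X, π (nrm p (M.tau x) w) = nrm p (M'.tau x) (π w) := by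
    intro w
    unfold nrm
    rw [map_sum]
    refine Finset.sum_congr rfl fun i hi => ?_
    clear hi
    induction i with
    | zero => rfl
    | succ n ih => rw [Function.iterate_succ_apply', Function.iterate_succ_apply', hπtau, ih]
  have hπTn : ∀ w : X, π (nrm p M.T w) = nrm p M'.T (π w) := by
    intro w
    unfold nrm
    rw [map_sum]
    refine Finset.sum_congr rfl fun i hi => ?_
    clear hi
    induction i with
    | zero => rfl
    | succ n ih => rw [Function.iterate_succ_apply', Function.iterate_succ_apply', hπT, ih]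
  constructor
  · rintro ⟨z', hz', hfix, hTz', H⟩
    obtain ⟨y, hyC, hyr, hπy⟩ := hlift z' hz' hfix
    refine ⟨M.T y - y, (hZ _).2 ⟨AddSubgroup.sub_mem C (hCT y hyC) hyC, ?_⟩, ?_, ?_, ?_⟩
    · rw [map_sub, hπT, hπy, hTz', sub_self]
    · intro g
      rw [map_sub, ← M.comm, hyr]
    · rw [nrmM_tele, M.T_pow, sub_self]
    · rintro h hh ⟨w, hw, hhz⟩
      obtain ⟨hwC, hπw⟩ := (hZ w).1 hw
      have hmem : h • y - w ∈ C := AddSubgroup.sub_mem C (hCe h y hyC) hwC
      have hfx : M.tau x (h • y - w) = h • y - w := by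
        rw [map_sub, hsm h hh, htauy y hyr]
        have h1 : h • M.T y - h • y = M.tau x w - w := by rw [← smul_sub]; exact hhz
        have h2 : h • M.T y = M.tau x w - w + h • y := by rw [← h1, sub_add_cancel]
        rw [h2]
        abel
      obtain ⟨ψ, hψC, hψ⟩ := hac1 _ hmem hfx
      refine H h hh ⟨π ψ, (hZ' _).2 ⟨ψ, hψC, rfl⟩, ?_⟩
      rw [← hπn, ← hψ, map_sub, hπe, hπy, hπw, sub_zero]
  · rintro ⟨z', hz', hfix, hnz', H⟩
    obtain ⟨y, hyC, hyr, hπy⟩ := hlift z' hz' hfix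
    have hTC : ∀ n : ℕ, M.T^[n] y ∈ C := by
      intro n
      induction n with
      | zero => exact hyC
      | succ n ih =>
        rw [Function.iterate_succ_apply']
        exact hCT _ ih
    refine ⟨nrm p M.T y, (hZ _).2 ⟨AddSubgroup.sum_mem C fun i _ => hTC i, ?_⟩, ?_, ?_,
      ⟨y, rfl⟩, ?_⟩
    · rw [hπTn, hπy, hnz']
    · intro g
      unfold nrm
      rw [map_sum]
      refine Finset.sum_congr rfl fun i _ => ?_
      rw [hTit, hyr]
    · exact nrmM_fix p M.T y (M.T_pow y)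
    · rintro h hh ⟨w, hw, hhz⟩
      obtain ⟨hwC, hπw⟩ := (hZ w).1 hw
      have hmem : h • y - w ∈ C := AddSubgroup.sub_mem C (hCe h y hyC) hwC
      have hn0 : nrm p (M.tau x) (h • y - w) = 0 := by
        rw [nrmM_sub, hsmn h hh, hnrmy y hyr, hhz, sub_self]
      obtain ⟨ψ, hψC, hψ⟩ := hac2 _ hmem hn0
      refine H h hh ⟨π ψ, (hZ' _).2 ⟨ψ, hψC, rfl⟩, ?_⟩
      rw [← hπtau, ← map_sub, ← hψ, map_sub, hπe, hπy, hπw, sub_zero]

end Pool.Agent.H66Q
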