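import Pool.Agent.Lib.H66Q.Defs

set_option autoImplicit false
set_option linter.unusedVariables false
set_option linter.unusedSectionVars false

open scoped Pointwise

namespace Pool.Agent.H66Q

variable {V : Type} [LinearOrder V] {E : Type} [Ring E]

/-- `eps v S = (-1)^(..)` is 1 or -1, so its square is 1: `(-1)^n * (-1)^n = (-1)^(n+n) = 1`. -/
theorem eps_mul_self (v : V) (S : Finset V) : eps v S * eps v S = 1 := by
  unfold eps
  rw [← pow_add, ← two_mul, pow_mul]
  norm_num

/-- Sign rule behind everything: for `v ≠ w`, both not in `S`,
`eps v (insert w S) * eps w S = - (eps w (insert v S) * eps v S)`. Proof: say `v < w` (the other case is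
symmetric). Then `filter (· < v) (insert w S) = filter (· < v) S` because not `w < v`, so
`eps v (insert w S) = eps v S`; and `filter (· < w) (insert v S) = insert v (filter (· < w) S)` with one more
element, so `eps w (insert v S) = - eps w S`. -/
theorem eps_swap {v w : V} (hvw : v ≠ w) {S : Finset V} (hv : v ∉ S) (hw : w ∉ S) :
    eps v (insert w S) * eps w S = - (eps w (insert v S) * eps v S) := by
  have key : ∀ a b : V, a < b → a ∉ S → b ∉ S →
      eps a (insert b S) = eps a S ∧ eps b (insert a S) = - eps b S := by
    intro a b hab ha hb
    constructor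
    · unfold eps
      rw [Finset.filter_insert, if_neg (not_lt_of_gt hab)]
    · unfold eps
      rw [Finset.filter_insert, if_pos hab, Finset.card_insert_of_notMem, pow_succ]
      · ring
      · intro h
        exact ha (Finset.mem_filter.mp h).1
  rcases lt_or_gt_of_ne hvw with h | h
  · obtain ⟨h1, h2⟩ := key v w h hv hw
    rw [h1, h2]; ring
  · obtain ⟨h1, h2⟩ := key w v h hw hv
    rw [h1, h2]; ring

/-- Two insertions of the same vertex give 0: at `S` one needs `v ∈ S` and `v ∈ S.erase v`. -/
theorem ins_ins_self (v : V) :
    (ins v : (Finset V → E) →ₗ[E] (Finset V → E)).comp (ins v) = 0 := by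
  apply LinearMap.ext
  intro φ
  funext S
  rw [LinearMap.comp_apply, LinearMap.zero_apply, Pi.zero_apply, ins_apply]
  split_ifs with h
  · rw [ins_apply, if_neg (Finset.notMem_erase v S), smul_zero]
  · rfl

/-- Insertions of different vertices anticommute. At `S`: both sides are 0 unless `v, w ∈ S`; then with
`T = (S.erase v).erase w = (S.erase w).erase v`, `S.erase v = insert w T`, `S.erase w = insert v T`:
left = `eps v (insert w T) • eps w T • φ T`, right = `- eps w (insert v T) • eps v T • φ T`; use `eps_swap`. -/
theorem ins_anti {v w : V} (h : v ≠ w) :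
    (ins v : (Finset V → E) →ₗ[E] (Finset V → E)).comp (ins w) = - (ins w).comp (ins v) := by
  apply LinearMap.ext
  intro φ
  funext S
  rw [LinearMap.comp_apply, LinearMap.neg_apply, LinearMap.comp_apply, Pi.neg_apply]
  rw [ins_apply v (ins w φ), ins_apply w φ, ins_apply w (ins v φ), ins_apply v φ]
  by_cases hv : v ∈ S
  · by_cases hw : w ∈ S
    · rw [if_pos hv, if_pos hw, if_pos (Finset.mem_erase.mpr ⟨h.symm, hw⟩),
        if_pos (Finset.mem_erase.mpr ⟨h, hv⟩)]
      have hT : (S.erase w).erase v = (S.erase v).erase w := Finset.erase_right_comm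
      rw [hT]
      set T := (S.erase v).erase w with hTdef
      have hvT : v ∉ T := by
        rw [hTdef]
        intro hh
        exact Finset.notMem_erase v S (Finset.mem_of_mem_erase hh)
      have hwT : w ∉ T := Finset.notMem_erase w _
      have h1 : S.erase v = insert w T := by
        rw [hTdef, Finset.insert_erase (Finset.mem_erase.mpr ⟨h.symm, hw⟩)]
      have h2 : S.erase w = insert v T := by
        rw [← hT, Finset.insert_erase (Finset.mem_erase.mpr ⟨h, hv⟩)]
      rw [h1, h2, smul_smul, smul_smul, eps_swap h hvT hwT, neg_smul]
    · rw [if_neg hw, if_neg (fun hh => hw (Finset.mem_of_mem_erase hh))]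
      simp
  · rw [if_neg hv, if_neg (fun hh => hv (Finset.mem_of_mem_erase hh))]
    simp

/-- `con v` and `ins v`: the anticommutator is the identity. At `S` with `v ∉ S`: `ins v (con v φ) S = 0` and
`con v (ins v φ) S = eps v S • eps v ((insert v S).erase v) • φ ((insert v S).erase v) = φ S`. At `S` with `v ∈ S`:
`con v (ins v φ) S = 0` and `ins v (con v φ) S = eps v (S.erase v) • eps v (S.erase v) • φ (insert v (S.erase v)) = φ S`.
(`eps_mul_self`, smul by integers.) -/
theorem con_ins_self (v : V) :
    (con v : (Finset V → E) →ₗ[E] (Finset V → E)).comp (ins v) + (ins v).comp (con v) = LinearMap.id := by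
  apply LinearMap.ext
  intro φ
  funext S
  rw [LinearMap.add_apply, LinearMap.comp_apply, LinearMap.comp_apply, Pi.add_apply,
    LinearMap.id_apply, con_apply, ins_apply, ins_apply, con_apply]
  by_cases hv : v ∈ S
  · rw [if_pos hv, if_pos hv, if_neg (Finset.notMem_erase v S), smul_smul, eps_mul_self,
      one_smul, Finset.insert_erase hv, zero_add]
  · rw [if_neg hv, if_neg hv, if_pos (Finset.mem_insert_self v S), Finset.erase_insert hv,
      smul_smul, eps_mul_self, one_smul, add_zero]

/-- `con v` and `ins w`, `v ≠ w`, anticommute. At `S`: both sides 0 if `v ∈ S` or `w ∉ S`. If `v ∉ S`, `w ∈ S`, let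
`T = S.erase w`, so `S = insert w T`: left `eps v (insert w T) • eps w (insert v T) • φ (insert v T)`
(because `(insert v S).erase w = insert v T`), right `- eps w T • eps v T • φ (insert v T)`. By `eps_swap`,
`eps v (insert w T) * eps w T = - eps w (insert v T) * eps v T`; multiply with `eps w (insert v T) * eps w T` and use
`eps_mul_self`. -/
theorem con_ins {v w : V} (h : v ≠ w) :
    (con v : (Finset V → E) →ₗ[E] (Finset V → E)).comp (ins w) = - (ins w).comp (con v) := by
  apply LinearMap.ext
  intro φ
  funext S
  rw [LinearMap.comp_apply, LinearMap.neg_apply, LinearMap.comp_apply, Pi.neg_apply]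
  rw [con_apply, ins_apply, ins_apply, con_apply]
  by_cases hv : v ∈ S
  · by_cases hw : w ∈ S
    · rw [if_pos hv, if_pos hw, if_pos (Finset.mem_erase.mpr ⟨h, hv⟩)]
      simp
    · rw [if_pos hv, if_neg hw]
      simp
  · by_cases hw : w ∈ S
    · rw [if_neg hv, if_pos hw, if_pos (Finset.mem_insert_of_mem hw),
        if_neg (fun hh => hv (Finset.mem_of_mem_erase hh))]
      have hE : (insert v S).erase w = insert v (S.erase w) :=
        Finset.erase_insert_of_ne h
      rw [hE]
      set T := S.erase w with hTdef
      have hvT : v ∉ T := fun hh => hv (Finset.mem_of_mem_erase hh)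
      have hwT : w ∉ T := Finset.notMem_erase w _
      have hS : S = insert w T := by rw [hTdef, Finset.insert_erase hw]
      rw [hS, smul_smul, smul_smul]
      have e1 := eps_swap h hvT hwT
      have e2 := eps_mul_self w T
      have e3 := eps_mul_self w (insert v T)
      rw [← neg_smul]
      congr 1
      generalize eps v (insert w T) = a at *
      generalize eps w T = b at *
      generalize eps w (insert v T) = c at *
      generalize eps v T = d at *
      have : a * c = - (b * d) := by
        calc a * c = (a * b) * (c * b) := by
              rw [mul_mul_mul_comm, mul_comm (a * c), e2, one_mul]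
          _ = (-(c * d)) * (c * b) := by rw [e1]
          _ = -((c * c) * (b * d)) := by ring
          _ = - (b * d) := by rw [e3, one_mul]
      exact this
    · rw [if_neg hv, if_neg hw, if_neg (by
        rw [Finset.mem_insert]; rintro (hh | hh)
        · exact h hh.symm
        · exact hw hh)]
      simp

end Pool.Agent.H66Q
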