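import Pool.Agent.Lib.H66Q.S1

set_option autoImplicit false
set_option linter.unusedVariables false
set_option linter.unusedSectionVars false

open scoped Pointwise

namespace Pool.Agent.H66Q

variable {V : Type} [LinearOrder V] {E : Type} [Ring E]

/-- `Dl` is additive on disjoint unions (`Finset.sum_union`). -/
theorem Dl_union {O O' : Finset V} (h : Disjoint O O') :
    (Dl (O ∪ O') : (Finset V → E) →ₗ[E] (Finset V → E)) = Dl O + Dl O' := by
  unfold Dl
  rw [Finset.sum_union h]

/-- `Dl O` and `Dl O'` anticommute, for ALL finsets `O`, `O'` (no disjointness): expand both sides as a double sum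
over `v ∈ O`, `w ∈ O'` of `(ins v).comp (ins w)` and of `-(ins w).comp (ins v)` (`Finset.sum_comm`): the terms agree by `ins_anti` if
`v ≠ w`, and both are 0 by `ins_ins_self` if `v = w`. (Expand with `LinearMap.comp_sum`, `LinearMap.sum_comp` or pointwise with
`LinearMap.sum_apply`, `map_sum`.) -/
theorem Dl_anti (O O' : Finset V) :
    (Dl O : (Finset V → E) →ₗ[E] (Finset V → E)).comp (Dl O') = - (Dl O').comp (Dl O) := by
  apply LinearMap.ext
  intro φ
  have e1 : ∀ (A B : Finset V), (Dl A : (Finset V → E) →ₗ[E] (Finset V → E)) (Dl B φ)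
      = ∑ v ∈ A, ∑ w ∈ B, ins v (ins w φ) := by
    intro A B
    unfold Dl
    rw [LinearMap.sum_apply]
    refine Finset.sum_congr rfl (fun v _ => ?_)
    rw [LinearMap.sum_apply, map_sum]
  rw [LinearMap.comp_apply, LinearMap.neg_apply, LinearMap.comp_apply, e1, e1,
    Finset.sum_comm, ← Finset.sum_neg_distrib]
  refine Finset.sum_congr rfl (fun v _ => ?_)
  rw [← Finset.sum_neg_distrib]
  refine Finset.sum_congr rfl (fun w _ => ?_)
  by_cases h : w = v
  · subst h
    have h1 := LinearMap.congr_fun (ins_ins_self (E := E) w) φ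
    rw [LinearMap.comp_apply, LinearMap.zero_apply] at h1
    rw [h1, neg_zero]
  · have h1 := LinearMap.congr_fun (ins_anti (E := E) h) φ
    rw [LinearMap.comp_apply, LinearMap.neg_apply, LinearMap.comp_apply] at h1
    exact h1

/-- `Dl O` has square 0. Finset induction on `O`: `Dl (insert v O) = ins v + Dl O`; the square is
`ins v ∘ ins v + ins v ∘ Dl O + Dl O ∘ ins v + Dl O ∘ Dl O`; the first is 0 (`ins_ins_self`), the last 0 by induction, the two middle
terms cancel by `Dl_anti {v} O` (with `Dl {v} = ins v`). -/
theorem Dl_self (O : Finset V) :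
    (Dl O : (Finset V → E) →ₗ[E] (Finset V → E)).comp (Dl O) = 0 := by
  induction O using Finset.induction_on with
  | empty => simp [Dl]
  | insert v O hv ih =>
    have h1 : (Dl (insert v O) : (Finset V → E) →ₗ[E] (Finset V → E)) = ins v + Dl O := by
      unfold Dl
      rw [Finset.sum_insert hv]
    have h2 : (Dl {v} : (Finset V → E) →ₗ[E] (Finset V → E)) = ins v := by
      unfold Dl
      rw [Finset.sum_singleton]
    have h3 := Dl_anti (E := E) {v} O
    rw [h2] at h3
    rw [h1, LinearMap.add_comp, LinearMap.comp_add, LinearMap.comp_add, ih, ins_ins_self, h3]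
    abel

/-- For `v ∈ O`: `con v ∘ Dl O + Dl O ∘ con v = id`. Write the sum over `w ∈ O` of `con v ∘ ins w + ins w ∘ con v`: the term `w = v` is `id`
(`con_ins_self`), the others are 0 (`con_ins`). -/
theorem con_Dl {v : V} {O : Finset V} (h : v ∈ O) :
    (con v : (Finset V → E) →ₗ[E] (Finset V → E)).comp (Dl O) + (Dl O).comp (con v) = LinearMap.id := by
  have e1 : (con v : (Finset V → E) →ₗ[E] (Finset V → E)).comp (Dl O) + (Dl O).comp (con v)
      = ∑ w ∈ O, ((con v : (Finset V → E) →ₗ[E] (Finset V → E)).comp (ins w)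
        + (ins w).comp (con v)) := by
    rw [Finset.sum_add_distrib]
    unfold Dl
    apply LinearMap.ext
    intro φ
    simp only [LinearMap.add_apply, LinearMap.comp_apply, LinearMap.sum_apply, map_sum]
  rw [e1, Finset.sum_eq_single v]
  · exact con_ins_self v
  · intro w _ hw
    rw [con_ins (Ne.symm hw)]
    abel
  · intro hh
    exact absurd h hh

/-- Formula for `Dl`: only the vertices of `O` in `S` contribute. -/
theorem Dl_apply (O : Finset V) (φ : Finset V → E) (S : Finset V) :
    Dl O φ S = ∑ v ∈ O ∩ S, eps v (S.erase v) • φ (S.erase v) := by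
  unfold Dl
  rw [LinearMap.sum_apply, Finset.sum_apply]
  simp only [ins_apply]
  rw [← Finset.filter_mem_eq_inter, Finset.sum_filter]

end Pool.Agent.H66Q
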