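import Pool.Agent.Lib.H66Q.Defs

set_option autoImplicit false
set_option linter.unusedVariables false
set_option linter.unusedSectionVars false

open scoped Pointwise

namespace Pool.Agent.H66Q

/-- The minimal period of every point is `p^(N+1)`. -/
private theorem t2_minper {p : ℕ} [hp : Fact p.Prime] (N : ℕ) {D : Type} (R : Equiv.Perm D)
    (hR : R ^ (p ^ (N + 1)) = 1) (hfree : ∀ d, (R ^ (p ^ N)) d ≠ d) (d : D) :
    Function.minimalPeriod R d = p ^ (N + 1) := by
  have hper : Function.IsPeriodicPt R (p ^ (N + 1)) d := by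
    have h : (R ^ (p ^ (N + 1))) d = d := by rw [hR]; rfl
    rw [← Equiv.Perm.iterate_eq_pow] at h
    exact h
  have hnot : ¬ Function.IsPeriodicPt R (p ^ N) d := by
    intro h
    have h' : (⇑R)^[p ^ N] d = d := h
    rw [Equiv.Perm.iterate_eq_pow] at h'
    exact hfree d h'
  exact Function.minimalPeriod_eq_prime_pow hnot hper

/-- A permutation `R` of a finite set with `R^(p^(N+1)) = 1` such that `R^(p^N)` has no fixed point: all cycles have exactly `p^(N+1)` elements, so the sum of an invariant function is `p^(N+1)` times something. Proof: the size of the orbit of `d` under `R` (minimal period,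
`Function.minimalPeriod R d`) divides `p^(N+1)` and does not divide `p^N`, so it is `p^(N+1)`. Sum over orbits (e.g. `Finset.sum_fiberwise` over the quotient by `Equiv.Perm.SameCycle`, or strong induction on a stable finset removing one cycle at a time; `f` is constant on cycles). -/
theorem sum_free {p : ℕ} [Fact p.Prime] {B : Type} [AddCommGroup B] (N : ℕ) {D : Type} [Fintype D] [DecidableEq D] (R : Equiv.Perm D)
    (hR : R ^ (p ^ (N + 1)) = 1) (hfree : ∀ d, (R ^ (p ^ N)) d ≠ d) (f : D → B) (hf : ∀ d, f (R d) = f d) :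
    ∃ β : B, ∑ d, f d = (p ^ (N + 1)) • β := by
  classical
  set q := p ^ (N + 1) with hq
  have hmin : ∀ d, Function.minimalPeriod R d = q := t2_minper N R hR hfree
  have hq0 : 0 < q := pow_pos (Fact.out : p.Prime).pos _
  -- invariance under powers
  have hfpow : ∀ (i : ℕ) (d : D), f ((R ^ i) d) = f d := by
    intro i
    induction i with
    | zero => intro d; rfl
    | succ i ih => intro d; rw [pow_succ', Equiv.Perm.mul_apply, hf, ih]
  let s : Setoid D := Equiv.Perm.SameCycle.setoid R
  -- the class of d is the image of range q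
  have hcls : ∀ d e : D, R.SameCycle d e ↔ e ∈ (Finset.range q).image (fun i => (R ^ i) d) := by
    intro d e
    rw [Finset.mem_image]
    constructor
    · rintro ⟨i, hi⟩
      refine ⟨(i % (q : ℤ)).toNat, ?_, ?_⟩
      · rw [Finset.mem_range]
        have h1 := Int.emod_lt_of_pos i (by exact_mod_cast hq0 : (0 : ℤ) < q)
        have h2 := Int.emod_nonneg i (by exact_mod_cast hq0.ne' : (q : ℤ) ≠ 0)
        omega
      · have h2 := Int.emod_nonneg i (by exact_mod_cast hq0.ne' : (q : ℤ) ≠ 0)
        have h3 : (R ^ ((i % (q : ℤ)).toNat)) = R ^ i := by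
          rw [← zpow_natCast, Int.toNat_of_nonneg h2]
          conv_rhs => rw [← Int.emod_add_mul_ediv i q]
          rw [zpow_add, zpow_mul, zpow_natCast, hR, one_zpow, mul_one]
        show (R ^ ((i % (q : ℤ)).toNat)) d = e
        rw [h3, hi]
    · rintro ⟨i, -, hi⟩
      exact ⟨(i : ℤ), by rw [zpow_natCast]; exact hi⟩
  have hinj : ∀ d : D, Set.InjOn (fun i => (R ^ i) d) (Finset.range q : Set ℕ) := by
    intro d i hi j hj hij
    rw [Finset.coe_range, Set.mem_Iio] at hi hj
    have h1 : (⇑R)^[i] d = (⇑R)^[j] d := by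
      rw [Equiv.Perm.iterate_eq_pow, Equiv.Perm.iterate_eq_pow]; exact hij
    exact (Function.iterate_injOn_Iio_minimalPeriod (f := R) (x := d)) (by rw [hmin]; exact hi)
      (by rw [hmin]; exact hj) h1
  have hsum : ∑ d, f d = ∑ ω : Quotient s, ∑ d ∈ Finset.univ.filter (fun d => Quotient.mk s d = ω), f d := by
    rw [Finset.sum_fiberwise]
  rw [hsum]
  refine ⟨∑ ω : Quotient s, f ω.out, ?_⟩
  rw [Finset.smul_sum]
  refine Finset.sum_congr rfl fun ω _ => ?_
  have hfil : Finset.univ.filter (fun d => Quotient.mk s d = ω) =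
      (Finset.range q).image (fun i => (R ^ i) ω.out) := by
    ext e
    rw [Finset.mem_filter, ← hcls]
    constructor
    · rintro ⟨-, he⟩
      have h1 : Quotient.mk s ω.out = Quotient.mk s e := by rw [he, Quotient.out_eq]
      exact Quotient.exact h1
    · intro he
      refine ⟨Finset.mem_univ _, ?_⟩
      have h1 : Quotient.mk s ω.out = Quotient.mk s e := Quotient.sound he
      rw [← h1, Quotient.out_eq]
  rw [hfil, Finset.sum_image (hinj _)]
  have h5 : ∀ i ∈ Finset.range q, f ((R ^ i) ω.out) = f ω.out := fun i _ => hfpow i _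
  rw [Finset.sum_congr rfl h5, Finset.sum_const, Finset.card_range]

end Pool.Agent.H66Q
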