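import Pool.Agent.Lib.H66Q.T2

set_option autoImplicit false
set_option linter.unusedVariables false
set_option linter.unusedSectionVars false

open scoped Pointwise

namespace Pool.Agent.H66Q

/-- Words. `A d = (τ^d.val : A)` for `d : ZMod q` (`q = p^j`, `τ^q = 1`, so `A (c + d) = A c * A d`). -/
def Apow {A : Type} [Ring A] (q : ℕ) (τ : Aˣ) (d : ZMod q) : A := ((τ ^ d.val : Aˣ) : A)

/-- `W n s` = sum over all words `(d_1, ..., d_n)` in `ZMod q` with sum `s` of `A d_1 e A d_2 e ... A d_n e`. -/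
def Wd {A : Type} [Ring A] (q : ℕ) [NeZero q] (τ : Aˣ) (e : A) : ℕ → ZMod q → A
  | 0, s => if s = 0 then 1 else 0
  | n + 1, s => ∑ d : ZMod q, Apow q τ d * e * Wd q τ e n (s - d)

section

variable {A : Type} [Ring A] (q : ℕ) [NeZero q] (τ : Aˣ) (hτ : τ ^ q = 1) (e : A)

include hτ

/-- `A (c + d) = A c * A d`: `(c + d).val ≡ c.val + d.val` modulo `q` and `τ^q = 1`. -/
theorem Apow_add (c d : ZMod q) : Apow q τ (c + d) = Apow q τ c * Apow q τ d := by
  unfold Apow
  rw [ZMod.val_add, ← pow_eq_pow_mod _ hτ, pow_add, Units.val_mul]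

/-- `A c * W (n+1) s = W (n+1) (s + c)`: substitute `d' = c + d` in the sum. -/
theorem Wd_shift (n : ℕ) (c s : ZMod q) : Apow q τ c * Wd q τ e (n + 1) s = Wd q τ e (n + 1) (s + c) := by
  change Apow q τ c * ∑ d : ZMod q, Apow q τ d * e * Wd q τ e n (s - d) =
    ∑ d : ZMod q, Apow q τ d * e * Wd q τ e n (s + c - d)
  rw [Finset.mul_sum]
  conv_rhs => rw [← Equiv.sum_comp (Equiv.addLeft c)]
  refine Finset.sum_congr rfl fun d _ => ?_
  rw [Equiv.coe_addLeft, Apow_add q τ hτ c d]
  have h1 : s + c - (c + d) = s - d := by ring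
  rw [h1]
  simp only [mul_assoc]

private theorem T3_neg (d : ZMod q) : Apow q τ (-d) = (((τ ^ d.val)⁻¹ : Aˣ) : A) := by
  have h0 : Apow q τ (0 : ZMod q) = 1 := by
    unfold Apow
    rw [ZMod.val_zero, pow_zero, Units.val_one]
  have h1 : Apow q τ d * Apow q τ (-d) = 1 := by
    rw [← Apow_add q τ hτ, add_neg_cancel, h0]
  have h2 : ((τ ^ d.val : Aˣ) : A) * Apow q τ (-d) = 1 := h1
  exact (Units.eq_inv_of_mul_eq_one_left h2)

private theorem T3_iter (i : ℕ) : (conjR τ)^[i] e = ((τ ^ i : Aˣ) : A) * e * (((τ ^ i)⁻¹ : Aˣ) : A) := by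
  have h : ∀ i : ℕ, (conjR τ)^[i] e = conjR (τ ^ i) e := by
    intro i
    induction i with
    | zero => simp
    | succ i ih =>
      rw [Function.iterate_succ_apply', ih, pow_succ', map_mul, RingAut.mul_apply]
  rw [h, conjR_apply]

private theorem T3_sum (z : A) (hz : z = nrm q (conjR τ) e) :
    z = ∑ r : ZMod q, Apow q τ r * e * Apow q τ (-r) := by
  rw [hz]
  unfold nrm
  refine Finset.sum_bij' (fun i _ => (i : ZMod q)) (fun r _ => r.val) ?_ ?_ ?_ ?_ ?_
  · intro i _
    exact Finset.mem_univ _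
  · intro r _
    exact Finset.mem_range.2 (ZMod.val_lt r)
  · intro i hi
    exact ZMod.val_natCast_of_lt (Finset.mem_range.1 hi)
  · intro r _
    exact ZMod.natCast_zmod_val r
  · intro i hi
    rw [T3_iter q τ hτ e, T3_neg q τ hτ]
    unfold Apow
    rw [ZMod.val_natCast_of_lt (Finset.mem_range.1 hi)]

/-- `z = ∑_{i<q} τ^i e τ^(-i)`. Then `z^(n+1) = ∑ s, W (n+1) s * A (-s)`. `n = 0`: `W 1 s = A s * e`. Step: `z * z^(n+1) = ∑ r, ∑ s, A r * e * A (-r) * W (n+1) s * A (-s) = ∑ r, ∑ s, A r * e * W (n+1) (s - r) * A (-s) = ∑ s, W (n+2) s * A (-s)` by `Wd_shift`. -/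
theorem pow_eq_Wd (n : ℕ) (z : A) (hz : z = nrm q (conjR τ) e) :
    z ^ (n + 1) = ∑ s : ZMod q, Wd q τ e (n + 1) s * Apow q τ (-s) := by
  have hz' := T3_sum q τ hτ e z hz
  induction n with
  | zero =>
    rw [zero_add, pow_one]
    conv_lhs => rw [hz']
    refine Finset.sum_congr rfl fun s _ => ?_
    congr 1
    change Apow q τ s * e = ∑ d : ZMod q, Apow q τ d * e * (if s - d = 0 then 1 else 0)
    rw [Finset.sum_eq_single s]
    · rw [sub_self, if_pos rfl, mul_one]
    · intro d _ hd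
      rw [if_neg (fun h => hd (sub_eq_zero.1 h).symm), mul_zero]
    · intro h
      exact absurd (Finset.mem_univ _) h
  | succ n ih =>
    rw [pow_succ' z (n + 1), ih]
    conv_lhs => rw [hz']
    rw [Finset.sum_mul]
    have h1 : ∀ r : ZMod q, Apow q τ r * e * Apow q τ (-r) *
        ∑ s : ZMod q, Wd q τ e (n + 1) s * Apow q τ (-s) =
        ∑ s : ZMod q, Apow q τ r * e * Wd q τ e (n + 1) (s - r) * Apow q τ (-s) := by
      intro r
      rw [Finset.mul_sum]
      refine Finset.sum_congr rfl fun s _ => ?_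
      have h2 := Wd_shift q τ hτ e n (-r) s
      rw [← sub_eq_add_neg] at h2
      rw [← h2]
      simp only [mul_assoc]
    rw [Finset.sum_congr rfl fun r _ => h1 r, Finset.sum_comm]
    refine Finset.sum_congr rfl fun s _ => ?_
    rw [← Finset.sum_mul]
    rfl

omit hτ

/-- Explicit form, by induction on `n` (`Fin.consEquiv`, `List.ofFn_succ`, `Fin.sum_univ_succ`). -/
theorem Wd_explicit (n : ℕ) (s : ZMod q) :
    Wd q τ e n s = ∑ δ : Fin n → ZMod q, if ∑ i, δ i = s then (List.ofFn (fun i => Apow q τ (δ i) * e)).prod else 0 := by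
  induction n generalizing s with
  | zero =>
    rw [Fintype.sum_unique]
    simp only [Finset.univ_eq_empty, Finset.sum_empty, List.ofFn_zero, List.prod_nil]
    change (if s = 0 then 1 else 0) = _
    exact if_congr eq_comm rfl rfl
  | succ n ih =>
    change ∑ d : ZMod q, Apow q τ d * e * Wd q τ e n (s - d) = _
    rw [← (Fin.consEquiv (fun _ : Fin (n + 1) => ZMod q)).sum_comp, Fintype.sum_prod_type]
    refine Finset.sum_congr rfl fun d _ => ?_
    rw [ih, Finset.mul_sum]
    refine Finset.sum_congr rfl fun δ _ => ?_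
    simp only [Fin.consEquiv_apply, Fin.sum_univ_succ, Fin.cons_zero, Fin.cons_succ, List.ofFn_succ,
      List.prod_cons]
    by_cases h : ∑ i, δ i = s - d
    · rw [if_pos h, if_pos (by rw [h]; ring)]
    · rw [if_neg h, if_neg (fun h' => h (by rw [← h']; ring)), mul_zero]

end

end Pool.Agent.H66Q
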