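import Pool.Agent.Lib.H66Q.T3

set_option autoImplicit false
set_option linter.unusedVariables false
set_option linter.unusedSectionVars false

open scoped Pointwise

namespace Pool.Agent.H66Q

/-- Rotation of words in a trace: `T l = tr (w * (l.map (fun d => A d * e)).prod)` satisfies `T (a :: l) = T (l ++ [a])`, since `w` commutes with `A d` and `e`: `tr (w * (x * P)) = tr (P * (w * x)) = tr (w * (P * x))`. -/
theorem tr_rot {A : Type} [Ring A] {B : Type} [AddCommGroup B] (tr : A →+ B) (htr : ∀ x y, tr (x * y) = tr (y * x))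
    (q : ℕ) [NeZero q] (τ : Aˣ) (e w : A) (hwτ : Commute w (τ : A)) (hwe : Commute w e) (a : ZMod q) (l : List (ZMod q)) :
    tr (w * ((a :: l).map (fun d => Apow q τ d * e)).prod) = tr (w * ((l ++ [a]).map (fun d => Apow q τ d * e)).prod) := by
  have hwA : Commute w (Apow q τ a) := by
    unfold Apow
    rw [Units.val_pow_eq_pow_val]
    exact hwτ.pow_right _
  have hwx : Commute w (Apow q τ a * e) := hwA.mul_right hwe
  rw [List.map_cons, List.prod_cons, List.map_append, List.prod_append, List.map_singleton,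
    List.prod_singleton]
  generalize (l.map (fun d => Apow q τ d * e)).prod = P
  generalize Apow q τ a * e = x at hwx
  have h1 : w * (x * P) = x * (w * P) := by
    rw [← mul_assoc, hwx.eq, mul_assoc]
  rw [h1, htr, mul_assoc]

private theorem T4_rot (m k : ℕ) (i : ZMod (m + 1)) :
    ((finRotate (m + 1)) ^ k) i = i + (k : ZMod (m + 1)) := by
  induction k with
  | zero =>
    rw [pow_zero, Nat.cast_zero, add_zero]
    rfl
  | succ k ih =>
    rw [pow_succ', Equiv.Perm.mul_apply, ih, Nat.cast_succ, ← add_assoc]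
    exact finRotate_apply _

private theorem T4_list {α : Type} (m : ℕ) (δ : Fin (m + 1) → α) :
    List.ofFn (fun i => δ (finRotate (m + 1) i)) = List.ofFn (fun i : Fin m => δ i.succ) ++ [δ 0] := by
  rw [List.ofFn_succ', List.concat_eq_append]
  congr 1
  · congr 1
    funext i
    congr 1
    rw [finRotate_apply, Fin.coeSucc_eq_succ]
  · rw [finRotate_last]

private theorem T4_per {p : ℕ} (q : ℕ) (g : ℕ → ZMod p) (hg : ∀ k, g (k + q) = g k) (c : ℕ) :
    ∑ k ∈ Finset.range (q * c), g k = c • ∑ k ∈ Finset.range q, g k := by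
  have h1 : ∀ c k : ℕ, g (q * c + k) = g k := by
    intro c
    induction c with
    | zero => intro k; rw [mul_zero, zero_add]
    | succ c ih =>
      intro k
      rw [mul_add, mul_one, show q * c + q + k = (q * c + k) + q by ring, hg, ih]
  induction c with
  | zero => simp
  | succ c ih =>
    rw [mul_add, mul_one, Finset.sum_range_add, ih, succ_nsmul]
    congr 1
    exact Finset.sum_congr rfl fun k _ => h1 c k

private theorem T4_free {p : ℕ} [Fact p.Prime] (N j m : ℕ) (hj : 1 ≤ j) (hm : p ^ (N + 1) = m + 1)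
    (δ : ZMod (m + 1) → ZMod (p ^ j)) (h : ∀ i, δ (i + ((p ^ N : ℕ) : ZMod (m + 1))) = δ i)
    (hs : ∑ i, δ i = 1) : False := by
  have hdvd : p ∣ p ^ j := dvd_pow_self p (by omega)
  have hper := T4_per (p := p) (p ^ N)
    (fun k => ZMod.castHom hdvd (ZMod p) (δ (k : ZMod (m + 1)))) (fun k => by
      rw [Nat.cast_add, h]) p
  rw [← pow_succ, hm, Finset.sum_range] at hper
  have h1 : ∑ i : Fin (m + 1), ZMod.castHom hdvd (ZMod p) (δ ((i : ℕ) : ZMod (m + 1))) =
      ∑ i : ZMod (m + 1), ZMod.castHom hdvd (ZMod p) (δ i) := by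
    refine Finset.sum_congr rfl fun i _ => ?_
    have h2 : (((i : Fin (m + 1)) : ℕ) : ZMod (m + 1)) = (i : ZMod (m + 1)) :=
      ZMod.natCast_zmod_val (n := m + 1) i
    rw [h2]
  rw [h1, ← map_sum, hs, map_one, nsmul_eq_mul, CharP.cast_eq_zero, zero_mul] at hper
  exact one_ne_zero hper

/-- The sum over the words of length `p^(N+1)` and total 1 is divisible by `p^(N+1)`. `Wd_explicit`: `tr (w * W n 1) = ∑ δ with ∑ δ = 1, T δ`, `n = p^(N+1)`. Let `D = {δ : Fin n → ZMod q // ∑ δ = 1}`, `R δ = δ ∘ finRotate n` (precomposition with the cyclic shift `i ↦ i + 1`);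
`T (R δ) = T δ` by `tr_rot` (a list `a :: l` becomes `l ++ [a]`). `R^(p^(N+1)) = 1`. `R^(p^N) δ = δ` means `δ (i + p^N) = δ i` for all `i` (indices modulo `p^(N+1)`); then `∑ δ = p * (∑ over i < p^N)` in `ZMod q`, and applying the ring homomorphism `ZMod q → ZMod p` (`p ∣ q = p^j`, `j ≥ 1`) we get
`1 = 0` in `ZMod p`: contradiction. Apply `sum_free`. -/
theorem tr_Wd {p : ℕ} [Fact p.Prime] {A : Type} [Ring A] {B : Type} [AddCommGroup B] (tr : A →+ B) (htr : ∀ x y, tr (x * y) = tr (y * x))
    (N j : ℕ) (hj : 1 ≤ j) [NeZero (p ^ j)] (τ : Aˣ) (e w : A) (hwτ : Commute w (τ : A)) (hwe : Commute w e) :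
    ∃ β : B, tr (w * Wd (p ^ j) τ e (p ^ (N + 1)) 1) = (p ^ (N + 1)) • β := by
  obtain ⟨m, hm⟩ : ∃ m, p ^ (N + 1) = m + 1 :=
    ⟨p ^ (N + 1) - 1, (Nat.succ_pred_eq_of_pos (pow_pos (Fact.out : p.Prime).pos _)).symm⟩
  have hmain : ∃ β : B, tr (w * Wd (p ^ j) τ e (m + 1) 1) = (p ^ (N + 1)) • β := by
    classical
    let R0 : Equiv.Perm (Fin (m + 1) → ZMod (p ^ j)) :=
      (finRotate (m + 1)).symm.arrowCongr (Equiv.refl _)
    have hR0 : ∀ δ, R0 δ = fun i => δ (finRotate (m + 1) i) := fun δ => rfl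
    have hsum : ∀ δ : Fin (m + 1) → ZMod (p ^ j), ∑ i, R0 δ i = ∑ i, δ i := fun δ =>
      Equiv.sum_comp (finRotate (m + 1)) δ
    let R : Equiv.Perm {δ : Fin (m + 1) → ZMod (p ^ j) // ∑ i, δ i = 1} :=
      R0.subtypePerm (fun δ => by rw [hsum])
    have hRk : ∀ (k : ℕ) (d : {δ : Fin (m + 1) → ZMod (p ^ j) // ∑ i, δ i = 1}),
        ((R ^ k) d).1 = fun i => d.1 (((finRotate (m + 1)) ^ k) i) := by
      intro k
      induction k with
      | zero => intro d; rfl
      | succ k ih =>
        intro d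
        rw [pow_succ, Equiv.Perm.mul_apply, ih]
        funext i
        rw [pow_succ']
        rfl
    have hR : R ^ (p ^ (N + 1)) = 1 := by
      ext1 d
      apply Subtype.ext
      rw [hRk, hm]
      funext i
      have h1 := T4_rot m (m + 1) i
      rw [CharP.cast_eq_zero, add_zero] at h1
      rw [h1]
      rfl
    have hfree : ∀ d, (R ^ (p ^ N)) d ≠ d := by
      intro d hd
      refine T4_free N j m hj hm d.1 (fun i => ?_) d.2
      have h1 := hRk (p ^ N) d
      rw [hd] at h1
      have h2 := congrFun h1 i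
      rw [T4_rot] at h2
      exact h2.symm
    obtain ⟨β, hβ⟩ := sum_free (p := p) N R hR hfree
      (fun d => tr (w * (List.ofFn (fun i => Apow (p ^ j) τ (d.1 i) * e)).prod)) (fun d => by
        have h1 : (R d).1 = fun i => d.1 (finRotate (m + 1) i) := rfl
        have h2 := T4_list m (fun i => Apow (p ^ j) τ (d.1 i) * e)
        rw [h1, h2]
        have h3 := tr_rot tr htr (p ^ j) τ e w hwτ hwe (d.1 0) (List.ofFn fun i : Fin m => d.1 i.succ)
        rw [List.map_cons, List.map_append, List.map_ofFn, List.map_singleton] at h3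
        rw [List.ofFn_succ]
        exact h3.symm)
    refine ⟨β, ?_⟩
    rw [← hβ, Wd_explicit, Finset.mul_sum, map_sum]
    have h4 : ∀ δ : Fin (m + 1) → ZMod (p ^ j),
        tr (w * if ∑ i, δ i = 1 then (List.ofFn (fun i => Apow (p ^ j) τ (δ i) * e)).prod else 0) =
          if ∑ i, δ i = 1 then tr (w * (List.ofFn (fun i => Apow (p ^ j) τ (δ i) * e)).prod)
            else 0 := by
      intro δ
      split_ifs
      · rfl
      · rw [mul_zero, map_zero]
    rw [Finset.sum_congr rfl (fun δ _ => h4 δ), ← Finset.sum_filter]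
    exact Finset.sum_subtype _ (fun δ => by simp) _
  rw [hm] at hmain ⊢
  exact hmain

end Pool.Agent.H66Q
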