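import Pool.Agent.Lib.H66Q.S2

set_option autoImplicit false
set_option linter.unusedVariables false
set_option linter.unusedSectionVars false

open scoped Pointwise

namespace Pool.Agent.H66Q

variable {V : Type} [Fintype V] [LinearOrder V] {E : Type} [Ring E]

/-- Cone contraction: if the vertex `v0` lies neither in `F` nor in a member of `B`, every cycle is a boundary.
Proof. `ψ = con v0 φ`. The condition `KFB F B` at `S` and at `insert v0 S` are equivalent (`v0 ∉ F`, `v0 ∉ O` for `O ∈ B`).
Support of `ψ`: `ψ S ≠ 0` implies `v0 ∉ S` and `φ (insert v0 S) ≠ 0`, so `KFB F B (insert v0 S)` and `(insert v0 S).card = k`, hence `KFB F B S` and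
`S.card + 1 = k`. Next, with `D = Dl univ`: `con v0 ∘ D + D ∘ con v0 = id` (`con_Dl`, `v0 ∈ univ`). `con v0` commutes with `res (KFB F B)` by the
equivalence above. So `dK F B ψ = res (D (con v0 φ)) = res (φ - con v0 (D φ)) = res φ - con v0 (res (D φ)) = φ - con v0 (dK F B φ) = φ`
(`res φ = φ` because of `hφ`). -/
theorem cone (F : Finset V) (B : List (Finset V)) (v0 : V) (hF : v0 ∉ F) (hB : ∀ O ∈ B, v0 ∉ O)
    (k : ℕ) (φ : Finset V → E) (hφ : Supp (KFB F B) k φ) (hd : dK F B φ = 0) :
    ∃ ψ : Finset V → E, (∀ S, ψ S ≠ 0 → KFB F B S ∧ S.card + 1 = k) ∧ dK F B ψ = φ := by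
  have hK : ∀ S : Finset V, KFB F B (insert v0 S) ↔ KFB F B S := by
    intro S
    unfold KFB
    refine and_congr ?_ (forall₂_congr fun O hO => not_congr ?_)
    · constructor
      · intro h w hw
        rcases Finset.mem_insert.1 (h hw) with h1 | h1
        · exact absurd (h1 ▸ hw) hF
        · exact h1
      · intro h
        exact h.trans (Finset.subset_insert _ _)
    · constructor
      · intro h w hw
        rcases Finset.mem_insert.1 (h hw) with h1 | h1
        · exact absurd (h1 ▸ hw) (hB O hO)
        · exact h1
      · intro h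
        exact h.trans (Finset.subset_insert _ _)
  refine ⟨con v0 φ, ?_, ?_⟩
  · intro S hS
    rw [con_apply] at hS
    by_cases hv : v0 ∈ S
    · rw [if_pos hv] at hS
      exact absurd rfl hS
    · rw [if_neg hv] at hS
      have h1 : φ (insert v0 S) ≠ 0 := by
        intro h
        apply hS
        rw [h, smul_zero]
      obtain ⟨h2, h3⟩ := hφ _ h1
      rw [Finset.card_insert_of_notMem hv] at h3
      exact ⟨(hK S).1 h2, h3⟩
  · have h1 := LinearMap.congr_fun (con_Dl (E := E) (Finset.mem_univ v0)) φ
    simp only [LinearMap.add_apply, LinearMap.comp_apply, LinearMap.id_apply] at h1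
    have h2 : Dl Finset.univ (con v0 φ) = φ - con v0 (Dl Finset.univ φ) := eq_sub_of_add_eq' h1
    funext S
    unfold dK
    rw [LinearMap.comp_apply, res_apply]
    by_cases hS : KFB F B S
    · rw [if_pos hS, h2, Pi.sub_apply]
      have h4 : con v0 (Dl Finset.univ φ) S = 0 := by
        rw [con_apply]
        by_cases hv : v0 ∈ S
        · rw [if_pos hv]
        · rw [if_neg hv]
          have h5 : dK F B φ (insert v0 S) = 0 := by
            rw [hd]
            rfl
          unfold dK at h5
          rw [LinearMap.comp_apply, res_apply, if_pos ((hK S).2 hS)] at h5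
          rw [h5, smul_zero]
      rw [h4, sub_zero]
    · rw [if_neg hS]
      by_contra h
      exact hS (hφ S (fun h' => h h'.symm)).1

end Pool.Agent.H66Q
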